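import Mathlib

/-! Project LI (MP_95e7ec_an): Lienard systems on average. Definitions and exact statements.

The system is `x' = Φ(x, y) - s x`, `y' = - g(x)` with `y Φ(0, y) > 0` and `x g(x) > 0`. -/

open Set MeasureTheory
open scoped ENNReal

namespace Pool.Agent.J4H16.LI

/-- the vector field `x' = Φ(x, y) - s x`, `y' = - g(x)` -/
def fld (Φ : ℝ → ℝ → ℝ) (g : ℝ → ℝ) (s : ℝ) (z : ℝ × ℝ) : ℝ × ℝ :=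
  (Φ z.1 z.2 - s * z.1, - g z.1)

/-- `C` is a closed orbit of the vector field `X`: the image of a nonconstant periodic solution -/
def ClosedOrbit (X : ℝ × ℝ → ℝ × ℝ) (C : Set (ℝ × ℝ)) : Prop :=
  ∃ γ : ℝ → ℝ × ℝ, ∃ T : ℝ, 0 < T ∧ (∀ t : ℝ, HasDerivAt γ (X (γ t)) t) ∧
    (∀ t : ℝ, γ (t + T) = γ t) ∧ (∃ a b : ℝ, γ a ≠ γ b) ∧ C = range γ

/-- the standing assumptions -/
structure Sys (Φ : ℝ → ℝ → ℝ) (g : ℝ → ℝ) : Prop where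
  smΦ : ContDiff ℝ 1 (fun z : ℝ × ℝ => Φ z.1 z.2)
  smg : ContDiff ℝ 1 g
  posΦ : ∀ y : ℝ, y ≠ 0 → 0 < y * Φ 0 y
  posg : ∀ x : ℝ, x ≠ 0 → 0 < x * g x

/-- the system in the coordinates `(-x, -y)` is `mΦ Φ`, `mg g`, with the same `s` -/
def mΦ (Φ : ℝ → ℝ → ℝ) : ℝ → ℝ → ℝ := fun x y => - Φ (-x) (-y)

def mg (g : ℝ → ℝ) : ℝ → ℝ := fun x => - g (-x)

/-- the system in the coordinates `(x, -y)`, with time reversed, is `rΦ Φ`, `g`, with `-s` -/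
def rΦ (Φ : ℝ → ℝ → ℝ) : ℝ → ℝ → ℝ := fun x y => - Φ x (-y)

lemma Sys.mir {Φ : ℝ → ℝ → ℝ} {g : ℝ → ℝ} (h : Sys Φ g) : Sys (mΦ Φ) (mg g) where
  smΦ := by
    have : (fun z : ℝ × ℝ => mΦ Φ z.1 z.2) =
        fun z => - (fun w : ℝ × ℝ => Φ w.1 w.2) (-z) := by
      funext z
      simp [mΦ]
    rw [this]
    exact (h.smΦ.comp contDiff_neg).neg
  smg := by
    have : mg g = fun x => - g (-x) := rfl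
    rw [this]
    exact (h.smg.comp contDiff_neg).neg
  posΦ := by
    intro y hy
    have := h.posΦ (-y) (neg_ne_zero.2 hy)
    simp only [mΦ, neg_zero]
    linarith
  posg := by
    intro x hx
    have := h.posg (-x) (neg_ne_zero.2 hx)
    simp only [mg]
    linarith

lemma Sys.rfl' {Φ : ℝ → ℝ → ℝ} {g : ℝ → ℝ} (h : Sys Φ g) : Sys (rΦ Φ) g where
  smΦ := by
    have : (fun z : ℝ × ℝ => rΦ Φ z.1 z.2) =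
        fun z => - (fun w : ℝ × ℝ => Φ w.1 w.2) (z.1, -z.2) := by
      funext z
      simp [rΦ]
    rw [this]
    exact (h.smΦ.comp (contDiff_fst.prodMk contDiff_snd.neg)).neg
  smg := h.smg
  posΦ := by
    intro y hy
    have := h.posΦ (-y) (neg_ne_zero.2 hy)
    simp only [rΦ]
    linarith
  posg := h.posg

/-- the part in `x > 0` of an orbit which turns about the origin, from `(0, Y)` down to `(0, -B)`,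
as the graph `x = u y` (and `u = 0` outside `(-B, Y)`) -/
structure Arc (Φ : ℝ → ℝ → ℝ) (g : ℝ → ℝ) (s B Y : ℝ) (u : ℝ → ℝ) : Prop where
  hB : 0 < B
  hY : 0 < Y
  cont : Continuous u
  out : ∀ y, y ∉ Ioo (-B) Y → u y = 0
  pos : ∀ y ∈ Ioo (-B) Y, 0 < u y
  der : ∀ y ∈ Ioo (-B) Y, HasDerivAt u (-(Φ (u y) y - s * u y) / g (u y)) y

/-- a closed orbit: the right half is `x = u y`, the left half is `x = - v y` -/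
structure Cyc (Φ : ℝ → ℝ → ℝ) (g : ℝ → ℝ) (s B Y : ℝ) (u v : ℝ → ℝ) : Prop where
  right : Arc Φ g s B Y u
  left : Arc (mΦ Φ) (mg g) s Y B (fun y => v (-y))

/-- the curve -/
def crv (B Y : ℝ) (u v : ℝ → ℝ) : Set (ℝ × ℝ) :=
  {z | z.2 ∈ Icc (-B) Y ∧ (z.1 = u z.2 ∨ z.1 = - v z.2)}

/-- (UNI) uniqueness of solutions -/
def S_UNI : Prop := ∀ (Φ : ℝ → ℝ → ℝ) (g : ℝ → ℝ), Sys Φ g → ∀ (s : ℝ) (γ δ : ℝ → ℝ × ℝ),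
  (∀ t, HasDerivAt γ (fld Φ g s (γ t)) t) → (∀ t, HasDerivAt δ (fld Φ g s (δ t)) t) →
  ∀ a b : ℝ, γ a = δ b → ∀ t, γ (a + t) = δ (b + t)

/-- (HALF) the first half turn after a point of the positive `y`-axis -/
def S_HALF : Prop := ∀ (Φ : ℝ → ℝ → ℝ) (g : ℝ → ℝ), Sys Φ g → ∀ (s : ℝ) (γ : ℝ → ℝ × ℝ) (T : ℝ),
  0 < T → (∀ t, HasDerivAt γ (fld Φ g s (γ t)) t) → (∀ t, γ (t + T) = γ t) →
  ∀ t₀ : ℝ, (γ t₀).1 = 0 → 0 < (γ t₀).2 →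
  ∃ (t₁ B : ℝ) (u : ℝ → ℝ), t₀ < t₁ ∧ (∀ t ∈ Ioo t₀ t₁, 0 < (γ t).1) ∧ γ t₁ = (0, -B) ∧
    Arc Φ g s B (γ t₀).2 u ∧
    γ '' Icc t₀ t₁ = {z : ℝ × ℝ | z.2 ∈ Icc (-B) (γ t₀).2 ∧ z.1 = u z.2}

/-- (ZU) two arcs with the same `s` which meet in `x > 0` are equal -/
def S_ZU : Prop := ∀ (Φ : ℝ → ℝ → ℝ) (g : ℝ → ℝ), Sys Φ g → ∀ (s B₁ Y₁ B₂ Y₂ : ℝ) (u₁ u₂ : ℝ → ℝ),
  Arc Φ g s B₁ Y₁ u₁ → Arc Φ g s B₂ Y₂ u₂ → ∀ y ∈ Ioo (-B₁) Y₁, u₁ y = u₂ y →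
  B₁ = B₂ ∧ Y₁ = Y₂ ∧ u₁ = u₂

/-- (AX) comparison of two arcs which end at the same point of the negative `y`-axis -/
def S_AX : Prop := ∀ (Φ : ℝ → ℝ → ℝ) (g : ℝ → ℝ), Sys Φ g →
  ∀ (s₁ s₂ B Y₁ Y₂ : ℝ) (u₁ u₂ : ℝ → ℝ), s₁ ≤ s₂ →
  Arc Φ g s₁ B Y₁ u₁ → Arc Φ g s₂ B Y₂ u₂ →
  ∃ δ : ℝ, 0 < δ ∧ ∀ y ∈ Ioo (-B) (-B + δ), u₁ y ≤ u₂ y

/-- (CMP) the comparison of two arcs -/
def S_CMP : Prop := ∀ (Φ : ℝ → ℝ → ℝ) (g : ℝ → ℝ), Sys Φ g →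
  ∀ (s₁ s₂ B₁ Y₁ B₂ Y₂ : ℝ) (u₁ u₂ : ℝ → ℝ), s₁ ≤ s₂ →
  Arc Φ g s₁ B₁ Y₁ u₁ → Arc Φ g s₂ B₂ Y₂ u₂ → Y₂ ≤ Y₁ → (s₁ < s₂ ∨ Y₂ < Y₁) →
  B₂ < B₁ ∧ ∀ y ∈ Ioo (-B₁) Y₁, u₂ y < u₁ y

/-- (EQ) two arcs with the same `s` and the same starting point are equal -/
def S_EQ : Prop := ∀ (Φ : ℝ → ℝ → ℝ) (g : ℝ → ℝ), Sys Φ g →
  ∀ (s B₁ B₂ Y : ℝ) (u₁ u₂ : ℝ → ℝ),
  Arc Φ g s B₁ Y u₁ → Arc Φ g s B₂ Y u₂ → B₁ = B₂ ∧ u₁ = u₂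

/-- (CYC) every closed orbit consists of two arcs -/
def S_CYC : Prop := ∀ (Φ : ℝ → ℝ → ℝ) (g : ℝ → ℝ), Sys Φ g → ∀ (s : ℝ) (C : Set (ℝ × ℝ)),
  ClosedOrbit (fld Φ g s) C → ∃ (B Y : ℝ) (u v : ℝ → ℝ), Cyc Φ g s B Y u v ∧ C = crv B Y u v

/-- (IDN) the identity for the parameter -/
def S_IDN : Prop := ∀ (Φ : ℝ → ℝ → ℝ) (g : ℝ → ℝ), Sys Φ g → ∀ (s B Y : ℝ) (u : ℝ → ℝ),
  Arc Φ g s B Y u → s * ∫ y, u y = ∫ y in (-B)..Y, Φ (u y) y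

/-- (POL) the variation of a polynomial -/
def S_POL : Prop := ∀ (n : ℕ) (p : Polynomial ℝ), p.natDegree ≤ n → ∀ (b M : ℝ), 0 ≤ b → 0 ≤ M →
  (∀ x ∈ Icc 0 b, |p.eval x - p.eval 0| ≤ M * x) →
  ∫ x in (0 : ℝ)..b, |p.derivative.eval x| ≤ 2 * n * M * b

/-- (TV) the number of preimages of a map of Lipschitz constant one, on average -/
def S_TV : Prop := ∀ (ι : Type) (s h : ι → ℝ) (α β : ℝ), α ≤ β → Function.Injective h →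
  (∀ i, h i ∈ Icc α β) → (∀ i j, |s i - s j| ≤ |h i - h j|) →
  ∃ G : ℝ → ℝ≥0∞, Measurable G ∧
    (∀ σ : ℝ, (({i : ι | s i = σ}.encard : ℕ∞) : ℝ≥0∞) ≤ G σ) ∧
    ∫⁻ σ, G σ ≤ ENNReal.ofReal (β - α)

end Pool.Agent.J4H16.LI
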