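import Mathlib

/-! Project LI, fourth part: Bernstein's inequality (instead of Markov's) makes the mean number of
all closed orbits linear in the degree. -/

open Set

namespace Pool.Agent.J4H16.LI

/-- (QB) Bernstein's inequality, constant `2`, in the inner half of the interval -/
def S_QB : Prop := ∀ (n : ℕ) (q : Polynomial ℝ), q.natDegree ≤ n → ∀ (M R : ℝ), 0 < R → 0 ≤ M →
  (∀ x, |x| ≤ R → |q.eval x| ≤ M) → ∀ x, |x| ≤ R / 2 → |q.derivative.eval x| ≤ 2 * n * M / R

/-- (BE) its consequence for `F(x) = x q(x)` -/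
def S_BE : Prop := ∀ (n : ℕ) (p : Polynomial ℝ), p.natDegree ≤ n → p.eval 0 = 0 →
  ∀ (M R : ℝ), 0 < R → 0 ≤ M → (∀ x, |x| ≤ R → |p.eval x| ≤ M * |x|) →
  ∀ x, |x| ≤ R / 2 → |p.derivative.eval x - p.derivative.eval 0| ≤ 4 * n * M / R * |x|

end Pool.Agent.J4H16.LI
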