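import Pool.Agent.J4H16.LI.Stm

/-! Project LI: nested closed orbits, the estimates of the areas, and the main theorem, from the
statements of `Stm`. -/

open Set MeasureTheory Filter Topology
open scoped ENNReal

namespace Pool.Agent.J4H16.LI

variable {Φ : ℝ → ℝ → ℝ} {g : ℝ → ℝ}

lemma Arc.nonneg {s B Y : ℝ} {u : ℝ → ℝ} (h : Arc Φ g s B Y u) (y : ℝ) : 0 ≤ u y := by
  by_cases hy : y ∈ Ioo (-B) Y
  · exact (h.pos y hy).le
  · exact (h.out y hy).ge

lemma Arc.rfl' {s B Y : ℝ} {u : ℝ → ℝ} (h : Arc Φ g s B Y u) :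
    Arc (rΦ Φ) g (-s) Y B (fun y => u (-y)) where
  hB := h.hY
  hY := h.hB
  cont := h.cont.comp continuous_neg
  out := fun y hy => h.out (-y) fun h' => hy ⟨by linarith [h'.2], by linarith [h'.1]⟩
  pos := fun y hy => h.pos (-y) ⟨by linarith [hy.2], by linarith [hy.1]⟩
  der := by
    intro y hy
    have h1 := h.der (-y) ⟨by linarith [hy.2], by linarith [hy.1]⟩
    have h2 : HasDerivAt (fun y : ℝ => -y) (-1) y := (hasDerivAt_id y).neg
    have h3 := HasDerivAt.comp y h1 h2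
    refine h3.congr_deriv ?_
    unfold rΦ
    ring

/-- two closed orbits of the family are nested -/
lemma nested (hC : S_CMP) (hS : Sys Φ g) {s₁ B₁ Y₁ s₂ B₂ Y₂ : ℝ} {u₁ v₁ u₂ v₂ : ℝ → ℝ}
    (h1 : Cyc Φ g s₁ B₁ Y₁ u₁ v₁) (h2 : Cyc Φ g s₂ B₂ Y₂ u₂ v₂) (hs : s₁ ≤ s₂)
    (hne : s₁ < s₂ ∨ Y₁ ≠ Y₂) :
    ((∀ y, u₂ y ≤ u₁ y ∧ v₂ y ≤ v₁ y) ∧ ∃ y, u₂ y < u₁ y) ∨
      ((∀ y, u₁ y ≤ u₂ y ∧ v₁ y ≤ v₂ y) ∧ ∃ y, u₁ y < u₂ y) := by
  -- the case in which the second one is inside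
  have caseA : ∀ {s₁ B₁ Y₁ s₂ B₂ Y₂ : ℝ} {u₁ v₁ u₂ v₂ : ℝ → ℝ},
      Cyc Φ g s₁ B₁ Y₁ u₁ v₁ → Cyc Φ g s₂ B₂ Y₂ u₂ v₂ → s₁ ≤ s₂ → Y₂ ≤ Y₁ →
      (s₁ < s₂ ∨ Y₂ < Y₁) → (∀ y, u₂ y ≤ u₁ y ∧ v₂ y ≤ v₁ y) ∧ ∃ y, u₂ y < u₁ y := by
    intro s₁ B₁ Y₁ s₂ B₂ Y₂ u₁ v₁ u₂ v₂ h1 h2 hs hY hd
    obtain ⟨hB, hu⟩ := hC Φ g hS s₁ s₂ B₁ Y₁ B₂ Y₂ u₁ u₂ hs h1.right h2.right hY hd
    obtain ⟨hY', hv⟩ := hC (mΦ Φ) (mg g) hS.mir s₁ s₂ Y₁ B₁ Y₂ B₂ (fun y => v₁ (-y))
      (fun y => v₂ (-y)) hs h1.left h2.left hB.le (Or.inr hB)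
    refine ⟨fun y => ⟨?_, ?_⟩, 0, hu 0 ⟨by linarith [h1.right.hB], h1.right.hY⟩⟩
    · by_cases hy : y ∈ Ioo (-B₁) Y₁
      · exact (hu y hy).le
      · rw [h2.right.out y fun h' => hy ⟨by linarith [h'.1], by linarith [h'.2]⟩]
        exact h1.right.nonneg y
    · by_cases hy : -y ∈ Ioo (-Y₁) B₁
      · have := hv (-y) hy
        simp only [neg_neg] at this
        exact this.le
      · have e1 := h2.left.out (-y) fun h' => hy ⟨by linarith [h'.1], by linarith [h'.2]⟩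
        have e2 := h1.left.nonneg (-y)
        simp only [neg_neg] at e1 e2
        rw [e1]
        exact e2
  rcases le_or_gt Y₂ Y₁ with hY | hY
  · left
    refine caseA h1 h2 hs hY ?_
    rcases hne with h | h
    · exact Or.inl h
    · exact Or.inr (lt_of_le_of_ne hY (Ne.symm h))
  · right
    rcases hs.eq_or_lt with he | hlt
    · exact caseA h2 h1 he.ge hY.le (Or.inr hY)
    · -- the reflected arcs
      have hB : B₁ < B₂ := by
        by_contra hcon
        push Not at hcon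
        have := (hC (mΦ Φ) (mg g) hS.mir s₁ s₂ Y₁ B₁ Y₂ B₂ (fun y => v₁ (-y))
          (fun y => v₂ (-y)) hs h1.left h2.left hcon (Or.inl hlt)).1
        linarith
      have hu := (hC (rΦ Φ) g hS.rfl' (-s₂) (-s₁) Y₂ B₂ Y₁ B₁ (fun y => u₂ (-y))
        (fun y => u₁ (-y)) (by linarith) h2.right.rfl' h1.right.rfl' hB.le (Or.inr hB)).2
      have hv := (hC (rΦ (mΦ Φ)) (mg g) hS.mir.rfl' (-s₂) (-s₁) B₂ Y₂ B₁ Y₁
        (fun y => v₂ (- -y)) (fun y => v₁ (- -y)) (by linarith) h2.left.rfl' h1.left.rfl'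
        hY.le (Or.inr hY)).2
      refine ⟨fun y => ⟨?_, ?_⟩, 0, ?_⟩
      · by_cases hy : -y ∈ Ioo (-Y₂) B₂
        · have := hu (-y) hy
          simp only [neg_neg] at this
          exact this.le
        · rw [h1.right.out y fun h' => hy ⟨by linarith [h'.2], by linarith [h'.1]⟩]
          exact h2.right.nonneg y
      · by_cases hy : y ∈ Ioo (-B₂) Y₂
        · have := hv y hy
          simp only [neg_neg] at this
          exact this.le
        · have e1 := h1.left.out (-y) fun h' => hy ⟨by linarith [h'.2], by linarith [h'.1]⟩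
          have e2 := h2.left.nonneg (-y)
          simp only [neg_neg] at e1 e2
          rw [e1]
          exact e2
      · have := hu 0 ⟨by linarith [h2.right.hY], h2.right.hB⟩
        simpa using this

lemma Cyc.v_cont {s B Y : ℝ} {u v : ℝ → ℝ} (h : Cyc Φ g s B Y u v) : Continuous v := by
  have := h.left.cont.comp continuous_neg
  simpa [Function.comp_def] using this

lemma Cyc.v_nonneg {s B Y : ℝ} {u v : ℝ → ℝ} (h : Cyc Φ g s B Y u v) (y : ℝ) : 0 ≤ v y := by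
  have := h.left.nonneg (-y)
  simpa using this

lemma Cyc.v_out {s B Y : ℝ} {u v : ℝ → ℝ} (h : Cyc Φ g s B Y u v) {y : ℝ}
    (hy : y ∉ Ioo (-B) Y) : v y = 0 := by
  have := h.left.out (-y) fun h' => hy ⟨by linarith [h'.2], by linarith [h'.1]⟩
  simpa using this

lemma Cyc.v_pos {s B Y : ℝ} {u v : ℝ → ℝ} (h : Cyc Φ g s B Y u v) {y : ℝ}
    (hy : y ∈ Ioo (-B) Y) : 0 < v y := by
  have := h.left.pos (-y) ⟨by linarith [hy.2], by linarith [hy.1]⟩
  simpa using this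

/-- integrals of functions which vanish outside `(-B, Y)` -/
lemma integral_out {B Y : ℝ} (hBY : -B ≤ Y) {f : ℝ → ℝ} (hf : ∀ y, y ∉ Ioo (-B) Y → f y = 0) :
    ∫ y, f y = ∫ y in (-B)..Y, f y := by
  rw [intervalIntegral.integral_of_le hBY]
  symm
  apply setIntegral_eq_integral_of_forall_compl_eq_zero
  intro y hy
  exact hf y fun h => hy ⟨h.1, h.2.le⟩

lemma integrable_out {B Y : ℝ} {f : ℝ → ℝ} (hc : Continuous f)
    (hf : ∀ y, y ∉ Ioo (-B) Y → f y = 0) : Integrable f := by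
  refine hc.integrable_of_hasCompactSupport ?_
  refine HasCompactSupport.intro (isCompact_Icc (a := -B) (b := Y)) fun y hy => ?_
  exact hf y fun h => hy ⟨h.1.le, h.2.le⟩

/-- the enclosed area -/
noncomputable def area (u v : ℝ → ℝ) : ℝ := ∫ y, (u y + v y)

/-- the partial derivative in `x` -/
noncomputable def Dx (Φ : ℝ → ℝ → ℝ) (x y : ℝ) : ℝ :=
  fderiv ℝ (fun z : ℝ × ℝ => Φ z.1 z.2) (x, y) (1, 0)

lemma continuous_Dx (hS : Sys Φ g) : Continuous fun z : ℝ × ℝ => Dx Φ z.1 z.2 := by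
  have h := hS.smΦ.continuous_fderiv (by norm_num)
  exact (h.clm_apply continuous_const)

lemma hasDerivAt_Dx (hS : Sys Φ g) (x y : ℝ) : HasDerivAt (fun t => Φ t y) (Dx Φ x y) x := by
  have h1 : HasFDerivAt (fun z : ℝ × ℝ => Φ z.1 z.2)
      (fderiv ℝ (fun z : ℝ × ℝ => Φ z.1 z.2) (x, y)) (x, y) :=
    (hS.smΦ.differentiable (by norm_num) _).hasFDerivAt
  have h2 : HasDerivAt (fun t : ℝ => (t, y)) ((1 : ℝ), (0 : ℝ)) x :=
    (hasDerivAt_id x).prodMk (hasDerivAt_const x y)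
  exact h1.comp_hasDerivAt x h2

/-- the density of the majorant -/
noncomputable def den (Φ : ℝ → ℝ → ℝ) (M x y : ℝ) : ℝ := |Dx Φ x y| + M

lemma continuous_den (hS : Sys Φ g) (M : ℝ) : Continuous fun z : ℝ × ℝ => den Φ M z.1 z.2 :=
  (continuous_Dx hS).abs.add continuous_const

lemma den_nonneg {M : ℝ} (hM : 0 ≤ M) (x y : ℝ) : 0 ≤ den Φ M x y := by
  unfold den
  positivity

/-- the slices of the majorant -/
noncomputable def sl (Φ : ℝ → ℝ → ℝ) (M a b y : ℝ) : ℝ := ∫ t in a..b, den Φ M t y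

lemma den_int (hS : Sys Φ g) (M a b y : ℝ) :
    IntervalIntegrable (fun t => den Φ M t y) volume a b := by
  apply Continuous.intervalIntegrable
  exact (continuous_den hS M).comp (continuous_id.prodMk continuous_const)

lemma continuous_sl (hS : Sys Φ g) (M : ℝ) {a b : ℝ → ℝ} (ha : Continuous a) (hb : Continuous b) :
    Continuous fun y => sl Φ M (a y) (b y) y := by
  have h0 : ∀ {c : ℝ → ℝ}, Continuous c → Continuous fun y => ∫ t in (0:ℝ)..(c y), den Φ M t y := by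
    intro c hc
    have h1 : Continuous (Function.uncurry fun (y t : ℝ) => den Φ M t y) :=
      (continuous_den hS M).comp (continuous_snd.prodMk continuous_fst)
    have h2 := intervalIntegral.continuous_parametric_intervalIntegral_of_continuous
      (a₀ := (0:ℝ)) (μ := volume) (f := fun (y t : ℝ) => den Φ M t y) h1 hc
    exact h2
  have h3 : (fun y => sl Φ M (a y) (b y) y) =
      fun y => (∫ t in (0:ℝ)..(b y), den Φ M t y) - ∫ t in (0:ℝ)..(a y), den Φ M t y := by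
    funext y
    unfold sl
    rw [intervalIntegral.integral_interval_sub_left (den_int hS M _ _ _) (den_int hS M _ _ _)]
  rw [h3]
  exact (h0 hb).sub (h0 ha)

lemma sub_le_sl (hS : Sys Φ g) {M s a b : ℝ} (hab : a ≤ b) (hs : |s| ≤ M) (y : ℝ) :
    |Φ b y - Φ a y - s * (b - a)| ≤ sl Φ M a b y := by
  have hDc : Continuous fun t => Dx Φ t y :=
    (continuous_Dx hS).comp (continuous_id.prodMk continuous_const)
  have h1 : ∫ t in a..b, Dx Φ t y = Φ b y - Φ a y :=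
    intervalIntegral.integral_eq_sub_of_hasDerivAt (fun t _ => hasDerivAt_Dx hS t y)
      (hDc.intervalIntegrable _ _)
  have h2 : Φ b y - Φ a y - s * (b - a) = ∫ t in a..b, (Dx Φ t y - s) := by
    rw [intervalIntegral.integral_sub (hDc.intervalIntegrable _ _) (by simp), h1]
    simp
    ring
  rw [h2]
  refine (intervalIntegral.abs_integral_le_integral_abs hab).trans ?_
  unfold sl
  refine intervalIntegral.integral_mono_on hab ?_ (den_int hS M _ _ _) ?_
  · exact ((hDc.sub continuous_const).abs).intervalIntegrable _ _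
  · intro t _
    unfold den
    calc |Dx Φ t y - s| ≤ |Dx Φ t y| + |s| := abs_sub _ _
      _ ≤ |Dx Φ t y| + M := by linarith

end Pool.Agent.J4H16.LI
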