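import Pool.Agent.J4H16.LI.Asm

/-! Project LI: the estimates of the areas. -/

open Set MeasureTheory Filter Topology
open scoped ENNReal

namespace Pool.Agent.J4H16.LI

variable {Φ : ℝ → ℝ → ℝ} {g : ℝ → ℝ}

lemma Arc.lt {s B Y : ℝ} {u : ℝ → ℝ} (h : Arc Φ g s B Y u) : -B < Y := by
  linarith [h.hB, h.hY]

lemma Cyc.int_u {s B Y : ℝ} {u v : ℝ → ℝ} (h : Cyc Φ g s B Y u v) : Integrable u :=
  integrable_out h.right.cont h.right.out

lemma Cyc.int_v {s B Y : ℝ} {u v : ℝ → ℝ} (h : Cyc Φ g s B Y u v) : Integrable v :=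
  integrable_out h.v_cont fun _ hy => h.v_out hy

lemma Cyc.continuous_Φ (hS : Sys Φ g) {w : ℝ → ℝ} (hw : Continuous w) :
    Continuous fun y => Φ (w y) y :=
  hS.smΦ.continuous.comp (hw.prodMk continuous_id)

lemma Cyc.int_diff (hS : Sys Φ g) {s B Y : ℝ} {u v : ℝ → ℝ} (h : Cyc Φ g s B Y u v) :
    Integrable fun y => Φ (u y) y - Φ (-v y) y := by
  refine integrable_out (B := B) (Y := Y) ((Cyc.continuous_Φ hS h.right.cont).sub
    (Cyc.continuous_Φ hS h.v_cont.neg)) fun y hy => ?_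
  rw [h.right.out y hy, h.v_out hy]
  simp

/-- the identity for the parameter -/
lemma Cyc.ident (hI : S_IDN) (hS : Sys Φ g) {s B Y : ℝ} {u v : ℝ → ℝ}
    (h : Cyc Φ g s B Y u v) : s * area u v = ∫ y, (Φ (u y) y - Φ (-v y) y) := by
  have h1 := hI Φ g hS s B Y u h.right
  have h2 := hI (mΦ Φ) (mg g) hS.mir s Y B (fun y => v (-y)) h.left
  rw [integral_neg_eq_self v volume] at h2
  have h3 : ∫ y in (-Y)..B, mΦ Φ (v (-y)) y = ∫ y in (-B)..Y, -Φ (-v y) y := by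
    have := intervalIntegral.integral_comp_neg (a := -Y) (b := B) (fun y => -Φ (-v y) y)
    rw [neg_neg] at this
    rw [← this]
    rfl
  rw [h3] at h2
  have h4 : area u v = (∫ y, u y) + ∫ y, v y := integral_add h.int_u h.int_v
  rw [h4, mul_add, h1, h2, integral_out h.right.lt.le (f := fun y => Φ (u y) y - Φ (-v y) y),
    ← intervalIntegral.integral_add]
  · refine intervalIntegral.integral_congr fun y _ => ?_
    ring
  · exact (Cyc.continuous_Φ hS h.right.cont).intervalIntegrable _ _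
  · exact (Cyc.continuous_Φ hS h.v_cont.neg).neg.intervalIntegrable _ _
  · intro y hy
    rw [h.right.out y hy, h.v_out hy]
    simp

/-- the majorant -/
noncomputable def maj (Φ : ℝ → ℝ → ℝ) (M : ℝ) (u v : ℝ → ℝ) : ℝ := ∫ y, sl Φ M (-v y) (u y) y

lemma Cyc.int_sl (hS : Sys Φ g) {s B Y : ℝ} {u v : ℝ → ℝ} (h : Cyc Φ g s B Y u v) (M : ℝ) :
    Integrable fun y => sl Φ M (-v y) (u y) y := by
  refine integrable_out (B := B) (Y := Y) (continuous_sl hS M h.v_cont.neg h.right.cont)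
    fun y hy => ?_
  rw [h.right.out y hy, h.v_out hy]
  simp [sl]

lemma sl_nonneg {M a b y : ℝ} (hM : 0 ≤ M) (hab : a ≤ b) : 0 ≤ sl Φ M a b y :=
  intervalIntegral.integral_nonneg hab fun _ _ => den_nonneg hM _ _

lemma maj_nonneg {s B Y M : ℝ} {u v : ℝ → ℝ} (h : Cyc Φ g s B Y u v) (hM : 0 ≤ M) :
    0 ≤ maj Φ M u v :=
  integral_nonneg fun y => sl_nonneg hM (by linarith [h.right.nonneg y, h.v_nonneg y])

lemma Cyc.area_pos {s B Y : ℝ} {u v : ℝ → ℝ} (h : Cyc Φ g s B Y u v) : 0 < area u v := by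
  unfold area
  refine Continuous.integral_pos_of_hasCompactSupport_nonneg_nonzero
    (h.right.cont.add h.v_cont) ?_ ?_ (x := 0) ?_
  · refine HasCompactSupport.intro (isCompact_Icc (a := -B) (b := Y)) fun y hy => ?_
    have hy' : y ∉ Ioo (-B) Y := fun h => hy ⟨h.1.le, h.2.le⟩
    rw [h.right.out y hy', h.v_out hy', add_zero]
  · intro y
    exact add_nonneg (h.right.nonneg y) (h.v_nonneg y)
  · have h0 : (0:ℝ) ∈ Ioo (-B) Y := ⟨by linarith [h.right.hB], h.right.hY⟩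
    have h1 := h.right.pos 0 h0
    have h2 := h.v_nonneg 0
    intro h3
    have h3' : u 0 + v 0 = 0 := h3
    linarith

lemma area_lt {s₁ B₁ Y₁ s₂ B₂ Y₂ : ℝ} {u₁ v₁ u₂ v₂ : ℝ → ℝ}
    (h1 : Cyc Φ g s₁ B₁ Y₁ u₁ v₁) (h2 : Cyc Φ g s₂ B₂ Y₂ u₂ v₂)
    (hn : ∀ y, u₁ y ≤ u₂ y ∧ v₁ y ≤ v₂ y) (hx : ∃ y, u₁ y < u₂ y) : area u₁ v₁ < area u₂ v₂ := by
  obtain ⟨x, hx⟩ := hx
  have hi1 : Integrable fun y => u₁ y + v₁ y := h1.int_u.add h1.int_v
  have hi2 : Integrable fun y => u₂ y + v₂ y := h2.int_u.add h2.int_v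
  have hpos : 0 < ∫ y, ((u₂ y + v₂ y) - (u₁ y + v₁ y)) := by
    refine Continuous.integral_pos_of_hasCompactSupport_nonneg_nonzero
      ((h2.right.cont.add h2.v_cont).sub (h1.right.cont.add h1.v_cont)) ?_ ?_ (x := x) ?_
    · refine HasCompactSupport.intro (isCompact_Icc (a := -(B₁ + B₂)) (b := Y₁ + Y₂))
        fun y hy => ?_
      have hy1 : y ∉ Ioo (-B₁) Y₁ := fun h => hy
        ⟨by linarith [h.1, h2.right.hB], by linarith [h.2, h2.right.hY]⟩
      have hy2 : y ∉ Ioo (-B₂) Y₂ := fun h => hy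
        ⟨by linarith [h.1, h1.right.hB], by linarith [h.2, h1.right.hY]⟩
      rw [h1.right.out y hy1, h1.v_out hy1, h2.right.out y hy2, h2.v_out hy2]
      simp
    · intro y
      have := hn y
      simp only [Pi.zero_apply]
      linarith [this.1, this.2]
    · have := (hn x).2
      intro h3
      have h3' : (u₂ x + v₂ x) - (u₁ x + v₁ x) = 0 := h3
      linarith
  rw [integral_sub hi2 hi1] at hpos
  unfold area
  linarith

/-- the estimate for a pair of nested closed orbits -/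
lemma pair (hI : S_IDN) (hS : Sys Φ g) {s₁ B₁ Y₁ s₂ B₂ Y₂ M : ℝ} {u₁ v₁ u₂ v₂ : ℝ → ℝ}
    (h1 : Cyc Φ g s₁ B₁ Y₁ u₁ v₁) (h2 : Cyc Φ g s₂ B₂ Y₂ u₂ v₂)
    (hn : ∀ y, u₁ y ≤ u₂ y ∧ v₁ y ≤ v₂ y) (hs : |s₁| ≤ M) :
    |s₂ - s₁| * area u₂ v₂ ≤ maj Φ M u₂ v₂ - maj Φ M u₁ v₁ := by
  have hA := h2.area_pos
  have hi1 : Integrable fun y => u₁ y + v₁ y := h1.int_u.add h1.int_v
  have hi2 : Integrable fun y => u₂ y + v₂ y := h2.int_u.add h2.int_v
  have e1 := h1.ident hI hS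
  have e2 := h2.ident hI hS
  have hd1 := h1.int_diff hS
  have hd2 := h2.int_diff hS
  set E : ℝ → ℝ := fun y => ((Φ (u₂ y) y - Φ (-v₂ y) y) - (Φ (u₁ y) y - Φ (-v₁ y) y)) -
    s₁ * ((u₂ y + v₂ y) - (u₁ y + v₁ y)) with hE
  have hEi : Integrable E := (hd2.sub hd1).sub ((hi2.sub hi1).const_mul _)
  have e3 : (s₂ - s₁) * area u₂ v₂ = ∫ y, E y := by
    have a1 : ∫ y, E y = (∫ y, ((Φ (u₂ y) y - Φ (-v₂ y) y) - (Φ (u₁ y) y - Φ (-v₁ y) y))) -
        ∫ y, s₁ * ((u₂ y + v₂ y) - (u₁ y + v₁ y)) :=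
      integral_sub (hd2.sub hd1) ((hi2.sub hi1).const_mul _)
    rw [a1, integral_sub hd2 hd1, integral_const_mul, integral_sub hi2 hi1, ← e1, ← e2]
    unfold area
    ring
  have e4 : |s₂ - s₁| * area u₂ v₂ = |∫ y, E y| := by
    rw [← e3, abs_mul, abs_of_pos hA]
  rw [e4]
  refine (abs_integral_le_integral_abs).trans ?_
  unfold maj
  rw [← integral_sub (h2.int_sl hS M) (h1.int_sl hS M)]
  refine integral_mono hEi.abs ((h2.int_sl hS M).sub (h1.int_sl hS M)) fun y => ?_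
  have b1 := sub_le_sl hS (hn y).1 hs y
  have b2 := sub_le_sl hS (neg_le_neg (hn y).2) hs y
  have b3 : sl Φ M (-v₂ y) (u₂ y) y - sl Φ M (-v₁ y) (u₁ y) y =
      sl Φ M (u₁ y) (u₂ y) y + sl Φ M (-v₂ y) (-v₁ y) y := by
    unfold sl
    have c1 := intervalIntegral.integral_add_adjacent_intervals (den_int hS M (-v₂ y) (-v₁ y) y)
      (den_int hS M (-v₁ y) (u₁ y) y)
    have c2 := intervalIntegral.integral_add_adjacent_intervals (den_int hS M (-v₂ y) (u₁ y) y)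
      (den_int hS M (u₁ y) (u₂ y) y)
    linarith
  have b4 : E y = (Φ (u₂ y) y - Φ (u₁ y) y - s₁ * (u₂ y - u₁ y)) +
      (Φ (-v₁ y) y - Φ (-v₂ y) y - s₁ * (-v₁ y - -v₂ y)) := by
    simp only [hE]
    ring
  change |E y| ≤ sl Φ M (-v₂ y) (u₂ y) y - sl Φ M (-v₁ y) (u₁ y) y
  rw [b3, b4]
  exact (abs_add_le _ _).trans (add_le_add b1 b2)

/-- the hypotheses on the polynomials in the box -/
structure Box (Φ : ℝ → ℝ → ℝ) (n : ℕ) (M R R' : ℝ) : Prop where
  pol : ∀ y, |y| ≤ R' → ∃ p : Polynomial ℝ, p.natDegree ≤ n ∧ ∀ x, Φ x y = p.eval x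
  lip : ∀ x y, |x| ≤ R → |y| ≤ R' → |Φ x y - Φ 0 y| ≤ M * |x|

/-- the bound for the slices -/
lemma sl_le (hP : S_POL) (hS : Sys Φ g) {n : ℕ} {M R R' : ℝ} (hM : 0 ≤ M) (hb : Box Φ n M R R')
    {a b y : ℝ} (ha : 0 ≤ a) (hb0 : 0 ≤ b) (haR : a ≤ R) (hbR : b ≤ R) (hy : |y| ≤ R') :
    sl Φ M (-a) b y ≤ (2 * n + 1) * M * (b + a) := by
  obtain ⟨p, hp, he⟩ := hb.pol y hy
  have hD : ∀ t, Dx Φ t y = p.derivative.eval t := by
    intro t
    have h1 := hasDerivAt_Dx hS t y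
    have h2 : (fun t => Φ t y) = fun t => p.eval t := funext he
    rw [h2] at h1
    exact h1.unique (p.hasDerivAt t)
  have hDc : Continuous fun t => Dx Φ t y :=
    (continuous_Dx hS).comp (continuous_id.prodMk continuous_const)
  have h1 : ∫ t in (0:ℝ)..b, |Dx Φ t y| ≤ 2 * n * M * b := by
    simp only [hD]
    refine hP n p hp b M hb0 hM fun x hx => ?_
    have := hb.lip x y (by rw [abs_of_nonneg hx.1]; linarith [hx.2]) hy
    rw [he, he, abs_of_nonneg hx.1] at this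
    exact this
  have h2 : ∫ t in (0:ℝ)..a, |Dx Φ (-t) y| ≤ 2 * n * M * a := by
    have e : ∀ t, |Dx Φ (-t) y| = |(p.comp (-Polynomial.X)).derivative.eval t| := by
      intro t
      rw [hD, Polynomial.derivative_comp]
      simp
    simp only [e]
    refine hP n _ ?_ a M ha hM fun x hx => ?_
    · refine (Polynomial.natDegree_comp_le).trans ?_
      simp [hp]
    · have := hb.lip (-x) y (by rw [abs_neg, abs_of_nonneg hx.1]; linarith [hx.2]) hy
      rw [he, he, abs_neg, abs_of_nonneg hx.1] at this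
      simpa using this
  have h3 : ∫ t in (-a)..(0:ℝ), |Dx Φ t y| = ∫ t in (0:ℝ)..a, |Dx Φ (-t) y| := by
    rw [intervalIntegral.integral_comp_neg (fun t => |Dx Φ t y|), neg_zero]
  have hi : ∀ c d, IntervalIntegrable (fun t => |Dx Φ t y|) volume c d := fun c d =>
    hDc.abs.intervalIntegrable _ _
  unfold sl den
  rw [intervalIntegral.integral_add (hi _ _) (by simp),
    ← intervalIntegral.integral_add_adjacent_intervals (hi (-a) 0) (hi 0 b), h3]
  simp only [intervalIntegral.integral_const, smul_eq_mul]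
  nlinarith

end Pool.Agent.J4H16.LI
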