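import Pool.Agent.J4H16.LI.G12

/-! Project LI, seventh part: width and height of an arc, for `x' = φ(y) - ψ - s x`, where `ψ` is
any function along the arc. -/

set_option autoImplicit false

open Set MeasureTheory

namespace Pool.Agent.J4H16.LI

/-- an arc of `x' = φ(y) - F - s x`, `y' = - g(x)`, where `F` is a function of `y` along the arc -/
structure ArcF (φ F g : ℝ → ℝ) (s B Y : ℝ) (u : ℝ → ℝ) : Prop where
  hB : 0 < B
  hY : 0 < Y
  cont : Continuous u
  out : ∀ y, y ∉ Ioo (-B) Y → u y = 0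
  pos : ∀ y ∈ Ioo (-B) Y, 0 < u y
  der : ∀ y ∈ Ioo (-B) Y, HasDerivAt u (-(φ y - F y - s * u y) / g (u y)) y

lemma Arc.toF {Φ : ℝ → ℝ → ℝ} {g : ℝ → ℝ} {s B Y : ℝ} {u : ℝ → ℝ} (h : Arc Φ g s B Y u) :
    ArcF (fun y => Φ 0 y) (fun y => Φ 0 y - Φ (u y) y) g s B Y u where
  hB := h.hB
  hY := h.hY
  cont := h.cont
  out := h.out
  pos := h.pos
  der := fun y hy => by
    refine (h.der y hy).congr_deriv ?_
    congr 1
    ring

lemma arc_sqF {φ g F : ℝ → ℝ} {s B Y : ℝ} {u : ℝ → ℝ}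
    (h : ArcF φ F g s B Y u) {y : ℝ} (hy : y ∈ Ioo (-B) Y) :
    HasDerivAt (fun y => u y ^ 2 / 2) ((-φ y + (F y + s * u y)) * (u y / g (u y))) y := by
  have h1 : HasDerivAt u (-(φ y - F y - s * u y) / g (u y)) y := h.der y hy
  have h2 := (h1.pow 2).div_const 2
  have h3 : (-φ y + (F y + s * u y)) * (u y / g (u y)) =
      ((2 : ℕ) : ℝ) * u y ^ (2 - 1) * (-(φ y - F y - s * u y) / g (u y)) / 2 := by
    simp only [Nat.cast_ofNat, Nat.add_one_sub_one, pow_one]
    ring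
  rw [h3]
  exact h2

/-- the width of an arc and the area -/
theorem g1F {φ g F : ℝ → ℝ} {s B Y K κ : ℝ} {u : ℝ → ℝ}
    (h : ArcF φ F g s B Y u) (hK : 0 ≤ K) (hκ : 1 ≤ κ)
    (hF : ∀ y, |F y + s * u y| ≤ K * u y) (hφl : ∀ y, |y| ≤ κ * |φ y|)
    (hφu : ∀ y ∈ Ioo (-B) Y, |φ y| ≤ κ * |y|)
    (hg : ∀ y ∈ Ioo (-B) Y, 0 < g (u y) ∧ u y ≤ κ * g (u y)) (y : ℝ) :
    u y ^ 2 ≤ 8 * κ ^ 3 * (1 + K) * ∫ t, u t := by
  have hd := fun y (hy : y ∈ Ioo (-B) Y) => arc_sqF h hy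
  obtain ⟨hB, hY, hc, hout, hpos, hder⟩ := h
  have hκ0 : 0 < κ := by linarith
  have hnn : ∀ y, 0 ≤ u y := by
    intro y
    by_cases hy : y ∈ Ioo (-B) Y
    · exact (hpos y hy).le
    · rw [hout y hy]
  obtain ⟨y0, hy0m, hmax⟩ := (isCompact_Icc (a := -B) (b := Y)).exists_isMaxOn
    ⟨0, by constructor <;> linarith⟩ hc.continuousOn
  set ρ := u y0 with hρ
  have hle : ∀ y, u y ≤ ρ := by
    intro y
    by_cases hy : y ∈ Icc (-B) Y
    · exact hmax hy
    · rw [hout y (fun h => hy ⟨h.1.le, h.2.le⟩)]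
      exact hnn y0
  have hρ0 : 0 < ρ := (hpos 0 ⟨by linarith, by linarith⟩).trans_le (hle 0)
  have hy0 : y0 ∈ Ioo (-B) Y := by
    by_contra hcon
    have := hout y0 hcon
    rw [← hρ] at this
    linarith
  have hd0 : HasDerivAt u (-(φ y0 - F y0 - s * u y0) / g (u y0)) y0 := hder y0 hy0
  have hloc : IsLocalMax u y0 := Filter.Eventually.of_forall hle
  have h0 := hloc.hasDerivAt_eq_zero hd0
  have hg0 := (hg y0 hy0).1
  rw [← hρ] at h0 hg0
  have hy0e : φ y0 = F y0 + s * ρ := by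
    rcases div_eq_zero_iff.1 h0 with h | h
    · linarith
    · linarith
  have hφ0b : |φ y0| ≤ K * ρ := by
    rw [hy0e]
    exact hF y0
  have hy0b : |y0| ≤ κ * (K * ρ) :=
    (hφl y0).trans (mul_le_mul_of_nonneg_left hφ0b hκ0.le)
  set τ := ρ / (8 * κ ^ 3 * (1 + K)) with hτ
  have hK1 : 0 < 1 + K := by linarith
  have hτ0 : 0 < τ := by positivity
  have hτρ : 8 * κ ^ 3 * (1 + K) * τ = ρ := by
    rw [hτ]
    field_simp
  have hκ3 : 1 ≤ κ ^ 3 := one_le_pow₀ hκ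
  set Cc := κ ^ 3 * (τ + 2 * K * ρ) with hCc
  have hCτ : Cc * τ ≤ ρ ^ 2 * (17 / 64) := by
    have e0 : 8 * (1 + K) * (κ ^ 3 * τ) = ρ := by
      rw [← hτρ]
      ring
    have e1 : τ ≤ ρ / 8 := by
      have h1 : 1 * τ ≤ κ ^ 3 * τ := mul_le_mul_of_nonneg_right hκ3 hτ0.le
      have h2 : 0 ≤ K * (κ ^ 3 * τ) := by positivity
      nlinarith
    have e2 : Cc * τ = (τ + 2 * K * ρ) * (κ ^ 3 * τ) := by
      rw [hCc]
      ring
    have h2 : 0 ≤ κ ^ 3 * τ := by positivity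
    have e3 : (τ + 2 * K * ρ) * (κ ^ 3 * τ) ≤ (ρ / 8 + 2 * K * ρ) * (κ ^ 3 * τ) :=
      mul_le_mul_of_nonneg_right (by linarith) h2
    have e4 : (ρ / 8 + 2 * K * ρ) * (κ ^ 3 * τ) ≤ (2 * (1 + K) * ρ) * (κ ^ 3 * τ) :=
      mul_le_mul_of_nonneg_right (by nlinarith [mul_nonneg hK hρ0.le]) h2
    have e5 : (2 * (1 + K) * ρ) * (κ ^ 3 * τ) = ρ ^ 2 / 4 := by
      have : (2 * (1 + K) * ρ) * (κ ^ 3 * τ) = ρ * (8 * (1 + K) * (κ ^ 3 * τ)) / 4 := by ring
      rw [this, e0]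
      ring
    rw [e2]
    nlinarith [sq_nonneg ρ]
  have hstep : ∀ a b : ℝ, a < b → -B ≤ a → b ≤ Y → y0 - τ ≤ a → b ≤ y0 + τ →
      |u b ^ 2 / 2 - u a ^ 2 / 2| ≤ Cc * (b - a) := by
    intro a b hab ha hb ha' hb'
    obtain ⟨c, hc1, hc2⟩ := exists_hasDerivAt_eq_slope (fun y => u y ^ 2 / 2)
      (fun y => (-φ y + (F y + s * u y)) * (u y / g (u y))) hab
      (by fun_prop : Continuous fun y => u y ^ 2 / 2).continuousOn
      (fun x hx => hd x ⟨by linarith [hx.1], by linarith [hx.2]⟩)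
    have hcm : c ∈ Ioo (-B) Y := ⟨by linarith [hc1.1], by linarith [hc1.2]⟩
    have hba : 0 < b - a := by linarith
    have e1 : u b ^ 2 / 2 - u a ^ 2 / 2 =
        ((-φ c + (F c + s * u c)) * (u c / g (u c))) * (b - a) := by
      rw [eq_div_iff hba.ne'] at hc2
      exact hc2.symm
    rw [e1, abs_mul, abs_of_pos hba]
    apply mul_le_mul_of_nonneg_right _ hba.le
    obtain ⟨hgc0, hgc⟩ := hg c hcm
    have hq0 : 0 ≤ u c / g (u c) := div_nonneg (hnn c) hgc0.le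
    have hq1 : u c / g (u c) ≤ κ := (div_le_iff₀ hgc0).2 hgc
    rw [abs_mul, abs_of_nonneg hq0]
    have e2 : |(-φ c + (F c + s * u c))| ≤ κ * (|c - y0| + |y0|) + |F c + s * u c| := by
      refine (abs_add_le _ _).trans (add_le_add ?_ le_rfl)
      rw [abs_neg]
      refine (hφu c hcm).trans (mul_le_mul_of_nonneg_left ?_ hκ0.le)
      have e3 : c = (c - y0) + y0 := by ring
      calc |c| = |(c - y0) + y0| := by rw [← e3]
        _ ≤ |c - y0| + |y0| := abs_add_le _ _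
    have e4 : |c - y0| ≤ τ := by
      rw [abs_le]
      constructor <;> linarith [hc1.1, hc1.2]
    have e5 : |F c + s * u c| ≤ K * ρ :=
      (hF c).trans (mul_le_mul_of_nonneg_left (hle c) hK)
    have e6 : |(-φ c + (F c + s * u c))| ≤ κ ^ 2 * (τ + 2 * K * ρ) := by
      have hKρ : 0 ≤ K * ρ := mul_nonneg hK hρ0.le
      have f1 : κ * (|c - y0| + |y0|) ≤ κ * (τ + κ * (K * ρ)) :=
        mul_le_mul_of_nonneg_left (add_le_add e4 hy0b) hκ0.le
      have f2 : κ ≤ κ ^ 2 := by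
        have := mul_le_mul_of_nonneg_left hκ hκ0.le
        rw [mul_one] at this
        rw [sq]
        exact this
      have f3 : 1 ≤ κ ^ 2 := one_le_pow₀ hκ
      have f4 : κ * τ ≤ κ ^ 2 * τ := mul_le_mul_of_nonneg_right f2 hτ0.le
      have f5 : 1 * (K * ρ) ≤ κ ^ 2 * (K * ρ) := mul_le_mul_of_nonneg_right f3 hKρ
      calc |(-φ c + (F c + s * u c))| ≤ κ * (τ + κ * (K * ρ)) + K * ρ :=
            e2.trans (add_le_add f1 e5)
        _ ≤ κ ^ 2 * (τ + 2 * K * ρ) := by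
            have g1 : κ * (τ + κ * (K * ρ)) = κ * τ + κ ^ 2 * (K * ρ) := by ring
            have g2 : κ ^ 2 * (τ + 2 * K * ρ) = κ ^ 2 * τ + 2 * (κ ^ 2 * (K * ρ)) := by ring
            rw [g1, g2]
            linarith
    calc |(-φ c + (F c + s * u c))| * (u c / g (u c))
        ≤ (κ ^ 2 * (τ + 2 * K * ρ)) * κ := mul_le_mul e6 hq1 hq0 (by positivity)
      _ = Cc := by
          rw [hCc]
          ring
  have hlow : ∀ y, |u y ^ 2 / 2 - u y0 ^ 2 / 2| ≤ Cc * τ → ρ / 2 ≤ u y := by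
    intro y hy
    have h1 := (abs_le.1 hy).1
    rw [← hρ] at h1
    by_contra hcon
    push Not at hcon
    have h2 : u y ^ 2 ≤ (ρ / 2) ^ 2 := pow_le_pow_left₀ (hnn y) hcon.le 2
    have h3 : 0 < ρ ^ 2 := by positivity
    nlinarith
  have hCc0 : 0 ≤ Cc := by positivity
  -- the right side
  have hYr : y0 + τ < Y := by
    by_contra hcon
    push Not at hcon
    have h1 := hstep y0 Y hy0.2 hy0.1.le le_rfl (by linarith) hcon
    have h2 : ρ / 2 ≤ u Y := hlow Y (h1.trans (mul_le_mul_of_nonneg_left (by linarith) hCc0))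
    rw [hout Y (fun h => lt_irrefl _ h.2)] at h2
    linarith
  have hBl : -B < y0 - τ := by
    by_contra hcon
    push Not at hcon
    have h1 := hstep (-B) y0 hy0.1 le_rfl hy0.2.le hcon (by linarith)
    rw [abs_sub_comm] at h1
    have h2 : ρ / 2 ≤ u (-B) := hlow (-B) (h1.trans (mul_le_mul_of_nonneg_left (by linarith) hCc0))
    rw [hout (-B) (fun h => lt_irrefl _ h.1)] at h2
    linarith
  have hall : ∀ y ∈ Icc (y0 - τ) (y0 + τ), ρ / 2 ≤ u y := by
    intro y hy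
    rcases lt_trichotomy y y0 with h | h | h
    · have h1 := hstep y y0 h (by linarith [hy.1]) hy0.2.le hy.1 (by linarith)
      rw [abs_sub_comm] at h1
      exact hlow y (h1.trans (mul_le_mul_of_nonneg_left (by linarith [hy.1]) hCc0))
    · rw [h, ← hρ]
      linarith
    · have h1 := hstep y0 y h hy0.1.le (by linarith [hy.2]) (by linarith) hy.2
      exact hlow y (h1.trans (mul_le_mul_of_nonneg_left (by linarith [hy.2]) hCc0))
  have hcs : HasCompactSupport u := HasCompactSupport.intro (isCompact_Icc (a := -B) (b := Y))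
    (fun x hx => hout x (fun h => hx ⟨h.1.le, h.2.le⟩))
  have hint : Integrable u := hc.integrable_of_hasCompactSupport hcs
  have hI1 : ∫ t in Ioc (y0 - τ) (y0 + τ), u t ≤ ∫ t, u t :=
    setIntegral_le_integral hint (Filter.Eventually.of_forall hnn)
  rw [← intervalIntegral.integral_of_le (by linarith)] at hI1
  have hI2 : ∫ _ in (y0 - τ)..(y0 + τ), ρ / 2 ≤ ∫ t in (y0 - τ)..(y0 + τ), u t :=
    intervalIntegral.integral_mono_on (by linarith) intervalIntegrable_const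
      (hc.intervalIntegrable _ _) hall
  rw [intervalIntegral.integral_const, smul_eq_mul] at hI2
  have hI3 : τ * ρ ≤ ∫ t, u t := by
    have e : (y0 + τ - (y0 - τ)) * (ρ / 2) = τ * ρ := by ring
    rw [e] at hI2
    exact hI2.trans hI1
  calc u y ^ 2 ≤ ρ ^ 2 := pow_le_pow_left₀ (hnn y) (hle y) 2
    _ = 8 * κ ^ 3 * (1 + K) * (τ * ρ) := by
        rw [← mul_assoc, hτρ]
        ring
    _ ≤ 8 * κ ^ 3 * (1 + K) * ∫ t, u t := mul_le_mul_of_nonneg_left hI3 (by positivity)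

/-- the height of an arc and the width -/
theorem g2F {φ g F : ℝ → ℝ} {s B Y K κ R : ℝ} {u : ℝ → ℝ}
    (h : ArcF φ F g s B Y u) (hK : 0 ≤ K) (hκ : 1 ≤ κ)
    (hF : ∀ y, |F y + s * u y| ≤ K * u y) (hR : ∀ y, u y ≤ R)
    (hφl : ∀ y, 0 < y → y ≤ κ * φ y)
    (hg : ∀ y ∈ Ioo (-B) Y, 0 < g (u y) ∧ g (u y) ≤ κ * u y) :
    Y ≤ 2 * κ * (1 + K) * R := by
  have hd := fun y (hy : y ∈ Ioo (-B) Y) => arc_sqF h hy
  obtain ⟨hB, hY, hc, hout, hpos, hder⟩ := h
  have hκ0 : 0 < κ := by linarith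
  have hmid : Y / 2 ∈ Ioo (-B) Y := ⟨by linarith, by linarith⟩
  have hR0 : 0 < R := (hpos _ hmid).trans_le (hR _)
  have huY : u Y = 0 := hout Y (fun h => lt_irrefl _ h.2)
  by_contra hcon
  push Not at hcon
  have hYR : R < Y / (2 * κ) - K * R := by
    have h1 : (1 + K) * R < Y / (2 * κ) := by
      rw [lt_div_iff₀ (by positivity)]
      linarith
    linarith
  have hanti : AntitoneOn (fun y => u y ^ 2 / 2 + (R / κ) * y) (Icc (Y / 2) Y) := by
    have hd2 : ∀ y ∈ Ioo (Y / 2) Y, HasDerivAt (fun y => u y ^ 2 / 2 + (R / κ) * y)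
        ((-φ y + (F y + s * u y)) * (u y / g (u y)) + (R / κ) * 1) y := fun y hy =>
      (hd y ⟨by linarith [hy.1], hy.2⟩).add ((hasDerivAt_id y).const_mul (R / κ))
    apply antitoneOn_of_deriv_nonpos (convex_Icc _ _)
    · exact (by fun_prop : Continuous fun y => u y ^ 2 / 2 + (R / κ) * y).continuousOn
    · intro y hy
      rw [interior_Icc] at hy
      exact (hd2 y hy).differentiableAt.differentiableWithinAt
    · intro y hy
      rw [interior_Icc] at hy
      rw [(hd2 y hy).deriv]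
      have hym : y ∈ Ioo (-B) Y := ⟨by linarith [hy.1], hy.2⟩
      obtain ⟨hg0, hg1⟩ := hg y hym
      have h1 := (abs_le.1 (hF y)).2
      have h2 := mul_le_mul_of_nonneg_left (hR y) hK
      have h3 : y / κ ≤ φ y := by
        rw [div_le_iff₀ hκ0]
        have := hφl y (by linarith [hy.1])
        linarith
      have h4 : Y / (2 * κ) < y / κ := by
        rw [div_lt_div_iff₀ (by positivity) hκ0]
        nlinarith [hy.1]
      have h5 : -φ y + (F y + s * u y) ≤ -R := by linarith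
      have h6 : 1 / κ ≤ u y / g (u y) := by
        rw [div_le_div_iff₀ hκ0 hg0]
        linarith
      have h7 : (-φ y + (F y + s * u y)) * (u y / g (u y)) ≤ -R * (u y / g (u y)) :=
        mul_le_mul_of_nonneg_right h5 (le_trans (by positivity) h6)
      have h8 : R * (1 / κ) ≤ R * (u y / g (u y)) := mul_le_mul_of_nonneg_left h6 hR0.le
      have h9 : R / κ = R * (1 / κ) := by ring
      rw [h9]
      linarith
  have h1 := hanti (left_mem_Icc.2 (by linarith)) (right_mem_Icc.2 (by linarith))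
    (by linarith : Y / 2 ≤ Y)
  simp only at h1
  rw [huY] at h1
  have h2 : u (Y / 2) ^ 2 ≤ R ^ 2 := pow_le_pow_left₀ (hpos _ hmid).le (hR _) 2
  have h3 : R / κ * (Y / 2) ≤ R ^ 2 / 2 := by nlinarith
  have h4 : R / κ * (Y / 2) = R * (Y / (2 * κ)) := by
    field_simp
  rw [h4] at h3
  have h5 : R < Y / (2 * κ) := by
    have := mul_nonneg hK hR0.le
    linarith
  have h6 : R * R < R * (Y / (2 * κ)) := mul_lt_mul_of_pos_left h5 hR0
  nlinarith

end Pool.Agent.J4H16.LI
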