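import Mathlib

/-! Project LI, third part: the lower bound (Chebyshev polynomials). -/

open Set

namespace Pool.Agent.J4H16.LI

/-- (LB) -/
def S_LB : Prop := ∀ (k : ℕ) (M R : ℝ), 1 ≤ k → 0 < M → 0 < R → ∃ q : Polynomial ℝ,
  q.natDegree ≤ k ∧ (∀ ρ ∈ Icc 0 (2 * R ^ 2), |q.eval ρ| ≤ M) ∧
  ∀ s : ℝ, |s| < M → ∃ S : Finset ℝ, (k : ℝ) / 4 - 2 ≤ S.card ∧
    ∀ ρ ∈ S, R ^ 2 / 4 ≤ ρ ∧ ρ ≤ R ^ 2 ∧ q.eval ρ = -s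

end Pool.Agent.J4H16.LI
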