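import Mathlib
import Pool.Agent.J4H16.LI.Stm3

/-! Project LI, third part: (LB), by Chebyshev polynomials. -/

open Set Polynomial

namespace Pool.Agent.J4H16.LI

/-- the shift of the `m`th angle -/
noncomputable def bm (a : ℝ) (m : ℕ) : ℝ := if Even m then a else Real.pi - a

lemma bm_mem {a : ℝ} (ha : 0 < a) (ha' : a < Real.pi) (m : ℕ) : 0 < bm a m ∧ bm a m < Real.pi := by
  unfold bm
  split_ifs
  · exact ⟨ha, ha'⟩
  · exact ⟨by linarith, by linarith⟩

lemma cos_bm (a : ℝ) (m : ℕ) : Real.cos (Real.pi * m + bm a m) = Real.cos a := by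
  unfold bm
  split_ifs with h
  · obtain ⟨j, rfl⟩ := h
    have : Real.pi * ((j + j : ℕ) : ℝ) + a = a + j * (2 * Real.pi) := by
      push_cast
      ring
    rw [this, Real.cos_add_nat_mul_two_pi]
  · obtain ⟨j, rfl⟩ := Nat.not_even_iff_odd.1 h
    have : Real.pi * ((2 * j + 1 : ℕ) : ℝ) + (Real.pi - a) = - a + (j + 1 : ℕ) * (2 * Real.pi) := by
      push_cast
      ring
    rw [this, Real.cos_add_nat_mul_two_pi, Real.cos_neg]

lemma cos_three : (-3 / 4 : ℝ) < Real.cos (3 * Real.pi / 4) := by
  have h1 : 3 * Real.pi / 4 = Real.pi - Real.pi / 4 := by ring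
  rw [h1, Real.cos_pi_sub, Real.cos_pi_div_four]
  have h2 : √2 < 3 / 2 := by
    rw [Real.sqrt_lt' (by norm_num)]
    norm_num
  linarith

theorem t_LB : S_LB := by
  intro k M R hk hM hR
  have hR2 : 0 < R ^ 2 := by positivity
  have hpi := Real.pi_pos
  have hk0 : (0 : ℝ) < k := by exact_mod_cast (by omega : 0 < k)
  refine ⟨C M * (Chebyshev.T ℝ (k : ℤ)).comp (C (1 / R ^ 2) * X - 1), ?_, ?_, ?_⟩
  · calc (C M * (Chebyshev.T ℝ (k : ℤ)).comp (C (1 / R ^ 2) * X - 1)).natDegree
        ≤ ((Chebyshev.T ℝ (k : ℤ)).comp (C (1 / R ^ 2) * X - 1)).natDegree :=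
          natDegree_C_mul_le _ _
      _ ≤ (Chebyshev.T ℝ (k : ℤ)).natDegree * (C (1 / R ^ 2) * X - 1 : ℝ[X]).natDegree :=
          natDegree_comp_le
      _ ≤ k * 1 := by
          refine Nat.mul_le_mul ?_ ?_
          · rw [Chebyshev.natDegree_T]
            simp
          · refine (natDegree_sub_le _ _).trans ?_
            refine max_le ((natDegree_C_mul_le _ _).trans natDegree_X_le) ?_
            simp
      _ = k := mul_one k
  · intro ρ hρ
    rw [eval_mul, eval_C, eval_comp]
    have h1 : (C (1 / R ^ 2) * X - 1 : ℝ[X]).eval ρ = ρ / R ^ 2 - 1 := by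
      simp
      ring
    rw [h1]
    have h2 : -1 ≤ ρ / R ^ 2 - 1 := by
      have := div_nonneg hρ.1 hR2.le
      linarith
    have h3 : ρ / R ^ 2 - 1 ≤ 1 := by
      have : ρ / R ^ 2 ≤ 2 := (div_le_iff₀ hR2).2 hρ.2
      linarith
    rw [← Real.cos_arccos h2 h3, Chebyshev.T_real_cos, abs_mul, abs_of_pos hM]
    exact mul_le_of_le_one_right hM.le (Real.abs_cos_le_one _)
  · intro s hs
    have hs1 : -1 < -s / M := by
      rw [lt_div_iff₀ hM]
      have := (abs_lt.1 hs).2
      linarith
    have hs2 : -s / M < 1 := by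
      rw [div_lt_iff₀ hM]
      have := (abs_lt.1 hs).1
      linarith
    set a := Real.arccos (-s / M) with ha
    have ha0 : 0 < a := Real.arccos_pos.2 hs2
    have ha1 : a < Real.pi := by
      rw [ha, Real.arccos_lt_pi]
      exact hs1
    have hca : Real.cos a = -s / M := Real.cos_arccos hs1.le hs2.le
    set θ : ℕ → ℝ := fun m => (Real.pi * m + bm a m) / k with hθ
    have hθ1 : ∀ m, Real.pi * m / k < θ m := by
      intro m
      exact div_lt_div_of_pos_right (by have := (bm_mem ha0 ha1 m).1; linarith) hk0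
    have hθ2 : ∀ m, θ m < Real.pi * (m + 1 : ℕ) / k := by
      intro m
      refine div_lt_div_of_pos_right ?_ hk0
      have := (bm_mem ha0 ha1 m).2
      push_cast
      linarith
    have hmono : StrictMono θ := by
      refine strictMono_nat_of_lt_succ fun m => (hθ2 m).trans ?_
      exact_mod_cast hθ1 (m + 1)
    set A := (k + 1) / 2 with hA
    set B := 3 * k / 4 with hB
    have hlow : ∀ m, A ≤ m → Real.pi / 2 ≤ θ m := by
      intro m hm
      refine le_trans ?_ (hθ1 m).le
      rw [le_div_iff₀ hk0]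
      have h1 : k ≤ 2 * m := by omega
      have h2 : (k : ℝ) ≤ 2 * m := by exact_mod_cast h1
      nlinarith
    have hupp : ∀ m, m < B → θ m ≤ 3 * Real.pi / 4 := by
      intro m hm
      refine (hθ2 m).le.trans ?_
      rw [div_le_iff₀ hk0]
      have h1 : 4 * (m + 1) ≤ 3 * k := by omega
      have h2 : 4 * ((m + 1 : ℕ) : ℝ) ≤ 3 * k := by exact_mod_cast h1
      nlinarith
    set f : ℕ → ℝ := fun m => R ^ 2 * (1 + Real.cos (θ m)) with hf
    have hinj : Set.InjOn f (Finset.Ico A B : Set ℕ) := by
      intro m hm m' hm' h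
      have hm1 := Finset.mem_Ico.1 hm
      have hm2 := Finset.mem_Ico.1 hm'
      have h1 : Real.cos (θ m) = Real.cos (θ m') := by
        have : 1 + Real.cos (θ m) = 1 + Real.cos (θ m') := mul_left_cancel₀ hR2.ne' h
        linarith
      have h2 : θ m = θ m' := by
        refine Real.injOn_cos ⟨?_, ?_⟩ ⟨?_, ?_⟩ h1
        · have := hlow m hm1.1
          linarith
        · have := hupp m hm1.2
          linarith
        · have := hlow m' hm2.1
          linarith
        · have := hupp m' hm2.2
          linarith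
      exact hmono.injective h2
    refine ⟨(Finset.Ico A B).image f, ?_, ?_⟩
    · rw [Finset.card_image_of_injOn hinj, Nat.card_Ico]
      have h1 : k ≤ 4 * (B - A) + 8 := by omega
      have h2 : (k : ℝ) ≤ 4 * ((B - A : ℕ) : ℝ) + 8 := by exact_mod_cast h1
      linarith
    · intro ρ hρ
      obtain ⟨m, hm, rfl⟩ := Finset.mem_image.1 hρ
      have hm1 := Finset.mem_Ico.1 hm
      have h1 := hlow m hm1.1
      have h2 := hupp m hm1.2
      have h3 : Real.cos (θ m) ≤ 0 := by
        refine Real.cos_nonpos_of_pi_div_two_le_of_le h1 ?_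
        linarith
      have h4 : Real.cos (3 * Real.pi / 4) ≤ Real.cos (θ m) := by
        refine Real.cos_le_cos_of_nonneg_of_le_pi ?_ ?_ h2
        · linarith
        · linarith
      have h5 := cos_three
      refine ⟨?_, ?_, ?_⟩
      · simp only [hf]
        nlinarith
      · simp only [hf]
        nlinarith
      · have h6 : (C (1 / R ^ 2) * X - 1 : ℝ[X]).eval (f m) = Real.cos (θ m) := by
          simp [hf]
          field_simp
          ring
        rw [eval_mul, eval_C, eval_comp, h6, Chebyshev.T_real_cos]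
        have h7 : ((k : ℤ) : ℝ) * θ m = Real.pi * m + bm a m := by
          simp only [hθ]
          push_cast
          field_simp
        rw [h7, cos_bm, hca]
        field_simp

end Pool.Agent.J4H16.LI
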