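import Pool.Agent.J4H16.LI.Stm
import Pool.Agent.J4H16.LI.Stm3

/-! Project LI, third part: the systems `x' = y - x q(x^2 + y^2) - s x`, `y' = - x`. -/

open Set MeasureTheory
open scoped ENNReal

namespace Pool.Agent.J4H16.LI

/-- the function `y - x q(x^2 + y^2)` -/
def Φq (q : Polynomial ℝ) (x y : ℝ) : ℝ := y - x * q.eval (x ^ 2 + y ^ 2)

/-- the circle about the origin with squared radius `ρ` -/
def circ (ρ : ℝ) : Set (ℝ × ℝ) := {z | z.1 ^ 2 + z.2 ^ 2 = ρ}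

lemma circ_orbit {q : Polynomial ℝ} {ρ s : ℝ} (hρ : 0 < ρ) (hq : q.eval ρ = -s) :
    ClosedOrbit (fld (Φq q) (fun x => x) s) (circ ρ) := by
  have hs : 0 < √ρ := Real.sqrt_pos.2 hρ
  have hss : √ρ ^ 2 = ρ := Real.sq_sqrt hρ.le
  have hsum : ∀ t : ℝ, (√ρ * Real.sin t) ^ 2 + (√ρ * Real.cos t) ^ 2 = ρ := by
    intro t
    have h1 := Real.sin_sq_add_cos_sq t
    calc (√ρ * Real.sin t) ^ 2 + (√ρ * Real.cos t) ^ 2
        = √ρ ^ 2 * (Real.sin t ^ 2 + Real.cos t ^ 2) := by ring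
      _ = ρ := by rw [h1, hss, mul_one]
  refine ⟨fun t => (√ρ * Real.sin t, √ρ * Real.cos t), 2 * Real.pi, by positivity, ?_, ?_, ?_, ?_⟩
  · intro t
    have hval : fld (Φq q) (fun x => x) s (√ρ * Real.sin t, √ρ * Real.cos t) =
        (√ρ * Real.cos t, √ρ * (-Real.sin t)) := by
      simp only [fld, Φq, hsum t, hq]
      refine Prod.ext ?_ ?_
      · simp only
        ring
      · simp only
        ring
    simp only
    rw [hval]
    exact ((Real.hasDerivAt_sin t).const_mul _).prodMk ((Real.hasDerivAt_cos t).const_mul _)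
  · intro t
    simp only [Real.sin_add_two_pi, Real.cos_add_two_pi]
  · refine ⟨0, Real.pi, fun h => ?_⟩
    have h2 := congrArg Prod.snd h
    simp only [Real.cos_zero, Real.cos_pi] at h2
    linarith
  · ext z
    constructor
    · intro hz
      have hz' : z.1 ^ 2 + z.2 ^ 2 = ρ := hz
      have h1 : (z.2 / √ρ) ^ 2 + (z.1 / √ρ) ^ 2 = 1 := by
        rw [div_pow, div_pow, hss, ← add_div, add_comm, hz', div_self hρ.ne']
      obtain ⟨t, ht⟩ : ∃ t : ℝ, Real.cos t = z.2 / √ρ ∧ Real.sin t = z.1 / √ρ := by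
        have hnorm : ‖(⟨z.2 / √ρ, z.1 / √ρ⟩ : ℂ)‖ = 1 := by
          rw [← Real.sqrt_one, ← h1, Complex.norm_def, Complex.normSq_mk]
          congr 1
          ring
        refine ⟨Complex.arg ⟨z.2 / √ρ, z.1 / √ρ⟩, ?_, ?_⟩
        · have hne : (⟨z.2 / √ρ, z.1 / √ρ⟩ : ℂ) ≠ 0 := by
            intro h0
            rw [h0, norm_zero] at hnorm
            exact zero_ne_one hnorm
          rw [Complex.cos_arg hne, hnorm, div_one]
        · rw [Complex.sin_arg, hnorm, div_one]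
      refine ⟨t, ?_⟩
      refine Prod.ext ?_ ?_
      · simp only [ht.2]
        field_simp
      · simp only [ht.1]
        field_simp
    · rintro ⟨t, rfl⟩
      exact hsum t

lemma circ_inj {ρ ρ' : ℝ} (hρ : 0 < ρ) (h : circ ρ = circ ρ') : ρ = ρ' := by
  have h1 : ((0 : ℝ), √ρ) ∈ circ ρ := by
    simp only [circ, mem_setOf_eq]
    rw [Real.sq_sqrt hρ.le]
    ring
  rw [h] at h1
  simp only [circ, mem_setOf_eq] at h1
  rw [Real.sq_sqrt hρ.le] at h1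
  linarith

theorem low (hLB : S_LB) (k : ℕ) (hk : 1 ≤ k) {M R : ℝ} (hM : 0 < M) (hR : 0 < R) :
    ∃ q : Polynomial ℝ, q.natDegree ≤ k ∧
      (∀ x y : ℝ, |x| ≤ R → |y| ≤ R → |Φq q x y - Φq q 0 y| ≤ M * |x|) ∧
      ∀ s : ℝ, |s| < M → ENNReal.ofReal ((k : ℝ) / 4 - 2) ≤
        (({C : Set (ℝ × ℝ) | ClosedOrbit (fld (Φq q) (fun x => x) s) C ∧
          (∀ z ∈ C, |z.1| ≤ R ∧ |z.2| ≤ R) ∧
          ∀ z ∈ C, ¬ (|z.1| < R / 4 ∧ |z.2| < R / 4)}.encard : ℕ∞) : ℝ≥0∞) := by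
  obtain ⟨q, hq1, hq2, hq3⟩ := hLB k M R hk hM hR
  refine ⟨q, hq1, ?_, ?_⟩
  · intro x y hx hy
    have h1 : Φq q x y - Φq q 0 y = - (x * q.eval (x ^ 2 + y ^ 2)) := by
      simp only [Φq]
      ring
    rw [h1, abs_neg, abs_mul, mul_comm M]
    refine mul_le_mul_of_nonneg_left (hq2 _ ⟨by positivity, ?_⟩) (abs_nonneg x)
    have h2 : x ^ 2 ≤ R ^ 2 := by
      rw [← sq_abs x]
      exact pow_le_pow_left₀ (abs_nonneg x) hx 2
    have h3 : y ^ 2 ≤ R ^ 2 := by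
      rw [← sq_abs y]
      exact pow_le_pow_left₀ (abs_nonneg y) hy 2
    linarith
  · intro s hs
    obtain ⟨S, hS1, hS2⟩ := hq3 s hs
    have hpos : ∀ ρ ∈ S, 0 < ρ := fun ρ hρ => lt_of_lt_of_le (by positivity) (hS2 ρ hρ).1
    have hinj : Set.InjOn circ (S : Set ℝ) := fun a ha b _ hab => circ_inj (hpos a ha) hab
    have hsub : circ '' (S : Set ℝ) ⊆ {C : Set (ℝ × ℝ) | ClosedOrbit (fld (Φq q) (fun x => x) s) C ∧
          (∀ z ∈ C, |z.1| ≤ R ∧ |z.2| ≤ R) ∧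
          ∀ z ∈ C, ¬ (|z.1| < R / 4 ∧ |z.2| < R / 4)} := by
      rintro C ⟨ρ, hρ, rfl⟩
      have hρ' : ρ ∈ S := hρ
      obtain ⟨h1, h2, h3⟩ := hS2 ρ hρ'
      refine ⟨circ_orbit (hpos ρ hρ') h3, ?_, ?_⟩
      · intro z hz
        have hz' : z.1 ^ 2 + z.2 ^ 2 = ρ := hz
        constructor
        · refine abs_le_of_sq_le_sq ?_ hR.le
          nlinarith [sq_nonneg z.2]
        · refine abs_le_of_sq_le_sq ?_ hR.le
          nlinarith [sq_nonneg z.1]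
      · rintro z hz ⟨ha, hb⟩
        have hz' : z.1 ^ 2 + z.2 ^ 2 = ρ := hz
        have h4 : z.1 ^ 2 < (R / 4) ^ 2 := by
          rw [← sq_abs z.1]
          exact pow_lt_pow_left₀ ha (abs_nonneg _) two_ne_zero
        have h5 : z.2 ^ 2 < (R / 4) ^ 2 := by
          rw [← sq_abs z.2]
          exact pow_lt_pow_left₀ hb (abs_nonneg _) two_ne_zero
        nlinarith [sq_nonneg R]
    have henc : ((S.card : ℕ) : ℕ∞) ≤ {C : Set (ℝ × ℝ) | ClosedOrbit (fld (Φq q) (fun x => x) s) C ∧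
          (∀ z ∈ C, |z.1| ≤ R ∧ |z.2| ≤ R) ∧
          ∀ z ∈ C, ¬ (|z.1| < R / 4 ∧ |z.2| < R / 4)}.encard := by
      calc ((S.card : ℕ) : ℕ∞) = (S : Set ℝ).encard := (Set.encard_coe_eq_coe_finsetCard S).symm
        _ = (circ '' (S : Set ℝ)).encard := (hinj.encard_image).symm
        _ ≤ _ := encard_le_encard hsub
    calc ENNReal.ofReal ((k : ℝ) / 4 - 2) ≤ ENNReal.ofReal (S.card : ℝ) :=
          ENNReal.ofReal_le_ofReal hS1
      _ = (((S.card : ℕ) : ℕ∞) : ℝ≥0∞) := by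
          rw [ENNReal.ofReal_natCast]
          simp
      _ ≤ _ := ENat.toENNReal_le.2 henc

end Pool.Agent.J4H16.LI
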