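import Pool.Agent.J4H16.LI.Tp2

/-! Project LI, sixth part: the comparison near the upper ends, general restoring force -/

open Set MeasureTheory

namespace Pool.Agent.J4H16.LI

theorem pt2 {F g : ℝ → ℝ} {s₁ B₁ Y₁ s₂ B₂ Y₂ K κ : ℝ} {u₁ u₂ : ℝ → ℝ}
    (h1 : Arc (fun x y => y - F x) g s₁ B₁ Y₁ u₁) (h2 : Arc (fun x y => y - F x) g s₂ B₂ Y₂ u₂)
    (hK : 0 ≤ K) (hκ : 1 ≤ κ)
    (hF1 : ∀ y, |F (u₁ y) + s₁ * u₁ y| ≤ K * u₁ y) (hF2 : ∀ y, |F (u₂ y) + s₂ * u₂ y| ≤ K * u₂ y)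
    (hG1 : Gar g κ B₁ Y₁ u₁) (hG2 : Gar g κ B₂ Y₂ u₂)
    (hn : ∀ y, u₁ y ≤ u₂ y) (hs : s₁ ≤ s₂) (hY : Y₁ ≤ Y₂) (hY2 : Y₂ ≤ 2 * Y₁) :
    (s₂ - s₁) * Y₁ ≤ 2560 * κ ^ 4 * (1 + K) ^ 3 * (Y₂ - Y₁) := by
  have hκ0 : 0 < κ := by linarith
  have hY10 := h1.hY
  have hY20 := h2.hY
  have hK1 : 0 < 1 + K := by linarith
  set x₀ : ℝ := Y₁ / (4 * κ * (1 + K)) with hx₀
  have hx0 : 0 < x₀ := by positivity
  have e1 : 4 * κ * (1 + K) * x₀ = Y₁ := by
    rw [hx₀]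
    field_simp
  have hKx0 : 0 ≤ K * x₀ := mul_nonneg hK hx0.le
  have hκK : 0 ≤ κ * (K * x₀) := mul_nonneg hκ0.le hKx0
  have hx4κ : 4 * (κ * x₀) ≤ Y₁ := by linarith
  have hxκ : x₀ ≤ κ * x₀ := by
    have := mul_le_mul_of_nonneg_right hκ hx0.le
    linarith
  have hKκ : K * x₀ ≤ κ * (K * x₀) := by
    have := mul_le_mul_of_nonneg_right hκ hKx0
    linarith
  have hKx : 4 * (K * x₀) + 4 * x₀ ≤ Y₁ := by linarith
  have hx4 : 4 * x₀ ≤ Y₁ := by linarith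
  obtain ⟨w₁, a0, a1, a2, a3, -⟩ := top2 h1 hK hκ hF1 hG1 hx0 e1.le
  obtain ⟨w₂, b0, b1, b2, b3, b4⟩ := top2 h2 hK hκ hF2 hG2 hx0 (by linarith)
  have hgx : ∀ x ∈ Ioo 0 x₀, 0 < g x ∧ x ≤ κ * g x ∧ g x ≤ κ * x := by
    intro x hx
    obtain ⟨-, -, c3⟩ := a2 x ⟨hx.1.le, hx.2.le⟩
    have hm : w₁ x ∈ Ioo (-B₁) Y₁ := by
      by_contra hcon
      rw [h1.out _ hcon] at c3
      linarith [hx.1]
    have := hG1 _ hm
    rwa [c3] at this
  set σ : ℝ := s₂ - s₁ with hσ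
  have hσ0 : 0 ≤ σ := by linarith
  set g₁ : ℝ → ℝ := fun x => w₁ x - F x - s₁ * x with hg1
  set g₂ : ℝ → ℝ := fun x => w₂ x - F x - s₂ * x with hg2
  have hb1 : ∀ x ∈ Icc 0 x₀, Y₁ / 4 ≤ g₁ x ∧ g₁ x ≤ 2 * Y₁ := by
    intro x hx
    obtain ⟨c1, c2, c3⟩ := a2 x hx
    have h := hF1 (w₁ x)
    rw [c3] at h
    have h' := abs_le.1 h
    have h3 : K * x ≤ K * x₀ := mul_le_mul_of_nonneg_left hx.2 hK
    simp only [hg1]
    constructor <;> linarith [h'.1, h'.2]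
  have hb2 : ∀ x ∈ Icc 0 x₀, Y₂ / 4 ≤ g₂ x ∧ g₂ x ≤ 2 * Y₂ := by
    intro x hx
    obtain ⟨c1, c2, c3⟩ := b2 x hx
    have h := hF2 (w₂ x)
    rw [c3] at h
    have h' := abs_le.1 h
    have h3 : K * x ≤ K * x₀ := mul_le_mul_of_nonneg_left hx.2 hK
    simp only [hg2]
    constructor <;> linarith [h'.1, h'.2]
  -- the difference
  set D : ℝ → ℝ := fun x => w₂ x - w₁ x with hD
  have hD0 : ∀ x ∈ Icc 0 x₀, 0 ≤ D x := by
    intro x hx
    rcases hx.1.eq_or_lt with h | h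
    · simp only [hD]
      rw [← h, a0, b0]
      linarith
    · have h3 := b4 x ⟨h, hx.2⟩ (w₁ x) (by
        have := hn (w₁ x)
        rwa [(a2 x hx).2.2] at this)
      simp only [hD]
      linarith
  set b : ℝ := 1 / (4 * κ * (Y₁ * Y₂)) with hb
  set a : ℝ := 16 * κ / (Y₁ * Y₂) with ha
  have hYY : 0 < Y₁ * Y₂ := mul_pos hY10 hY20
  have hb0 : 0 < b := by positivity
  have ha0 : 0 < a := by positivity
  have hder : ∀ x ∈ Ioo 0 x₀, HasDerivAt D (g x * (D x - σ * x) / (g₁ x * g₂ x)) x := by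
    intro x hx
    have hxm : x ∈ Icc 0 x₀ := ⟨hx.1.le, hx.2.le⟩
    have c1 := (hb1 x hxm).1
    have c2 := (hb2 x hxm).1
    have d1 : g₁ x ≠ 0 := by
      have : 0 < g₁ x := by linarith
      exact this.ne'
    have d2 : g₂ x ≠ 0 := by
      have : 0 < g₂ x := by linarith
      exact this.ne'
    have h3 := (b3 x hx).sub (a3 x hx)
    refine h3.congr_deriv ?_
    change -g x / g₂ x - -g x / g₁ x = _
    have e : D x - σ * x = g₂ x - g₁ x := by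
      simp only [hD, hσ, hg1, hg2]
      ring
    rw [e]
    field_simp
    ring
  set E : ℝ := a * x₀ ^ 2 / 2 with hE
  have hE1 : E ≤ 1 / 2 := by
    rw [hE, ha]
    rw [div_mul_eq_mul_div, div_div, div_le_div_iff₀ (by positivity) (by norm_num)]
    have h3 : (4 * (κ * x₀)) * (4 * x₀) ≤ Y₁ * Y₂ :=
      mul_le_mul hx4κ (hx4.trans hY) (by positivity) hY10.le
    nlinarith
  -- the monotone function
  have hexp : ∀ x ∈ Icc 0 x₀, Real.exp (-(1 / 2)) ≤ Real.exp (-(a * x ^ 2 / 2)) := by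
    intro x hx
    apply Real.exp_le_exp.2
    have h3 : x ^ 2 ≤ x₀ ^ 2 := pow_le_pow_left₀ hx.1 hx.2 2
    have h4 : a * x ^ 2 / 2 ≤ E := by
      rw [hE]
      have := mul_le_mul_of_nonneg_left h3 ha0.le
      linarith
    linarith
  set ε₀ : ℝ := Real.exp (-(1 / 2)) with hε₀
  have hε₀0 : 0 < ε₀ := Real.exp_pos _
  have hanti : AntitoneOn (fun x => D x * Real.exp (-(a * x ^ 2 / 2)) + σ * b * ε₀ * (x ^ 3 / 3))
      (Icc 0 x₀) := by
    have hd2 : ∀ x ∈ Ioo 0 x₀, HasDerivAt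
        (fun x => D x * Real.exp (-(a * x ^ 2 / 2)) + σ * b * ε₀ * (x ^ 3 / 3))
        ((g x * (D x - σ * x) / (g₁ x * g₂ x)) * Real.exp (-(a * x ^ 2 / 2)) +
          D x * (Real.exp (-(a * x ^ 2 / 2)) * (-(a * x))) + σ * b * ε₀ * x ^ 2) x := by
      intro x hx
      have c1 : HasDerivAt (fun x : ℝ => -(a * x ^ 2 / 2)) (-(a * x)) x := by
        have := (((hasDerivAt_pow 2 x).const_mul a).div_const 2).neg
        refine this.congr_deriv ?_
        simp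
        ring
      have c2 : HasDerivAt (fun x : ℝ => σ * b * ε₀ * (x ^ 3 / 3)) (σ * b * ε₀ * x ^ 2) x := by
        have := ((hasDerivAt_pow 3 x).div_const 3).const_mul (σ * b * ε₀)
        refine this.congr_deriv ?_
        simp
      exact ((hder x hx).mul c1.exp).add c2
    apply antitoneOn_of_deriv_nonpos (convex_Icc _ _)
    · have hDc : ContinuousOn D (Icc 0 x₀) := b1.sub a1
      exact (hDc.mul (by fun_prop)).add (by fun_prop)
    · intro x hx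
      rw [interior_Icc] at hx
      exact (hd2 x hx).differentiableAt.differentiableWithinAt
    · intro x hx
      rw [interior_Icc] at hx
      have hxm : x ∈ Icc 0 x₀ := ⟨hx.1.le, hx.2.le⟩
      rw [(hd2 x hx).deriv]
      obtain ⟨c1, c2⟩ := hb1 x hxm
      obtain ⟨c3, c4⟩ := hb2 x hxm
      have hDx := hD0 x hxm
      have hex := hexp x hxm
      set ε : ℝ := Real.exp (-(a * x ^ 2 / 2)) with hε
      have hε0 : 0 < ε := Real.exp_pos _
      have g1p : 0 < g₁ x := by linarith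
      have g2p : 0 < g₂ x := by linarith
      have hgg : 0 < g₁ x * g₂ x := mul_pos g1p g2p
      have hlo : Y₁ * Y₂ / 16 ≤ g₁ x * g₂ x := by
        have := mul_le_mul c1 c3 (by positivity) g1p.le
        linarith
      have hhi : g₁ x * g₂ x ≤ 4 * (Y₁ * Y₂) := by
        have := mul_le_mul c2 c4 g2p.le (by positivity)
        linarith
      obtain ⟨k1, k2, k3⟩ := hgx x hx
      have hp1 : g x * D x / (g₁ x * g₂ x) ≤ a * x * D x := by
        rw [div_le_iff₀ hgg]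
        have h5 : κ * x ≤ a * x * (g₁ x * g₂ x) := by
          have h5' : a * x * (Y₁ * Y₂ / 16) = κ * x := by
            rw [ha]
            field_simp
          rw [← h5']
          exact mul_le_mul_of_nonneg_left hlo (mul_nonneg ha0.le hx.1.le)
        calc g x * D x ≤ a * x * (g₁ x * g₂ x) * D x :=
              mul_le_mul_of_nonneg_right (k3.trans h5) hDx
          _ = a * x * D x * (g₁ x * g₂ x) := by ring
      have hp2 : b * (σ * x ^ 2) ≤ g x * (σ * x) / (g₁ x * g₂ x) := by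
        rw [le_div_iff₀ hgg]
        have h5 : b * x * (g₁ x * g₂ x) ≤ g x := by
          have h5' : b * x * (4 * (Y₁ * Y₂)) = x / κ := by
            rw [hb]
            field_simp
          have h5'' : x / κ ≤ g x := by
            rw [div_le_iff₀ hκ0]
            linarith
          refine le_trans ?_ h5''
          rw [← h5']
          exact mul_le_mul_of_nonneg_left hhi (mul_nonneg hb0.le hx.1.le)
        calc b * (σ * x ^ 2) * (g₁ x * g₂ x) = b * x * (g₁ x * g₂ x) * (σ * x) := by ring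
          _ ≤ g x * (σ * x) :=
              mul_le_mul_of_nonneg_right h5 (mul_nonneg hσ0 hx.1.le)
      have e2 : (g x * (D x - σ * x) / (g₁ x * g₂ x)) * ε + D x * (ε * (-(a * x))) +
          σ * b * ε₀ * x ^ 2 =
          (g x * D x / (g₁ x * g₂ x) - a * x * D x) * ε - (g x * (σ * x) / (g₁ x * g₂ x)) * ε +
            b * (σ * x ^ 2) * ε₀ := by ring
      rw [e2]
      have h7 : (g x * D x / (g₁ x * g₂ x) - a * x * D x) * ε ≤ 0 :=
        mul_nonpos_of_nonpos_of_nonneg (by linarith) hε0.le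
      have h8 : b * (σ * x ^ 2) * ε₀ ≤ (g x * (σ * x) / (g₁ x * g₂ x)) * ε := by
        refine mul_le_mul hp2 hex hε₀0.le ?_
        exact div_nonneg (mul_nonneg k1.le (mul_nonneg hσ0 hx.1.le)) hgg.le
      linarith
  have h9 := hanti (left_mem_Icc.2 hx0.le) (right_mem_Icc.2 hx0.le) hx0.le
  simp only at h9
  have h10 : 0 ≤ D x₀ * Real.exp (-(a * x₀ ^ 2 / 2)) :=
    mul_nonneg (hD0 x₀ ⟨hx0.le, le_rfl⟩) (Real.exp_pos _).le
  have hD00 : D 0 = Y₂ - Y₁ := by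
    simp only [hD, a0, b0]
  have h11 : σ * b * ε₀ * (x₀ ^ 3 / 3) ≤ Y₂ - Y₁ := by
    rw [← hD00]
    simp at h9
    linarith
  have hε₀2 : 3 / 5 ≤ ε₀ := by
    rw [hε₀, Real.exp_neg, ← one_div, div_le_div_iff₀ (by norm_num) (Real.exp_pos _)]
    have h12 : Real.exp (1 / 2) ^ 2 < (5 / 3) ^ 2 := by
      rw [← Real.exp_nat_mul]
      have : ((2 : ℕ) : ℝ) * (1 / 2) = 1 := by norm_num
      rw [this]
      have := Real.exp_one_lt_d9
      norm_num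
      linarith
    have h13 : Real.exp (1 / 2) < 5 / 3 := lt_of_pow_lt_pow_left₀ 2 (by norm_num) h12
    linarith
  -- the conclusion
  have h14 : σ * b * (3 / 5) * (x₀ ^ 3 / 3) ≤ Y₂ - Y₁ := by
    refine le_trans ?_ h11
    have h15 : 0 ≤ σ * b * (x₀ ^ 3 / 3) := by positivity
    have := mul_le_mul_of_nonneg_left hε₀2 h15
    linarith
  have h16 : σ * x₀ ^ 3 ≤ 20 * κ * (Y₁ * Y₂) * (Y₂ - Y₁) := by
    have e3 : σ * b * (3 / 5) * (x₀ ^ 3 / 3) = σ * x₀ ^ 3 / (20 * κ * (Y₁ * Y₂)) := by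
      rw [hb]
      field_simp
      ring
    rw [e3, div_le_iff₀ (by positivity)] at h14
    linarith
  have h17 : σ * x₀ ^ 3 ≤ 40 * κ * Y₁ ^ 2 * (Y₂ - Y₁) := by
    refine h16.trans (mul_le_mul_of_nonneg_right ?_ (by linarith))
    have : Y₁ * Y₂ ≤ Y₁ * (2 * Y₁) := mul_le_mul_of_nonneg_left hY2 hY10.le
    have := mul_le_mul_of_nonneg_left this (by positivity : 0 ≤ 20 * κ)
    linarith
  have e4 : 64 * κ ^ 3 * (1 + K) ^ 3 * x₀ ^ 3 = Y₁ ^ 3 := by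
    have : 64 * κ ^ 3 * (1 + K) ^ 3 * x₀ ^ 3 = (4 * κ * (1 + K) * x₀) ^ 3 := by ring
    rw [this, e1]
  have h18 : σ * Y₁ ^ 3 ≤ 2560 * κ ^ 4 * (1 + K) ^ 3 * (Y₂ - Y₁) * Y₁ ^ 2 := by
    rw [← e4]
    have h19 := mul_le_mul_of_nonneg_left h17 (by positivity : 0 ≤ 64 * κ ^ 3 * (1 + K) ^ 3)
    calc σ * (64 * κ ^ 3 * (1 + K) ^ 3 * x₀ ^ 3) = 64 * κ ^ 3 * (1 + K) ^ 3 * (σ * x₀ ^ 3) := by ring
      _ ≤ 64 * κ ^ 3 * (1 + K) ^ 3 * (40 * κ * Y₁ ^ 2 * (Y₂ - Y₁)) := h19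
      _ = 2560 * κ ^ 4 * (1 + K) ^ 3 * (Y₂ - Y₁) * Y₁ ^ 2 := by ring
  have h20 : σ * Y₁ * Y₁ ^ 2 ≤ 2560 * κ ^ 4 * (1 + K) ^ 3 * (Y₂ - Y₁) * Y₁ ^ 2 := by
    calc σ * Y₁ * Y₁ ^ 2 = σ * Y₁ ^ 3 := by ring
      _ ≤ _ := h18
  exact le_of_mul_le_mul_right h20 (by positivity)

end Pool.Agent.J4H16.LI
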