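import Pool.Agent.J4H16.LI.Top8
import Pool.Agent.J4H16.LI.Pt
import Pool.Agent.J4H79.LI.Tv
import Pool.Agent.J4H79.LI.Idn
import Pool.Agent.J4H98.LI.Zu
import Pool.Agent.J4H98.LI.Cmp
import Pool.Agent.J4H74.LI.Uni
import Pool.Agent.J4H74.LI.Half
import Pool.Agent.J4H74.LI.Ax
import Pool.Agent.J4H36.LI.Cyc
import Pool.Agent.J4H36.LI.Pol
import Pool.Agent.J4H2.LI.G2
import Pool.Agent.J4H21.LI.Be
import Pool.Agent.J4H51.LI.Qb

/-! # Lienard systems: the mean number of closed orbits over the damping is logarithmic

The system is `x' = y - F(x) - s x`, `y' = - x`, with `F` a polynomial of degree at most `n`.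

Proof.  A closed orbit turns once about the origin and its two halves are graphs over the `y`-axis;
the closed orbits of all members of the family are nested.  Near the `y`-axis two of them are graphs
`y = w₁(x) ≤ w₂(x)`, and at the same `x` the values of `F` cancel in the equation for `w₂ - w₁`; so
`|s₂ - s₁| ≤ C(M) log (T₂ / T₁)`, where `T` is the larger one of the two heights of the closed orbit
on the `y`-axis.  This bounds the mean number per scale, for every `F`.  For the closed orbits in the
strip `|x| ≤ R / (2 n²)` one has a bound linear in the degree, and there, by Bernstein's inequality,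
`|F(x) - F'(0) x| ≤ (2 M / n) |x|`. -/

open Set MeasureTheory
open scoped ENNReal

namespace Pool.Agent.J4H16.LI.RV5

/-- the vector field `x' = y - F(x) - s x`, `y' = - x` -/
def field (F : Polynomial ℝ) (s : ℝ) (z : ℝ × ℝ) : ℝ × ℝ :=
  (z.2 - F.eval z.1 - s * z.1, - z.1)

/-- `C` is a closed orbit of the vector field `X`: the image of a nonconstant periodic solution -/
def IsClosedOrbit (X : ℝ × ℝ → ℝ × ℝ) (C : Set (ℝ × ℝ)) : Prop :=
  ∃ γ : ℝ → ℝ × ℝ, ∃ T : ℝ, 0 < T ∧ (∀ t : ℝ, HasDerivAt γ (X (γ t)) t) ∧
    (∀ t : ℝ, γ (t + T) = γ t) ∧ (∃ a b : ℝ, γ a ≠ γ b) ∧ C = range γ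

/-- the strip `|x| ≤ R` -/
def strip (R : ℝ) : Set (ℝ × ℝ) := {z | |z.1| ≤ R}

/-- **The mean number of closed orbits of a Lienard system is at most logarithmic in the degree.**

Let `F` be a polynomial of degree at most `n` with `F(0) = 0` and `|F(x)| ≤ M |x|` for `|x| ≤ R`.
Then `x' = y - F(x) - s x`, `y' = - x` has no closed orbit in the strip `|x| ≤ R` if `|s| > M`, and
the number of all its closed orbits in the strip has a measurable majorant `G` with
`∫ G ≤ 200000 (1 + M)⁴ (1 + log n)`. -/
theorem result (n : ℕ) (F : Polynomial ℝ) (M R : ℝ) (hn : 1 ≤ n) (hM : 0 < M) (hR : 0 < R)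
    (hF : F.natDegree ≤ n) (hF0 : F.eval 0 = 0)
    (hFM : ∀ x : ℝ, |x| ≤ R → |F.eval x| ≤ M * |x|) :
    (∀ (s : ℝ) (C : Set (ℝ × ℝ)), IsClosedOrbit (field F s) C → C ⊆ strip R → |s| ≤ M) ∧
    ∃ G : ℝ → ℝ≥0∞, Measurable G ∧
      (∀ s : ℝ, (({C : Set (ℝ × ℝ) | IsClosedOrbit (field F s) C ∧
        C ⊆ strip R}.encard : ℕ∞) : ℝ≥0∞) ≤ G s) ∧
      ∫⁻ s, G s ≤ ENNReal.ofReal (200000 * (1 + M) ^ 4 * (1 + Real.log n)) := by
  have hCMP := J4H98.LI.t_CMP J4H74.LI.t_AX J4H98.LI.t_ZU
  have hEQ := J4H98.LI.t_EQ J4H74.LI.t_AX J4H98.LI.t_ZU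
  have hCYC := J4H36.LI.t_CYC J4H74.LI.t_UNI J4H74.LI.t_HALF hCMP hEQ
  exact J4H16.LI.main5 hCYC hCMP hEQ J4H79.LI.t_IDN J4H36.LI.t_POL J4H79.LI.t_TV
    (J4H21.LI.t_BE J4H51.LI.t_QB) J4H2.LI.t_G2 (J4H16.LI.t_PT J4H16.LI.t_TOP) J4H16.LI.t_WID
    hn hF hF0 hM hR hFM

end Pool.Agent.J4H16.LI.RV5

/-!
Proves: Let n >= 1, M, R > 0 and let F be a real polynomial, deg F <= n, F(0) = 0, |F(x)| <= M|x| for |x| <= R. Then the classical Lienard system x' = y - F(x) - s x, y' = -x has no closed orbit in the strip |x| <= R if |s| > M, and the number of ALL its closed orbits in this strip (any height, any size) has a measurable majorant G(s) with integral over the real line at most 200000 (1+M)^4 (1 + log n). So for fixed M the mean number of closed orbits in the strip over the damping s in [-M,M] is O(log n), uniformly in F and R.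
Definitions: field F s: the vector field above. IsClosedOrbit X C: C is the image of a nonconstant periodic solution of X. strip R: |x| <= R.
Relation: Partial answer to Q1: a bound logarithmic in the degree, on average over one parameter, for all closed orbits of classical Lienard systems in a strip (any M). Lins, de Melo and Pugh conjectured (n-1)/2 for each system (false); Smale asks for bounds for each system. Starting results: rotated families, star-like regions; no Lienard system. OscillatorMean (same row): mean n/2 for weak damping, also for non-Lienard fields. New: nested closed orbits satisfy |s1-s2| <= C(M) log of the ratio of their heights, for every F. Brudnyi (2001): O(log n) small cycles for random perturbations of the linear centre (all coefficients random). No source known to us.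
-/
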