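import Pool.Agent.J4H16.LI.Stm

/-! Project LI, second part: the classical Lienard systems `x' = y - F(x) - s x`, `y' = - x`. -/

open Set MeasureTheory
open scoped ENNReal

namespace Pool.Agent.J4H16.LI

/-- (MK) a consequence of Markov's inequality -/
def S_MK : Prop := ∀ (n : ℕ) (p : Polynomial ℝ), p.natDegree ≤ n → p.eval 0 = 0 →
  ∀ (M R : ℝ), 0 < R → 0 ≤ M → (∀ x, |x| ≤ R → |p.eval x| ≤ M * |x|) →
  |p.derivative.eval 0| ≤ M ∧
    ∀ x, |x| ≤ R → |p.eval x - p.derivative.eval 0 * x| ≤ 2 * M * (n ^ 2 * |x| / R) * |x|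

/-- (G1) the width of an arc and the area -/
def S_G1 : Prop := ∀ (F : ℝ → ℝ) (s B Y K : ℝ) (u : ℝ → ℝ),
  Arc (fun x y => y - F x) (fun x => x) s B Y u → 0 ≤ K →
  (∀ y, |F (u y) + s * u y| ≤ K * u y) → ∀ y, u y ^ 2 ≤ 8 * (1 + K) * ∫ t, u t

/-- (G2) the height of an arc and the width -/
def S_G2 : Prop := ∀ (F : ℝ → ℝ) (s B Y K R : ℝ) (u : ℝ → ℝ),
  Arc (fun x y => y - F x) (fun x => x) s B Y u → 0 ≤ K →
  (∀ y, |F (u y) + s * u y| ≤ K * u y) → (∀ y, u y ≤ R) → Y ≤ 2 * (1 + K) * R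

end Pool.Agent.J4H16.LI
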