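import Pool.Agent.J4H16.LI.Stm

/-! Project LI, fifth part: for classical Lienard systems the mean number of closed orbits is
bounded per scale, for every `F` with `|F(x)| ≤ M |x|`, so at most logarithmic in the degree. -/

open Set MeasureTheory

namespace Pool.Agent.J4H16.LI

/-- (TOP) the part of an arc near its upper end, as a graph `y = w x` over `0 ≤ x ≤ x₀` -/
def S_TOP : Prop := ∀ (F : ℝ → ℝ) (s B Y K x₀ : ℝ) (u : ℝ → ℝ),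
  Arc (fun x y => y - F x) (fun x => x) s B Y u → 0 ≤ K →
  (∀ y, |F (u y) + s * u y| ≤ K * u y) → 0 < x₀ → 4 * (1 + K) * x₀ ≤ Y →
  ∃ w : ℝ → ℝ, w 0 = Y ∧ ContinuousOn w (Icc 0 x₀) ∧
    (∀ x ∈ Icc 0 x₀, Y / 2 ≤ w x ∧ w x ≤ Y ∧ u (w x) = x) ∧
    (∀ x ∈ Ioo 0 x₀, HasDerivAt w (-x / (w x - F x - s * x)) x) ∧
    ∀ x ∈ Ioc 0 x₀, ∀ y, x ≤ u y → y ≤ w x

/-- (PT) the comparison of two nested arcs near their upper ends: `F` cancels -/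
def S_PT : Prop := ∀ (F : ℝ → ℝ) (s₁ B₁ Y₁ s₂ B₂ Y₂ K : ℝ) (u₁ u₂ : ℝ → ℝ),
  Arc (fun x y => y - F x) (fun x => x) s₁ B₁ Y₁ u₁ →
  Arc (fun x y => y - F x) (fun x => x) s₂ B₂ Y₂ u₂ → 0 ≤ K →
  (∀ y, |F (u₁ y) + s₁ * u₁ y| ≤ K * u₁ y) → (∀ y, |F (u₂ y) + s₂ * u₂ y| ≤ K * u₂ y) →
  (∀ y, u₁ y ≤ u₂ y) → s₁ ≤ s₂ → Y₁ ≤ Y₂ → Y₂ ≤ 2 * Y₁ →
  (s₂ - s₁) * Y₁ ≤ 2560 * (1 + K) ^ 3 * (Y₂ - Y₁)

/-- (WID) the width of an arc is at most a multiple of its height -/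
def S_WID : Prop := ∀ (F : ℝ → ℝ) (s B Y K : ℝ) (u : ℝ → ℝ),
  Arc (fun x y => y - F x) (fun x => x) s B Y u → 0 ≤ K →
  (∀ y, |F (u y) + s * u y| ≤ K * u y) → ∀ y, u y ≤ (1 + 2 * K) * max B Y

end Pool.Agent.J4H16.LI
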