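import Pool.Agent.J4H16.LI.Fin

/-! Project LI: the main theorem, from the statements of `Stm`. -/

open Set MeasureTheory Filter Topology
open scoped ENNReal

namespace Pool.Agent.J4H16.LI

variable {Φ : ℝ → ℝ → ℝ} {g : ℝ → ℝ}

/-- the closed box -/
def box (R R' : ℝ) : Set (ℝ × ℝ) := {z | |z.1| ≤ R ∧ |z.2| ≤ R'}

lemma Cyc.in_box {s B Y R R' : ℝ} {u v : ℝ → ℝ} (h : Cyc Φ g s B Y u v) (hR : 0 ≤ R)
    (hb : crv B Y u v ⊆ box R R') :
    (∀ y, u y ≤ R) ∧ (∀ y, v y ≤ R) ∧ B ≤ R' ∧ Y ≤ R' := by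
  have hl := h.right.lt
  have hB := h.right.hB
  have hY := h.right.hY
  refine ⟨fun y => ?_, fun y => ?_, ?_, ?_⟩
  · by_cases hy : y ∈ Ioo (-B) Y
    · have := (hb (show (u y, y) ∈ crv B Y u v from ⟨⟨hy.1.le, hy.2.le⟩, Or.inl rfl⟩)).1
      exact (le_abs_self _).trans this
    · rw [h.right.out y hy]
      exact hR
  · by_cases hy : y ∈ Ioo (-B) Y
    · have := (hb (show (-v y, y) ∈ crv B Y u v from ⟨⟨hy.1.le, hy.2.le⟩, Or.inr rfl⟩)).1
      simp only [abs_neg] at this
      exact (le_abs_self _).trans this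
    · rw [h.v_out hy]
      exact hR
  · have := (hb (show (u (-B), -B) ∈ crv B Y u v from ⟨⟨le_rfl, hl.le⟩, Or.inl rfl⟩)).2
    simp only [abs_neg] at this
    exact (le_abs_self _).trans this
  · have := (hb (show (u Y, Y) ∈ crv B Y u v from ⟨⟨hl.le, le_rfl⟩, Or.inl rfl⟩)).2
    exact (le_abs_self _).trans this

lemma Cyc.area_le {s B Y R R' : ℝ} {u v : ℝ → ℝ} (h : Cyc Φ g s B Y u v) (hR : 0 ≤ R)
    (hb : crv B Y u v ⊆ box R R') : area u v ≤ 4 * (R * R') := by
  obtain ⟨h1, h2, h3, h4⟩ := h.in_box hR hb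
  have hR' : 0 < R' := h.right.hB.trans_le h3
  have hi2 : Integrable fun y => u y + v y := h.int_u.add h.int_v
  have e : ∫ y, (Icc (-R') R').indicator (fun _ => 2 * R) y = 4 * (R * R') := by
    rw [integral_indicator measurableSet_Icc, setIntegral_const, smul_eq_mul, Measure.real,
      Real.volume_Icc, ENNReal.toReal_ofReal (by linarith)]
    ring
  rw [← e]
  unfold area
  refine integral_mono hi2 ?_ fun y => ?_
  · rw [integrable_indicator_iff measurableSet_Icc]
    exact integrableOn_const (by rw [Real.volume_Icc]; exact ENNReal.ofReal_ne_top)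
  · by_cases hy : y ∈ Icc (-R') R'
    · simp only [indicator_of_mem hy]
      linarith [h1 y, h2 y]
    · simp only [indicator_of_notMem hy]
      have hy' : y ∉ Ioo (-B) Y := fun h => hy ⟨by linarith [h.1], by linarith [h.2]⟩
      rw [h.right.out y hy', h.v_out hy', add_zero]

lemma Cyc.le_area {s B Y r r' : ℝ} {u v : ℝ → ℝ} (h : Cyc Φ g s B Y u v) (hr : 0 < r)
    (hr' : 0 < r') (hb : ∀ z ∈ crv B Y u v, r ≤ |z.1| ∨ r' ≤ |z.2|) :
    4 * (r * r') ≤ area u v := by
  have hl := h.right.lt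
  have hB := h.right.hB
  have hY := h.right.hY
  have hBr : r' ≤ B := by
    have h1 : u (-B) = 0 := h.right.out _ fun h => lt_irrefl _ h.1
    have := hb _ (show (u (-B), -B) ∈ crv B Y u v from ⟨⟨le_rfl, hl.le⟩, Or.inl rfl⟩)
    simp only [h1, abs_zero, abs_neg, abs_of_pos hB] at this
    rcases this with h | h
    · linarith
    · exact h
  have hYr : r' ≤ Y := by
    have h1 : u Y = 0 := h.right.out _ fun h => lt_irrefl _ h.2
    have := hb _ (show (u Y, Y) ∈ crv B Y u v from ⟨⟨hl.le, le_rfl⟩, Or.inl rfl⟩)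
    simp only [h1, abs_zero, abs_of_pos hY] at this
    rcases this with h | h
    · linarith
    · exact h
  have hi2 : Integrable fun y => u y + v y := h.int_u.add h.int_v
  have e : ∫ y, (Ioo (-r') r').indicator (fun _ => 2 * r) y = 4 * (r * r') := by
    rw [integral_indicator measurableSet_Ioo, setIntegral_const, smul_eq_mul, Measure.real,
      Real.volume_Ioo, ENNReal.toReal_ofReal (by linarith)]
    ring
  rw [← e]
  unfold area
  refine integral_mono ?_ hi2 fun y => ?_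
  · rw [integrable_indicator_iff measurableSet_Ioo]
    exact integrableOn_const (by rw [Real.volume_Ioo]; exact ENNReal.ofReal_ne_top)
  · by_cases hy : y ∈ Ioo (-r') r'
    · simp only [indicator_of_mem hy]
      have hyI : y ∈ Icc (-B) Y := ⟨by linarith [hy.1], by linarith [hy.2]⟩
      have hya : |y| < r' := abs_lt.2 hy
      have a1 := hb _ (show (u y, y) ∈ crv B Y u v from ⟨hyI, Or.inl rfl⟩)
      have a2 := hb _ (show (-v y, y) ∈ crv B Y u v from ⟨hyI, Or.inr rfl⟩)
      simp only [abs_neg] at a1 a2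
      rw [abs_of_nonneg (h.right.nonneg y)] at a1
      rw [abs_of_nonneg (h.v_nonneg y)] at a2
      have b1 : r ≤ u y := a1.resolve_right (by linarith)
      have b2 : r ≤ v y := a2.resolve_right (by linarith)
      linarith
    · simp only [indicator_of_notMem hy]
      exact add_nonneg (h.right.nonneg y) (h.v_nonneg y)

lemma Cyc.maj_le (hP : S_POL) (hS : Sys Φ g) {n : ℕ} {s B Y M R R' : ℝ} {u v : ℝ → ℝ}
    (h : Cyc Φ g s B Y u v) (hR : 0 ≤ R) (hM : 0 ≤ M) (hbx : Box Φ n M R R')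
    (hb : crv B Y u v ⊆ box R R') : maj Φ M u v ≤ (2 * n + 1) * M * area u v := by
  obtain ⟨h1, h2, h3, h4⟩ := h.in_box hR hb
  unfold maj area
  rw [← integral_const_mul]
  refine integral_mono (h.int_sl hS M) ((h.int_u.add h.int_v).const_mul _) fun y => ?_
  by_cases hy : y ∈ Ioo (-B) Y
  · have := sl_le hP hS hM hbx (h.v_nonneg y) (h.right.nonneg y) (h2 y) (h1 y) (y := y)
      (abs_le.2 ⟨by linarith [hy.1], by linarith [hy.2]⟩)
    exact this
  · simp only [h.right.out y hy, h.v_out hy]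
    simp [sl]

lemma Cyc.abs_le (hI : S_IDN) (hS : Sys Φ g) {n : ℕ} {s B Y M R R' : ℝ} {u v : ℝ → ℝ}
    (h : Cyc Φ g s B Y u v) (hR : 0 ≤ R) (hbx : Box Φ n M R R')
    (hb : crv B Y u v ⊆ box R R') : |s| ≤ M := by
  obtain ⟨h1, h2, h3, h4⟩ := h.in_box hR hb
  have hA := h.area_pos
  have e := h.ident hI hS
  have hi2 : Integrable fun y => u y + v y := h.int_u.add h.int_v
  have h5 : |s| * area u v ≤ M * area u v := by
    rw [← abs_of_pos hA, ← abs_mul, e, abs_of_pos hA]
    refine (abs_integral_le_integral_abs).trans ?_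
    unfold area
    rw [← integral_const_mul]
    refine integral_mono (h.int_diff hS).abs (hi2.const_mul _) fun y => ?_
    by_cases hy : y ∈ Ioo (-B) Y
    · have hya : |y| ≤ R' := _root_.abs_le.2 ⟨by linarith [hy.1], by linarith [hy.2]⟩
      have a1 := hbx.lip (u y) y (by rw [abs_of_nonneg (h.right.nonneg y)]; exact h1 y) hya
      have a2 := hbx.lip (-v y) y (by rw [abs_neg, abs_of_nonneg (h.v_nonneg y)]; exact h2 y) hya
      rw [abs_of_nonneg (h.right.nonneg y)] at a1
      rw [abs_neg, abs_of_nonneg (h.v_nonneg y)] at a2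
      have a3 : |Φ (u y) y - Φ (-v y) y| ≤ |Φ (u y) y - Φ 0 y| + |Φ (-v y) y - Φ 0 y| := by
        have := abs_sub (Φ (u y) y - Φ 0 y) (Φ (-v y) y - Φ 0 y)
        rwa [show Φ (u y) y - Φ 0 y - (Φ (-v y) y - Φ 0 y) = Φ (u y) y - Φ (-v y) y by ring]
          at this
      simp only
      linarith
    · simp only [h.right.out y hy, h.v_out hy]
      simp
  exact le_of_mul_le_mul_right h5 hA

/-- the potential is strictly increasing, with the right increments -/
lemma potential {K A₁ A₂ m₁ m₂ : ℝ} (hK : 0 < K) (hA : 0 < A₁) (hlt : A₁ < A₂)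
    (hm : m₁ ≤ K * A₁) :
    (m₂ - m₁) / A₂ < (m₂ / A₂ + K * Real.log A₂) - (m₁ / A₁ + K * Real.log A₁) := by
  have hA2 : 0 < A₂ := hA.trans hlt
  have h1 : 1 - A₁ / A₂ < Real.log A₂ - Real.log A₁ := by
    have h2 : Real.log (A₁ / A₂) < A₁ / A₂ - 1 := by
      apply Real.log_lt_sub_one_of_pos (by positivity)
      intro h
      rw [div_eq_one_iff_eq hA2.ne'] at h
      exact hlt.ne h
    rw [Real.log_div hA.ne' hA2.ne'] at h2
    linarith
  have h3 : m₁ / A₁ - m₁ / A₂ ≤ K * (1 - A₁ / A₂) := by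
    have e1 : m₁ / A₁ - m₁ / A₂ = (m₁ / A₁) * (1 - A₁ / A₂) := by
      field_simp
    rw [e1]
    refine mul_le_mul_of_nonneg_right ?_ ?_
    · rw [div_le_iff₀ hA]
      exact hm
    · rw [sub_nonneg, div_le_one hA2]
      exact hlt.le
  have h4 := mul_lt_mul_of_pos_left h1 hK
  rw [sub_div]
  nlinarith

/-- **the main theorem** -/
theorem main (hCY : S_CYC) (hC : S_CMP) (hE : S_EQ) (hI : S_IDN) (hP : S_POL) (hT : S_TV)
    (hS : Sys Φ g) {n : ℕ} {M R R' r r' : ℝ} (hM : 0 < M) (hr : 0 < r) (hr' : 0 < r')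
    (hrR : r ≤ R) (hrR' : r' ≤ R') (hbx : Box Φ n M R R') :
    (∀ s C, ClosedOrbit (fld Φ g s) C → C ⊆ box R R' → |s| ≤ M) ∧
    ∃ G : ℝ → ℝ≥0∞, Measurable G ∧
      (∀ s, (({C | ClosedOrbit (fld Φ g s) C ∧ C ⊆ box R R' ∧
        ∀ z ∈ C, r ≤ |z.1| ∨ r' ≤ |z.2|}.encard : ℕ∞) : ℝ≥0∞) ≤ G s) ∧
      ∫⁻ s, G s ≤ ENNReal.ofReal ((2 * n + 1) * M * (1 + Real.log (R * R' / (r * r')))) := by
  have hR : 0 ≤ R := hr.le.trans hrR
  have hR0 : 0 < R := hr.trans_le hrR
  have hR0' : 0 < R' := hr'.trans_le hrR'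
  refine ⟨fun s C hO hCb => ?_, ?_⟩
  · obtain ⟨B, Y, u, v, h, rfl⟩ := hCY Φ g hS s C hO
    exact h.abs_le hI hS hR hbx hCb
  set K : ℝ := (2 * n + 1) * M with hK
  have hK0 : 0 < K := by positivity
  let ι : Type := {q : ℝ × Set (ℝ × ℝ) // ClosedOrbit (fld Φ g q.1) q.2 ∧ q.2 ⊆ box R R' ∧
    ∀ z ∈ q.2, r ≤ |z.1| ∨ r' ≤ |z.2|}
  have hex : ∀ i : ι, ∃ (B Y : ℝ) (u v : ℝ → ℝ), Cyc Φ g i.1.1 B Y u v ∧
      i.1.2 = crv B Y u v := fun i => hCY Φ g hS i.1.1 i.1.2 i.2.1
  choose B Y u v hcyc hcrv using hex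
  have hbox : ∀ i : ι, crv (B i) (Y i) (u i) (v i) ⊆ box R R' := fun i => by
    rw [← hcrv i]
    exact i.2.2.1
  have hout : ∀ i : ι, ∀ z ∈ crv (B i) (Y i) (u i) (v i), r ≤ |z.1| ∨ r' ≤ |z.2| := fun i => by
    rw [← hcrv i]
    exact i.2.2.2
  have hs : ∀ i : ι, |i.1.1| ≤ M := fun i => (hcyc i).abs_le hI hS hR hbx (hbox i)
  have hA0 : ∀ i, 0 < area (u i) (v i) := fun i => (hcyc i).area_pos
  have hmj : ∀ i, maj Φ M (u i) (v i) ≤ K * area (u i) (v i) := fun i =>
    (hcyc i).maj_le hP hS hR hM.le hbx (hbox i)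
  set h : ι → ℝ := fun i => maj Φ M (u i) (v i) / area (u i) (v i) +
    K * Real.log (area (u i) (v i)) with hh
  -- the comparison of two closed orbits, the first one inside
  have hin : ∀ i j : ι, ((∀ y, u i y ≤ u j y ∧ v i y ≤ v j y) ∧ ∃ y, u i y < u j y) →
      |j.1.1 - i.1.1| < h j - h i := by
    rintro i j ⟨hn, hx⟩
    have hlt := area_lt (hcyc i) (hcyc j) hn hx
    have hp := pair hI hS (hcyc i) (hcyc j) hn (hs i)
    have hpo := potential hK0 (hA0 i) hlt (hmj i) (m₂ := maj Φ M (u j) (v j))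
    have h1 : |j.1.1 - i.1.1| ≤ (maj Φ M (u j) (v j) - maj Φ M (u i) (v i)) /
        area (u j) (v j) := by
      rw [le_div_iff₀ (hA0 j)]
      exact hp
    exact h1.trans_lt hpo
  have hdich : ∀ i j : ι, i ≠ j → |j.1.1 - i.1.1| < |h j - h i| := by
    have aux : ∀ i j : ι, i ≠ j → i.1.1 ≤ j.1.1 → |j.1.1 - i.1.1| < |h j - h i| := by
      intro i j hij hle
      have hne : i.1.1 < j.1.1 ∨ Y i ≠ Y j := by
        by_contra hcon
        push Not at hcon
        obtain ⟨h1, h2⟩ := hcon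
        have h3 : i.1.1 = j.1.1 := le_antisymm hle h1
        apply hij
        have hci := hcyc i
        have hcj := hcyc j
        rw [← h3, ← h2] at hcj
        obtain ⟨e1, e2⟩ := hE Φ g hS _ _ _ _ _ _ hci.right hcj.right
        have hcl := hcj.left
        rw [← e1] at hcl
        obtain ⟨-, e3⟩ := hE (mΦ Φ) (mg g) hS.mir _ _ _ _ _ _ hci.left hcl
        have e4 : v i = v j := by
          funext y
          have := congrFun e3 (-y)
          simpa using this
        apply Subtype.ext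
        apply Prod.ext h3
        rw [hcrv i, hcrv j, e1, h2, e2, e4]
      rcases nested hC hS (hcyc i) (hcyc j) hle hne with h1 | h1
      · have h2 := hin j i h1
        rw [abs_sub_comm (j.1.1)]
        rw [abs_sub_comm (h j)]
        exact h2.trans_le (le_abs_self _)
      · exact (hin i j h1).trans_le (le_abs_self _)
    intro i j hij
    rcases le_total i.1.1 j.1.1 with hle | hle
    · exact aux i j hij hle
    · have := aux j i hij.symm hle
      rwa [abs_sub_comm (i.1.1), abs_sub_comm (h i)] at this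
  have hinj : Function.Injective h := by
    intro i j hij
    by_contra hne
    have := hdich i j hne
    rw [hij, sub_self, abs_zero] at this
    exact absurd (abs_nonneg _) (not_le.2 this)
  have hab : K * Real.log (4 * (r * r')) ≤ K + K * Real.log (4 * (R * R')) := by
    have h1 : Real.log (4 * (r * r')) ≤ Real.log (4 * (R * R')) := by
      apply Real.log_le_log (by positivity)
      have : r * r' ≤ R * R' := mul_le_mul hrR hrR' hr'.le hR
      linarith
    nlinarith
  have hrange : ∀ i, h i ∈ Icc (K * Real.log (4 * (r * r')))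
      (K + K * Real.log (4 * (R * R'))) := by
    intro i
    have hAi := hA0 i
    have h1 := (hcyc i).le_area hr hr' (hout i)
    have h2 := (hcyc i).area_le hR (hbox i)
    have h3 : Real.log (4 * (r * r')) ≤ Real.log (area (u i) (v i)) :=
      Real.log_le_log (by positivity) h1
    have h4 : Real.log (area (u i) (v i)) ≤ Real.log (4 * (R * R')) := Real.log_le_log hAi h2
    have h5 : 0 ≤ maj Φ M (u i) (v i) / area (u i) (v i) :=
      div_nonneg (maj_nonneg (hcyc i) hM.le) hAi.le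
    have h6 : maj Φ M (u i) (v i) / area (u i) (v i) ≤ K := by
      rw [div_le_iff₀ hAi]
      exact hmj i
    have h7 := mul_le_mul_of_nonneg_left h3 hK0.le
    have h8 := mul_le_mul_of_nonneg_left h4 hK0.le
    constructor
    · simp only [hh]
      linarith
    · simp only [hh]
      linarith
  have hlip : ∀ i j : ι, |i.1.1 - j.1.1| ≤ |h i - h j| := by
    intro i j
    rcases eq_or_ne i j with rfl | hij
    · simp
    · have := hdich i j hij
      rw [abs_sub_comm (i.1.1), abs_sub_comm (h i)]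
      exact this.le
  obtain ⟨G, hG, hGN, hGI⟩ := hT ι (fun i => i.1.1) h (K * Real.log (4 * (r * r')))
    (K + K * Real.log (4 * (R * R'))) hab hinj hrange hlip
  refine ⟨G, hG, fun s => ?_, hGI.trans (ENNReal.ofReal_le_ofReal (le_of_eq ?_))⟩
  · refine le_trans ?_ (hGN s)
    have hsub : {C | ClosedOrbit (fld Φ g s) C ∧ C ⊆ box R R' ∧
        ∀ z ∈ C, r ≤ |z.1| ∨ r' ≤ |z.2|} ⊆ (fun i : ι => i.1.2) '' {i : ι | i.1.1 = s} := by
      rintro C hCm
      exact ⟨⟨(s, C), hCm⟩, rfl, rfl⟩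
    exact_mod_cast (encard_le_encard hsub).trans (encard_image_le _ _)
  · have hRR : (0:ℝ) < R * R' := mul_pos hR0 hR0'
    have hrr : (0:ℝ) < r * r' := mul_pos hr hr'
    rw [Real.log_mul (by norm_num) hRR.ne', Real.log_mul (by norm_num) hrr.ne',
      Real.log_div hRR.ne' hrr.ne']
    ring

end Pool.Agent.J4H16.LI
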