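import Pool.Agent.J4H16.LI.Top9

/-! Project LI, sixth part: the closed orbits which are not too small. -/

open Set MeasureTheory Filter Topology
open scoped ENNReal

namespace Pool.Agent.J4H16.LI

/-- **the large closed orbits** -/
theorem large2 (hCY : S_CYC) (hC : S_CMP) (hE : S_EQ) (hI : S_IDN) (hT : S_TV)
    {g : ℝ → ℝ} (hgs : ContDiff ℝ 1 g) (hg0 : ∀ x : ℝ, x ≠ 0 → 0 < x * g x) {κ H : ℝ}
    (hκ : 1 ≤ κ) {p : Polynomial ℝ} (hp0 : p.eval 0 = 0) {M R r : ℝ} (hM : 0 < M)
    (hr : 0 < r) (hR : r ≤ R) (hnd : Nd (fun y => y) g κ R H) (hlip : ∀ x, |x| ≤ R → |p.eval x| ≤ M * |x|) :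
    (∀ s C, ClosedOrbit (fld (lie fun x => p.eval x) g s) C → C ⊆ strip R → |s| ≤ M) ∧
    ∃ G : ℝ → ℝ≥0∞, Measurable G ∧
      (∀ s, (({C | ClosedOrbit (fld (lie fun x => p.eval x) g s) C ∧
        C ⊆ strip R ∧ ¬ C ⊆ strip r}.encard : ℕ∞) : ℝ≥0∞) ≤ G s) ∧
      ∫⁻ s, G s ≤ ENNReal.ofReal
        (CQ (2 * M) κ * Real.log (2 * κ ^ 2 * (1 + 2 * M) * (1 + 4 * M) * (R / r))) := by
  have hκ0 : 0 < κ := by linarith
  have hR0 : 0 < R := lt_of_lt_of_le hr hR
  set F : ℝ → ℝ := fun x => p.eval x with hF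
  have hpc : ContDiff ℝ 1 F := by
    simpa [hF, Polynomial.aeval_def, Polynomial.eval₂_eq_eval_map] using
      p.contDiff_aeval (𝕜 := ℝ) 1
  have hS : Sys (lie F) g := sys_gen (φ := fun y => y) F hpc hp0 contDiff_id hgs hnd hκ0 hg0
  set K : ℝ := 2 * M with hK
  have hK0 : 0 ≤ K := by positivity
  have hCK : 0 < CQ K κ := by
    unfold CQ
    positivity
  -- the data of a closed orbit in the strip
  have hdata : ∀ s C, ClosedOrbit (fld (lie F) g s) C → C ⊆ strip R →
      ∃ (B Y : ℝ) (u v : ℝ → ℝ), Dat2 F g K κ s B Y u v ∧ C = crv B Y u v ∧ |s| ≤ M ∧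
        max B Y ≤ 2 * κ * (1 + K) * R ∧ (∀ y, u y ≤ κ * (1 + 2 * K) * max B Y) ∧
        ∀ y, v y ≤ κ * (1 + 2 * K) * max B Y := by
    intro s C hO hCs
    obtain ⟨B, Y, u, v, h, rfl⟩ := hCY (lie F) g hS s C hO
    have hsub : crv B Y u v ⊆ box R (max B Y) := by
      rintro z hz
      refine ⟨hCs hz, abs_le.2 ⟨?_, ?_⟩⟩
      · linarith [hz.1.1, le_max_left B Y]
      · linarith [hz.1.2, le_max_right B Y]
    have hbx : Box (lie F) p.natDegree M R (max B Y) := by
      refine ⟨fun y _ => ⟨Polynomial.C y - p, ?_, fun x => by simp [lie, hF]⟩,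
        fun x y hx _ => ?_⟩
      · refine (Polynomial.natDegree_sub_le _ _).trans (max_le ?_ le_rfl)
        simp
      · simp only [lie, hF]
        rw [hp0, show y - p.eval x - (y - 0) = -p.eval x by ring, abs_neg]
        exact hlip x hx
    have hs := h.abs_le hI hS hR0.le hbx hsub
    obtain ⟨hu, hv, -, -⟩ := h.in_box hR0.le hsub
    have hu0 := h.right.nonneg
    have hv0 := h.v_nonneg
    have hbu : ∀ y, |F (u y) + s * u y| ≤ K * u y := by
      intro y
      have h1 := hlip (u y) (by rw [abs_of_nonneg (hu0 y)]; exact hu y)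
      rw [abs_of_nonneg (hu0 y)] at h1
      have h2 : |s * u y| ≤ M * u y := by
        rw [abs_mul, abs_of_nonneg (hu0 y)]
        exact mul_le_mul_of_nonneg_right hs (hu0 y)
      refine (abs_add_le _ _).trans ?_
      simp only [hF, hK]
      linarith
    have hbv : ∀ y, |-F (-v y) + s * v y| ≤ K * v y := by
      intro y
      have h1 := hlip (-(v y)) (by rw [abs_neg, abs_of_nonneg (hv0 _)]; exact hv _)
      rw [abs_neg, abs_of_nonneg (hv0 _)] at h1
      have h2 : |s * v y| ≤ M * v y := by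
        rw [abs_mul, abs_of_nonneg (hv0 _)]
        exact mul_le_mul_of_nonneg_right hs (hv0 _)
      refine (abs_add_le _ _).trans ?_
      rw [abs_neg]
      simp only [hF, hK]
      linarith
    have hl := h.left
    rw [mir_lie'] at hl
    have hbv' : ∀ y, |(fun x => -F (-x)) (v (-y)) + s * v (-y)| ≤ K * v (-y) :=
      fun y => hbv (-y)
    have hgu : Gar g κ B Y u := fun y hy => hnd.g hκ0 (h.right.pos y hy) (hu y)
    have hgv : Gar (mg g) κ Y B (fun y => v (-y)) :=
      fun y hy => hnd.mir.g hκ0 (h.left.pos y hy) (hv _)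
    have a3 := g2' (φ := fun y => y) h.right hK0 hκ hbu hu (fun y hy => le_mul_of_one_le_left hy.le hκ)
      (fun y hy => ⟨(hgu y hy).1, (hgu y hy).2.2⟩)
    have a4 := g2' (φ := fun y => y) hl hK0 hκ hbv' (fun y => hv _)
      (fun y hy => le_mul_of_one_le_left hy.le hκ) (fun y hy => ⟨(hgv y hy).1, (hgv y hy).2.2⟩)
    have a5 := wid2 h.right hK0 hκ hbu hgu
    have a6 := wid2 hl hK0 hκ hbv' hgv
    refine ⟨B, Y, u, v, ⟨h, hgu, hgv, hbu, hbv⟩, rfl, hs, max_le a4 a3, a5, fun y => ?_⟩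
    have := a6 (-y)
    simp only [neg_neg] at this
    rwa [max_comm] at this
  refine ⟨fun s C hO hCs => ?_, ?_⟩
  · obtain ⟨B, Y, u, v, -, -, h, -⟩ := hdata s C hO hCs
    exact h
  let ι : Type := {q : ℝ × Set (ℝ × ℝ) // ClosedOrbit (fld (lie F) g q.1) q.2 ∧
    q.2 ⊆ strip R ∧ ¬ q.2 ⊆ strip r}
  have hex := fun i : ι => hdata i.1.1 i.1.2 i.2.1 i.2.2.1
  choose B Y u v hdat hcrv hs hT1 huT hvT using hex
  set T : ι → ℝ := fun i => max (B i) (Y i) with hTd
  have hT0 : ∀ i, 0 < T i := fun i => lt_of_lt_of_le (hdat i).cyc.right.hY (le_max_right _ _)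
  have hTr : ∀ i, r / (κ * (1 + 2 * K)) ≤ T i := by
    intro i
    have hnot := i.2.2.2
    rw [hcrv i] at hnot
    obtain ⟨z, hz, hzr⟩ := not_subset.1 hnot
    have hzr' : r < |z.1| := by
      by_contra hcon
      exact hzr (not_lt.1 hcon)
    rw [div_le_iff₀ (by positivity)]
    rcases hz.2 with h | h
    · rw [h, abs_of_nonneg ((hdat i).cyc.right.nonneg _)] at hzr'
      have := huT i z.2
      simp only [hTd]
      linarith
    · rw [h, abs_neg, abs_of_nonneg ((hdat i).cyc.v_nonneg _)] at hzr'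
      have := hvT i z.2
      simp only [hTd]
      linarith
  set h : ι → ℝ := fun i => CQ K κ * (Real.log (T i) - Real.log (r / (κ * (1 + 2 * K)))) with hh
  have hdis : ∀ i j : ι, |j.1.1 - i.1.1| ≤ K := by
    intro i j
    refine (abs_sub _ _).trans ?_
    have h1 := hs i
    have h2 := hs j
    simp only [hK]
    linarith
  have hsame : ∀ i j : ι, i.1.1 = j.1.1 → Y i = Y j → i = j := by
    intro i j h3 h2
    have hci := (hdat i).cyc
    have hcj := (hdat j).cyc
    rw [← h3, ← h2] at hcj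
    obtain ⟨e1, e2⟩ := hE (lie F) g hS _ _ _ _ _ _ hci.right hcj.right
    have hcl := hcj.left
    rw [← e1] at hcl
    obtain ⟨-, e3⟩ := hE (mΦ (lie F)) (mg g) hS.mir _ _ _ _ _ _ hci.left hcl
    have e4 : v i = v j := by
      funext y
      have := congrFun e3 (-y)
      simpa using this
    apply Subtype.ext
    apply Prod.ext h3
    rw [hcrv i, hcrv j, e1, h2, e2, e4]
  have hsame' : ∀ i j : ι, i.1.1 = j.1.1 → B i = B j → i = j := by
    intro i j h3 h2
    have hci := (hdat i).cyc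
    have hcj := (hdat j).cyc
    rw [← h3, ← h2] at hcj
    obtain ⟨e1, -⟩ := hE (mΦ (lie F)) (mg g) hS.mir _ _ _ _ _ _ hci.left hcj.left
    exact hsame i j h3 e1
  have hin : ∀ i j : ι, (∀ y, u i y ≤ u j y ∧ v i y ≤ v j y) →
      |j.1.1 - i.1.1| ≤ h j - h i ∧ (h i = h j → i = j) := by
    intro i j hn
    obtain ⟨q1, q2, q3⟩ := (hdat i).pairT hκ (hdat j) hK0 hn (hdis i j)
    have q4 : |j.1.1 - i.1.1| ≤ h j - h i := by
      simp only [hh]
      refine q2.trans (le_of_eq ?_)
      simp only [hTd]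
      ring
    refine ⟨q4, fun he => ?_⟩
    rw [he, sub_self] at q4
    have q5 : i.1.1 = j.1.1 := by
      have := abs_nonpos_iff.1 q4
      linarith
    have q6 : Real.log (T i) = Real.log (T j) := by
      simp only [hh] at he
      have := mul_left_cancel₀ hCK.ne' he
      linarith
    have q7 : T i = T j := Real.log_injOn_pos (mem_Ioi.2 (hT0 i)) (mem_Ioi.2 (hT0 j)) q6
    rcases q3 q7 with h1 | h1
    · exact hsame i j q5 h1
    · exact hsame' i j q5 h1
  have hnest : ∀ i j : ι, i ≠ j → (∀ y, u i y ≤ u j y ∧ v i y ≤ v j y) ∨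
      (∀ y, u j y ≤ u i y ∧ v j y ≤ v i y) := by
    have aux : ∀ i j : ι, i ≠ j → i.1.1 ≤ j.1.1 → (∀ y, u i y ≤ u j y ∧ v i y ≤ v j y) ∨
      (∀ y, u j y ≤ u i y ∧ v j y ≤ v i y) := by
      intro i j hij hle
      have hne : i.1.1 < j.1.1 ∨ Y i ≠ Y j := by
        by_contra hcon
        push Not at hcon
        exact hij (hsame i j (le_antisymm hle hcon.1) hcon.2)
      rcases nested hC hS (hdat i).cyc (hdat j).cyc hle hne with h1 | h1
      · exact Or.inr h1.1
      · exact Or.inl h1.1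
    intro i j hij
    rcases le_total i.1.1 j.1.1 with hle | hle
    · exact aux i j hij hle
    · exact (aux j i hij.symm hle).symm
  have hinj : Function.Injective h := by
    intro i j hij
    by_contra hne
    rcases hnest i j hne with h1 | h1
    · exact hne ((hin i j h1).2 hij)
    · exact hne ((hin j i h1).2 hij.symm).symm
  have hlip' : ∀ i j : ι, |i.1.1 - j.1.1| ≤ |h i - h j| := by
    intro i j
    rcases eq_or_ne i j with rfl | hij
    · simp
    · rcases hnest i j hij with h1 | h1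
      · rw [abs_sub_comm (i.1.1), abs_sub_comm (h i)]
        exact (hin i j h1).1.trans (le_abs_self _)
      · exact (hin j i h1).1.trans (le_abs_self _)
  have hr0 : 0 < r / (κ * (1 + 2 * K)) := by positivity
  set top : ℝ := CQ K κ * Real.log (2 * κ ^ 2 * (1 + 2 * M) * (1 + 4 * M) * (R / r)) with htop
  have e0 : 2 * κ ^ 2 * (1 + 2 * M) * (1 + 4 * M) * (R / r) =
      2 * κ * (1 + K) * R / (r / (κ * (1 + 2 * K))) := by
    simp only [hK]
    field_simp
    ring
  have hrange : ∀ i, h i ∈ Icc 0 top := by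
    intro i
    constructor
    · simp only [hh]
      refine mul_nonneg hCK.le ?_
      have := Real.log_le_log hr0 (hTr i)
      linarith
    · simp only [hh, htop]
      refine mul_le_mul_of_nonneg_left ?_ hCK.le
      rw [e0, Real.log_div (by positivity) hr0.ne']
      have := Real.log_le_log (hT0 i) (hT1 i)
      simp only [hTd]
      linarith
  have hab : (0:ℝ) ≤ top := by
    refine mul_nonneg hCK.le (Real.log_nonneg ?_)
    have h1 : 1 ≤ R / r := (one_le_div hr).2 hR
    have h3 : 1 ≤ κ ^ 2 := one_le_pow₀ hκ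
    have h4 : 1 ≤ 2 * (1 + 2 * M) * (1 + 4 * M) := by nlinarith
    have h2 : 1 ≤ 2 * κ ^ 2 * (1 + 2 * M) * (1 + 4 * M) := by nlinarith
    nlinarith
  obtain ⟨G, hG, hGN, hGI⟩ := hT ι (fun i => i.1.1) h 0 top hab hinj hrange hlip'
  refine ⟨G, hG, fun s => ?_, hGI.trans (ENNReal.ofReal_le_ofReal (le_of_eq ?_))⟩
  · refine le_trans ?_ (hGN s)
    have hsub : {C | ClosedOrbit (fld (lie F) g s) C ∧ C ⊆ strip R ∧ ¬ C ⊆ strip r} ⊆
        (fun i : ι => i.1.2) '' {i : ι | i.1.1 = s} := by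
      rintro C hCm
      exact ⟨⟨(s, C), hCm⟩, rfl, rfl⟩
    exact_mod_cast (encard_le_encard hsub).trans (encard_image_le _ _)
  · rw [htop]
    ring

end Pool.Agent.J4H16.LI
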