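import Pool.Agent.J4H16.LI.Top5
import Pool.Agent.J4H16.DV.Main

/-! Project LI, seventh part: Lienard systems with bounded damping `|F'| ≤ M`. -/

open Set MeasureTheory Filter Topology
open scoped ENNReal

namespace Pool.Agent.J4H16.LI

variable {Φ : ℝ → ℝ → ℝ} {g : ℝ → ℝ}

/-- the identity for `φ(y) - q(x)`, in terms of `q` -/
lemma Cyc.ident_q (hI : S_IDN) {φ q g : ℝ → ℝ} (hS : Sys (fun x y => φ y - q x) g) {σ B Y : ℝ}
    {u v : ℝ → ℝ} (h : Cyc (fun x y => φ y - q x) g σ B Y u v) :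
    σ * area u v = ∫ y, (q (-v y) - q (u y)) := by
  rw [h.ident hI hS]
  congr 1
  funext y
  ring

lemma Cyc.int_q {φ q g : ℝ → ℝ} (hS : Sys (fun x y => φ y - q x) g) {σ B Y : ℝ}
    {u v : ℝ → ℝ} (h : Cyc (fun x y => φ y - q x) g σ B Y u v) :
    Integrable fun y => q (-v y) - q (u y) := by
  have := h.int_diff hS
  refine this.congr (Filter.Eventually.of_forall fun y => ?_)
  simp only
  ring

/-- two nested closed orbits, `q` Lipschitz -/
theorem pair_q (hI : S_IDN) {φ q g : ℝ → ℝ} (hS : Sys (fun x y => φ y - q x) g)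
    {σ₁ σ₂ B₁ Y₁ B₂ Y₂ m ρ : ℝ} {u₁ v₁ u₂ v₂ : ℝ → ℝ}
    (h1 : Cyc (fun x y => φ y - q x) g σ₁ B₁ Y₁ u₁ v₁)
    (h2 : Cyc (fun x y => φ y - q x) g σ₂ B₂ Y₂ u₂ v₂)
    (hn : ∀ y, u₁ y ≤ u₂ y ∧ v₁ y ≤ v₂ y) (hm : 0 ≤ m)
    (hu : ∀ y, u₂ y ≤ ρ) (hv : ∀ y, v₂ y ≤ ρ)
    (hq : ∀ a b, |a| ≤ ρ → |b| ≤ ρ → |q a - q b| ≤ m * |a - b|) :
    |σ₂ - σ₁| * area u₂ v₂ ≤ 2 * m * (area u₂ v₂ - area u₁ v₁) := by
  have hi1 : Integrable fun y => u₁ y + v₁ y := h1.int_u.add h1.int_v
  have hi2 : Integrable fun y => u₂ y + v₂ y := h2.int_u.add h2.int_v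
  have hA1 := h1.area_pos
  have hA2 := h2.area_pos
  have hu1 := h1.right.nonneg
  have hv1 := h1.v_nonneg
  have hu2 := h2.right.nonneg
  have hv2 := h2.v_nonneg
  have e1 := h1.ident_q hI hS
  have e2 := h2.ident_q hI hS
  have i1 := h1.int_q hS
  have i2 := h2.int_q hS
  have ed : area u₂ v₂ - area u₁ v₁ = ∫ y, ((u₂ y + v₂ y) - (u₁ y + v₁ y)) := by
    unfold area
    rw [integral_sub hi2 hi1]
  have hd0 : 0 ≤ area u₂ v₂ - area u₁ v₁ := by
    rw [ed]
    exact integral_nonneg fun y => by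
      have := hn y
      simp only [Pi.zero_apply]
      linarith [this.1, this.2]
  have hs1 : |σ₁| ≤ m := by
    refine le_of_mul_le_mul_right ?_ hA1
    have : |σ₁| * area u₁ v₁ = |∫ y, (q (-v₁ y) - q (u₁ y))| := by
      rw [← e1, abs_mul, abs_of_pos hA1]
    rw [this]
    refine (abs_integral_le_integral_abs).trans ?_
    unfold area
    rw [← integral_const_mul]
    refine integral_mono i1.abs (hi1.const_mul m) fun y => ?_
    have h3 := hq (-v₁ y) (u₁ y)
      (by rw [abs_neg, abs_of_nonneg (hv1 y)]; exact (hn y).2.trans (hv y))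
      (by rw [abs_of_nonneg (hu1 y)]; exact (hn y).1.trans (hu y))
    refine h3.trans (le_of_eq ?_)
    rw [show -v₁ y - u₁ y = -(u₁ y + v₁ y) by ring, abs_neg,
      abs_of_nonneg (add_nonneg (hu1 y) (hv1 y))]
  have h3 : |σ₂ * area u₂ v₂ - σ₁ * area u₁ v₁| ≤ m * (area u₂ v₂ - area u₁ v₁) := by
    rw [e1, e2, ← integral_sub i2 i1, ed, ← integral_const_mul]
    refine (abs_integral_le_integral_abs).trans ?_
    refine integral_mono (i2.sub i1).abs ((hi2.sub hi1).const_mul m) fun y => ?_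
    have a1 := hq (-v₂ y) (-v₁ y) (by rw [abs_neg, abs_of_nonneg (hv2 y)]; exact hv y)
      (by rw [abs_neg, abs_of_nonneg (hv1 y)]; exact (hn y).2.trans (hv y))
    have a2 := hq (u₁ y) (u₂ y) (by rw [abs_of_nonneg (hu1 y)]; exact (hn y).1.trans (hu y))
      (by rw [abs_of_nonneg (hu2 y)]; exact hu y)
    have b1 : |(-v₂ y) - (-v₁ y)| = v₂ y - v₁ y := by
      rw [show (-v₂ y) - (-v₁ y) = -(v₂ y - v₁ y) by ring, abs_neg,
        abs_of_nonneg (by linarith [(hn y).2])]
    have b2 : |u₁ y - u₂ y| = u₂ y - u₁ y := by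
      rw [abs_sub_comm, abs_of_nonneg (by linarith [(hn y).1])]
    rw [b1] at a1
    rw [b2] at a2
    have e : (q (-v₂ y) - q (u₂ y)) - (q (-v₁ y) - q (u₁ y)) =
        (q (-v₂ y) - q (-v₁ y)) + (q (u₁ y) - q (u₂ y)) := by ring
    simp only [Pi.sub_apply]
    rw [e]
    refine (abs_add_le _ _).trans ?_
    linarith
  have h5 : (σ₂ - σ₁) * area u₂ v₂ = (σ₂ * area u₂ v₂ - σ₁ * area u₁ v₁) -
      σ₁ * (area u₂ v₂ - area u₁ v₁) := by ring
  have h6 : |σ₂ - σ₁| * area u₂ v₂ = |(σ₂ - σ₁) * area u₂ v₂| := by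
    rw [abs_mul, abs_of_pos hA2]
  rw [h6, h5]
  refine (abs_sub _ _).trans ?_
  rw [abs_mul σ₁, abs_of_nonneg hd0]
  have h7 := mul_le_mul_of_nonneg_right hs1 hd0
  linarith

/-- **the main theorem for bounded damping** -/
theorem main7 (hCY : S_CYC) (hC : S_CMP) (hE : S_EQ) (hI : S_IDN) (hT : S_TV)
    (hBE : S_BE) {φ g : ℝ → ℝ} (hφ : ContDiff ℝ 1 φ) (hgs : ContDiff ℝ 1 g)
    (hg0 : ∀ x : ℝ, x ≠ 0 → 0 < x * g x)
    {n : ℕ} (hn : 1 ≤ n) {p : Polynomial ℝ}
    (hp : p.natDegree ≤ n) (hp0 : p.eval 0 = 0) {M R κ : ℝ} (hM : 0 < M) (hR : 0 < R)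
    (hκ : 1 ≤ κ) (hnd : Nd φ g κ R (2 * κ * (1 + 2 * M) * R))
    (hder : ∀ x, |x| ≤ R → |p.derivative.eval x| ≤ M) :
    (∀ s C, ClosedOrbit (fld (fun x y => φ y - p.eval x) g s) C → C ⊆ strip R →
      |s| ≤ M) ∧
    ∃ G : ℝ → ℝ≥0∞, Measurable G ∧
      (∀ s, (({C | ClosedOrbit (fld (fun x y => φ y - p.eval x) g s) C ∧
        C ⊆ strip R}.encard : ℕ∞) : ℝ≥0∞) ≤ G s) ∧
      ∫⁻ s, G s ≤ ENNReal.ofReal
        (16 * M * Real.log (1 + 16 * κ ^ 3 * (1 + 2 * M) * n)) := by
  have hlip : ∀ x, |x| ≤ R → |p.eval x| ≤ M * |x| := by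
    intro x hx
    have := (convex_Icc (-R) R).norm_image_sub_le_of_norm_hasDerivWithin_le
      (f := fun t => p.eval t) (f' := fun t => p.derivative.eval t) (C := M)
      (fun t _ => (p.hasDerivAt t).hasDerivWithinAt)
      (fun t ht => by rw [Real.norm_eq_abs]; exact hder t (abs_le.2 ht))
      (show (0:ℝ) ∈ Icc (-R) R from ⟨by linarith, hR.le⟩) (abs_le.1 hx)
    simpa [Real.norm_eq_abs, hp0] using this
  have hκ0 : 0 < κ := by linarith
  set Φ : ℝ → ℝ → ℝ := fun x y => φ y - p.eval x with hΦ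
  set c : ℝ := p.derivative.eval 0 with hc
  set Ψ : ℝ → ℝ → ℝ := fun x y => φ y - (p.eval x - c * x) with hΨ
  have hpc : ContDiff ℝ 1 fun x => p.eval x := by
    simpa [Polynomial.aeval_def, Polynomial.eval₂_eq_eval_map] using p.contDiff_aeval (𝕜 := ℝ) 1
  have hS : Sys Φ g := sys_gen _ hpc hp0 hφ hgs hnd hκ0 hg0
  have hSΨ : Sys Ψ g := by
    refine sys_gen _ (hpc.sub (contDiff_const.mul contDiff_id)) ?_ hφ hgs hnd hκ0 hg0
    simp [hp0]
  have hconv : ∀ s x y, Φ x y - s * x = Ψ x y - (s + c) * x := by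
    intro s x y
    simp only [hΦ, hΨ]
    ring
  have hbe := hBE n p hp hp0 M R hR hM.le hlip
  -- the data of a closed orbit in the strip
  have hdata : ∀ s C, ClosedOrbit (fld Φ g s) C → C ⊆ strip R →
      ∃ (B Y : ℝ) (u v : ℝ → ℝ), Cyc Φ g s B Y u v ∧ C = crv B Y u v ∧ |s| ≤ M ∧
        (∀ y, u y ≤ R) ∧ (∀ y, v y ≤ R) ∧
        (∀ y, u y ^ 2 ≤ 8 * κ ^ 3 * (1 + 2 * M) * area u v) ∧
        (∀ y, v y ^ 2 ≤ 8 * κ ^ 3 * (1 + 2 * M) * area u v) ∧
        area u v ≤ 8 * κ ^ 3 * (1 + 2 * M) * R ^ 2 := by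
    intro s C hO hCs
    obtain ⟨B, Y, u, v, h, rfl⟩ := hCY Φ g hS s C hO
    have hsub : crv B Y u v ⊆ box R (max B Y) := by
      rintro z hz
      refine ⟨hCs hz, abs_le.2 ⟨?_, ?_⟩⟩
      · linarith [hz.1.1, le_max_left B Y]
      · linarith [hz.1.2, le_max_right B Y]
    have hbx : Box Φ n M R (max B Y) := by
      refine ⟨fun y _ => ⟨Polynomial.C (φ y) - p, ?_, fun x => by simp [hΦ]⟩, fun x y hx _ => ?_⟩
      · refine (Polynomial.natDegree_sub_le _ _).trans (max_le ?_ hp)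
        simp
      · simp only [hΦ]
        rw [hp0, show φ y - p.eval x - (φ y - 0) = -p.eval x by ring, abs_neg]
        exact hlip x hx
    have hs := h.abs_le hI hS hR.le hbx hsub
    obtain ⟨hu, hv, hBm, hYm⟩ := h.in_box hR.le hsub
    have hu0 := h.right.nonneg
    have hv0 := h.v_nonneg
    have hi : area u v = (∫ y, u y) + ∫ y, v y := integral_add h.int_u h.int_v
    have hiu : 0 ≤ ∫ y, u y := integral_nonneg hu0
    have hiv : 0 ≤ ∫ y, v y := integral_nonneg hv0
    have hK : (0:ℝ) ≤ 2 * M := by positivity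
    have hbu : ∀ y, |p.eval (u y) + s * u y| ≤ 2 * M * u y := by
      intro y
      have h1 := hlip (u y) (by rw [abs_of_nonneg (hu0 y)]; exact hu y)
      rw [abs_of_nonneg (hu0 y)] at h1
      have h2 : |s * u y| ≤ M * u y := by
        rw [abs_mul, abs_of_nonneg (hu0 y)]
        exact mul_le_mul_of_nonneg_right hs (hu0 y)
      exact (abs_add_le _ _).trans (by linarith)
    have hl := h.left
    rw [hΦ, mir_gen, mg_gen] at hl
    have hbv : ∀ y, |(fun x => -p.eval (-x)) (v (-y)) + s * v (-y)| ≤ 2 * M * v (-y) := by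
      intro y
      have h1 := hlip (-(v (-y))) (by rw [abs_neg, abs_of_nonneg (hv0 _)]; exact hv _)
      rw [abs_neg, abs_of_nonneg (hv0 _)] at h1
      have h2 : |s * v (-y)| ≤ M * v (-y) := by
        rw [abs_mul, abs_of_nonneg (hv0 _)]
        exact mul_le_mul_of_nonneg_right hs (hv0 _)
      refine (abs_add_le _ _).trans ?_
      simp only [abs_neg]
      linarith
    have hgu : ∀ y ∈ Ioo (-B) Y, 0 < g (u y) ∧ u y ≤ κ * g (u y) ∧ g (u y) ≤ κ * u y :=
      fun y hy => hnd.g hκ0 (h.right.pos y hy) (hu y)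
    have hgv : ∀ y ∈ Ioo (-Y) B, 0 < -g (-v (-y)) ∧ v (-y) ≤ κ * (-g (-v (-y))) ∧
        -g (-v (-y)) ≤ κ * v (-y) :=
      fun y hy => hnd.mir.g hκ0 (h.left.pos y hy) (hv (-y))
    have a3 : Y ≤ 2 * κ * (1 + 2 * M) * R := g2' h.right hK hκ hbu hu (fun y hy => hnd.low' hy)
      (fun y hy => ⟨(hgu y hy).1, (hgu y hy).2.2⟩)
    have a4 : B ≤ 2 * κ * (1 + 2 * M) * R := g2' hl hK hκ hbv (fun y => hv _)
      (fun y hy => hnd.mir.low' hy) (fun y hy => ⟨(hgv y hy).1, (hgv y hy).2.2⟩)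
    have a1 := g1' h.right hK hκ hbu (hnd.low hκ0)
      (fun y hy => hnd.upp hκ0 (abs_le.2 ⟨by linarith [hy.1], by linarith [hy.2]⟩))
      (fun y hy => ⟨(hgu y hy).1, (hgu y hy).2.1⟩)
    have a2 := g1' hl hK hκ hbv (hnd.mir.low hκ0)
      (fun y hy => hnd.mir.upp hκ0 (abs_le.2 ⟨by linarith [hy.1], by linarith [hy.2]⟩))
      (fun y hy => ⟨(hgv y hy).1, (hgv y hy).2.1⟩)
    rw [integral_neg_eq_self v volume] at a2
    have hcst : 0 ≤ 8 * κ ^ 3 * (1 + 2 * M) := by positivity
    refine ⟨B, Y, u, v, h, rfl, hs, hu, hv, fun y => ?_, fun y => ?_, ?_⟩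
    · refine (a1 y).trans ?_
      rw [hi]
      exact mul_le_mul_of_nonneg_left (by linarith) hcst
    · have := a2 (-y)
      simp only [neg_neg] at this
      refine this.trans ?_
      rw [hi]
      exact mul_le_mul_of_nonneg_left (by linarith) hcst
    · have hsub2 : crv B Y u v ⊆ box R (2 * κ * (1 + 2 * M) * R) := by
        rintro z hz
        refine ⟨hCs hz, abs_le.2 ⟨?_, ?_⟩⟩
        · linarith [hz.1.1]
        · linarith [hz.1.2]
      refine (h.area_le hR.le hsub2).trans ?_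
      have q1 : κ ≤ κ ^ 3 := by
        calc κ = κ ^ 1 := (pow_one κ).symm
          _ ≤ κ ^ 3 := pow_le_pow_right₀ hκ (by norm_num)
      have q2 : 0 ≤ 8 * (1 + 2 * M) * R ^ 2 := by positivity
      have q3 := mul_le_mul_of_nonneg_left q1 q2
      linarith
  refine ⟨fun s C hO hCs => ?_, ?_⟩
  · obtain ⟨B, Y, u, v, -, -, h, -⟩ := hdata s C hO hCs
    exact h
  let ι : Type := {q : ℝ × Set (ℝ × ℝ) // ClosedOrbit (fld Φ g q.1) q.2 ∧ q.2 ⊆ strip R}
  have hex := fun i : ι => hdata i.1.1 i.1.2 i.2.1 i.2.2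
  choose B Y u v hcyc hcrv hs hu hv huA hvA hAle using hex
  have hA0 : ∀ i, 0 < area (u i) (v i) := fun i => (hcyc i).area_pos
  have hcycΨ : ∀ i, Cyc Ψ g (i.1.1 + c) (B i) (Y i) (u i) (v i) := fun i =>
    (hcyc i).congr (hconv _)
  set L : ℝ := 8 * κ ^ 3 * (1 + 2 * M) with hL
  have hL0 : 0 < L := by positivity
  have hn1 : (1:ℝ) ≤ n := by exact_mod_cast hn
  have hn0 : (0:ℝ) < n := by linarith
  set β : ℝ := 2 * n * √L / R with hβ
  have hβ0 : 0 < β := by positivity
  set qq : ι → ℝ := fun i => β * √(area (u i) (v i)) with hqq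
  have hq0 : ∀ i, 0 < qq i := fun i => by
    have := hA0 i
    positivity
  have hc1 : |c| ≤ M := hder 0 (by simpa using hR.le)
  have hin : ∀ i j : ι, ((∀ y, u i y ≤ u j y ∧ v i y ≤ v j y) ∧ ∃ y, u i y < u j y) →
      |j.1.1 - i.1.1| < 16 * M * Real.log (1 + qq j) - 16 * M * Real.log (1 + qq i) := by
    rintro i j ⟨hn', hx⟩
    have hlt := area_lt (hcyc i) (hcyc j) hn' hx
    have haj := hA0 j
    have hai := hA0 i
    set ρ : ℝ := min R √(L * area (u j) (v j)) with hρ
    have huρ : ∀ y, u j y ≤ ρ := fun y => le_min (hu j y) (Real.le_sqrt_of_sq_le (huA j y))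
    have hvρ : ∀ y, v j y ≤ ρ := fun y => le_min (hv j y) (Real.le_sqrt_of_sq_le (hvA j y))
    have hρR : ρ ≤ R := min_le_left _ _
    have hρq : 2 * n * ρ / R ≤ qq j := by
      simp only [hqq, hβ]
      have h1 : ρ ≤ √L * √(area (u j) (v j)) := by
        rw [← Real.sqrt_mul hL0.le]
        exact min_le_right _ _
      have h2 := mul_le_mul_of_nonneg_left h1 (by positivity : 0 ≤ 2 * n / R)
      calc 2 * n * ρ / R = 2 * n / R * ρ := by ring
        _ ≤ 2 * n / R * (√L * √(area (u j) (v j))) := h2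
        _ = 2 * n * √L / R * √(area (u j) (v j)) := by ring
    set m : ℝ := 2 * M * min 1 (qq j) with hm
    have hm0 : 0 ≤ m := by
      have := (hq0 j).le
      have := le_min zero_le_one this
      positivity
    -- the slope on the interval
    have hsl : ∀ x, |x| ≤ ρ → |p.derivative.eval x - c| ≤ m := by
      intro x hx
      have hxR : |x| ≤ R := hx.trans hρR
      have h1 : |p.derivative.eval x - c| ≤ 2 * M := by
        refine (abs_sub _ _).trans ?_
        have := hder x hxR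
        linarith
      rcases le_or_gt 1 (qq j) with h2 | h2
      · rw [hm, min_eq_left h2, mul_one]
        exact h1
      · rw [hm, min_eq_right h2.le]
        have h3 : ρ ≤ R / 2 := by
          have h4 : 2 * n * ρ / R < 1 := lt_of_le_of_lt hρq h2
          rw [div_lt_one hR] at h4
          have h5 : 0 ≤ ρ := (abs_nonneg x).trans hx
          nlinarith
        have h4 := hbe x (hx.trans h3)
        have h5 : 4 * n * M / R * |x| ≤ 2 * M * (2 * n * ρ / R) := by
          have h6 := mul_le_mul_of_nonneg_left hx (by positivity : 0 ≤ 4 * n * M / R)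
          calc 4 * n * M / R * |x| ≤ 4 * n * M / R * ρ := h6
            _ = 2 * M * (2 * n * ρ / R) := by ring
        exact h4.trans (h5.trans (mul_le_mul_of_nonneg_left hρq (by positivity)))
    have hql : ∀ a b, |a| ≤ ρ → |b| ≤ ρ →
        |(p.eval a - c * a) - (p.eval b - c * b)| ≤ m * |a - b| := by
      intro a b ha hb
      have := (convex_Icc (-ρ) ρ).norm_image_sub_le_of_norm_hasDerivWithin_le
        (f := fun t => p.eval t - c * t) (f' := fun t => p.derivative.eval t - c) (C := m)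
        (fun t _ => by
          have h3 := (p.hasDerivAt t).sub ((hasDerivAt_id t).const_mul c)
          simp only [mul_one] at h3
          exact h3.hasDerivWithinAt)
        (fun t ht => by rw [Real.norm_eq_abs]; exact hsl t (abs_le.2 ht))
        (abs_le.1 hb) (abs_le.1 ha)
      simpa [Real.norm_eq_abs] using this
    have hp := pair_q (φ := φ) (q := fun x => p.eval x - c * x) hI hSΨ (hcycΨ i) (hcycΨ j) hn' hm0
      huρ hvρ hql
    have e : j.1.1 + c - (i.1.1 + c) = j.1.1 - i.1.1 := by ring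
    rw [e] at hp
    have h1 : |j.1.1 - i.1.1| ≤ 4 * M * (min 1 (qq j) * ((area (u j) (v j) - area (u i) (v i)) /
        area (u j) (v j))) := by
      rw [← mul_assoc, mul_div_assoc', le_div_iff₀ haj]
      refine hp.trans (le_of_eq ?_)
      ring
    have hsq : ∀ k, qq k ^ 2 = β ^ 2 * area (u k) (v k) := by
      intro k
      simp only [hqq]
      rw [mul_pow, Real.sq_sqrt (hA0 k).le]
    have h2 : (area (u j) (v j) - area (u i) (v i)) / area (u j) (v j) =
        (qq j ^ 2 - qq i ^ 2) / qq j ^ 2 := by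
      rw [hsq, hsq, ← mul_sub, mul_div_mul_left _ _ (by positivity)]
    have h3 : qq i < qq j := by
      have h4 : qq i ^ 2 < qq j ^ 2 := by
        rw [hsq, hsq]
        exact mul_lt_mul_of_pos_left hlt (by positivity)
      exact lt_of_pow_lt_pow_left₀ 2 (hq0 j).le h4
    rw [h2] at h1
    have h5 := DV.potential (hq0 i).le h3
    have h6 := mul_lt_mul_of_pos_left h5 (by positivity : 0 < 4 * M)
    linarith
  set h : ι → ℝ := fun i => 16 * M * Real.log (1 + qq i) with hh
  have hdich : ∀ i j : ι, i ≠ j → |j.1.1 - i.1.1| < |h j - h i| := by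
    have aux : ∀ i j : ι, i ≠ j → i.1.1 ≤ j.1.1 → |j.1.1 - i.1.1| < |h j - h i| := by
      intro i j hij hle
      have hne : i.1.1 < j.1.1 ∨ Y i ≠ Y j := by
        by_contra hcon
        push Not at hcon
        obtain ⟨h1, h2⟩ := hcon
        have h3 : i.1.1 = j.1.1 := le_antisymm hle h1
        apply hij
        have hci := hcyc i
        have hcj := hcyc j
        rw [← h3, ← h2] at hcj
        obtain ⟨e1, e2⟩ := hE Φ g hS _ _ _ _ _ _ hci.right hcj.right
        have hcl := hcj.left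
        rw [← e1] at hcl
        obtain ⟨-, e3⟩ := hE (mΦ Φ) (mg g) hS.mir _ _ _ _ _ _ hci.left hcl
        have e4 : v i = v j := by
          funext y
          have := congrFun e3 (-y)
          simpa using this
        apply Subtype.ext
        apply Prod.ext h3
        rw [hcrv i, hcrv j, e1, h2, e2, e4]
      rcases nested hC hS (hcyc i) (hcyc j) hle hne with h1 | h1
      · have h2 := hin j i h1
        rw [abs_sub_comm (j.1.1)]
        rw [abs_sub_comm (h j)]
        exact h2.trans_le (le_abs_self _)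
      · exact (hin i j h1).trans_le (le_abs_self _)
    intro i j hij
    rcases le_total i.1.1 j.1.1 with hle | hle
    · exact aux i j hij hle
    · have := aux j i hij.symm hle
      rwa [abs_sub_comm (i.1.1), abs_sub_comm (h i)] at this
  have hinj : Function.Injective h := by
    intro i j hij
    by_contra hne
    have := hdich i j hne
    rw [hij, sub_self, abs_zero] at this
    exact absurd (abs_nonneg _) (not_le.2 this)
  set top : ℝ := 16 * M * Real.log (1 + 16 * κ ^ 3 * (1 + 2 * M) * n) with htop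
  have eL : 16 * κ ^ 3 * (1 + 2 * M) * n = 2 * n * L := by
    rw [hL]
    ring
  have hlog0 : 0 ≤ Real.log (1 + 16 * κ ^ 3 * (1 + 2 * M) * n) := by
    apply Real.log_nonneg
    rw [eL]
    have : 0 < 2 * n * L := by positivity
    linarith
  have hab : (0:ℝ) ≤ top := by positivity
  have hrange : ∀ i, h i ∈ Icc 0 top := by
    intro i
    constructor
    · simp only [hh]
      exact mul_nonneg (by positivity) (Real.log_nonneg (by linarith [hq0 i]))
    · simp only [hh, htop]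
      refine mul_le_mul_of_nonneg_left ?_ (by positivity)
      apply Real.log_le_log (by linarith [hq0 i])
      have h9 : √(area (u i) (v i)) ≤ √L * R := by
        apply Real.sqrt_le_iff.2
        refine ⟨by positivity, ?_⟩
        rw [mul_pow, Real.sq_sqrt hL0.le]
        exact hAle i
      have h10 : qq i ≤ β * (√L * R) := mul_le_mul_of_nonneg_left h9 hβ0.le
      have h11 : β * (√L * R) = 2 * n * L := by
        have : β * (√L * R) = 2 * n * (√L * √L) := by
          rw [hβ]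
          field_simp
        rw [this, Real.mul_self_sqrt hL0.le]
      rw [eL]
      linarith
  have hlip' : ∀ i j : ι, |i.1.1 - j.1.1| ≤ |h i - h j| := by
    intro i j
    rcases eq_or_ne i j with rfl | hij
    · simp
    · have := hdich i j hij
      rw [abs_sub_comm (i.1.1), abs_sub_comm (h i)]
      exact this.le
  obtain ⟨G, hG, hGN, hGI⟩ := hT ι (fun i => i.1.1) h 0 top hab hinj hrange hlip'
  refine ⟨G, hG, fun s => ?_, hGI.trans (ENNReal.ofReal_le_ofReal (le_of_eq ?_))⟩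
  · refine le_trans ?_ (hGN s)
    have hsub : {C | ClosedOrbit (fld Φ g s) C ∧ C ⊆ strip R} ⊆
        (fun i : ι => i.1.2) '' {i : ι | i.1.1 = s} := by
      rintro C hCm
      exact ⟨⟨(s, C), hCm⟩, rfl, rfl⟩
    exact_mod_cast (encard_le_encard hsub).trans (encard_image_le _ _)
  · rw [htop]
    ring

end Pool.Agent.J4H16.LI
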