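import Pool.Agent.J4H16.LI.Top12
import Pool.Agent.J4H16.LI.G13
import Pool.Agent.J4H16.DV.Stm3

/-! Project LI, seventh part: systems `x' = Φ(x, y) - s x`, `y' = - g(x)` with `|∂Φ/∂x| ≤ M`. -/

open Set MeasureTheory Filter Topology
open scoped ENNReal

namespace Pool.Agent.J4H16.LI

variable {Φ : ℝ → ℝ → ℝ} {g : ℝ → ℝ}

/-- the integrand is zero outside -/
lemma dif_le {Ψ : ℝ → ℝ → ℝ} {m ρ B Y : ℝ} {u v : ℝ → ℝ} (hu0 : ∀ y, 0 ≤ u y) (hv0 : ∀ y, 0 ≤ v y)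
    (hout : ∀ y ∉ Ioo (-B) Y, u y = 0 ∧ v y = 0) (hu : ∀ y, u y ≤ ρ) (hv : ∀ y, v y ≤ ρ)
    (hq : ∀ y ∈ Ioo (-B) Y, ∀ a b, |a| ≤ ρ → |b| ≤ ρ → |Ψ a y - Ψ b y| ≤ m * |a - b|) (y : ℝ) :
    |Ψ (u y) y - Ψ (-v y) y| ≤ m * (u y + v y) := by
  by_cases hy : y ∈ Ioo (-B) Y
  · have h3 := hq y hy (u y) (-v y) (by rw [abs_of_nonneg (hu0 y)]; exact hu y)
      (by rw [abs_neg, abs_of_nonneg (hv0 y)]; exact hv y)
    refine h3.trans (le_of_eq ?_)
    rw [sub_neg_eq_add, abs_of_nonneg (add_nonneg (hu0 y) (hv0 y))]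
  · obtain ⟨h1, h2⟩ := hout y hy
    rw [h1, h2]
    simp

/-- two nested closed orbits, `Ψ` Lipschitz in `x` -/
theorem pair_x (hI : S_IDN) {Ψ : ℝ → ℝ → ℝ} (hS : Sys Ψ g)
    {σ₁ σ₂ B₁ Y₁ B₂ Y₂ m ρ : ℝ} {u₁ v₁ u₂ v₂ : ℝ → ℝ}
    (h1 : Cyc Ψ g σ₁ B₁ Y₁ u₁ v₁) (h2 : Cyc Ψ g σ₂ B₂ Y₂ u₂ v₂)
    (hn : ∀ y, u₁ y ≤ u₂ y ∧ v₁ y ≤ v₂ y)
    (hu : ∀ y, u₂ y ≤ ρ) (hv : ∀ y, v₂ y ≤ ρ)
    (hq : ∀ y ∈ Ioo (-B₂) Y₂, ∀ a b, |a| ≤ ρ → |b| ≤ ρ → |Ψ a y - Ψ b y| ≤ m * |a - b|) :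
    |σ₁| ≤ m ∧ |σ₂ - σ₁| * area u₂ v₂ ≤ 2 * m * (area u₂ v₂ - area u₁ v₁) := by
  have hi1 : Integrable fun y => u₁ y + v₁ y := h1.int_u.add h1.int_v
  have hi2 : Integrable fun y => u₂ y + v₂ y := h2.int_u.add h2.int_v
  have hA1 := h1.area_pos
  have hA2 := h2.area_pos
  have hu1 := h1.right.nonneg
  have hv1 := h1.v_nonneg
  have hu2 := h2.right.nonneg
  have hv2 := h2.v_nonneg
  have e1 := h1.ident hI hS
  have e2 := h2.ident hI hS
  have i1 := h1.int_diff hS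
  have i2 := h2.int_diff hS
  have hout2 : ∀ y ∉ Ioo (-B₂) Y₂, u₂ y = 0 ∧ v₂ y = 0 := fun y hy =>
    ⟨h2.right.out y hy, h2.v_out hy⟩
  have hout1 : ∀ y ∉ Ioo (-B₂) Y₂, u₁ y = 0 ∧ v₁ y = 0 := fun y hy => by
    obtain ⟨a, b⟩ := hout2 y hy
    have := hn y
    exact ⟨le_antisymm (by linarith [this.1]) (hu1 y), le_antisymm (by linarith [this.2]) (hv1 y)⟩
  have ed : area u₂ v₂ - area u₁ v₁ = ∫ y, ((u₂ y + v₂ y) - (u₁ y + v₁ y)) := by
    unfold area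
    rw [integral_sub hi2 hi1]
  have hd0 : 0 ≤ area u₂ v₂ - area u₁ v₁ := by
    rw [ed]
    exact integral_nonneg fun y => by
      have := hn y
      simp only [Pi.zero_apply]
      linarith [this.1, this.2]
  have hs1 : |σ₁| ≤ m := by
    refine le_of_mul_le_mul_right ?_ hA1
    have : |σ₁| * area u₁ v₁ = |∫ y, (Ψ (u₁ y) y - Ψ (-v₁ y) y)| := by
      rw [← e1, abs_mul, abs_of_pos hA1]
    rw [this]
    refine (abs_integral_le_integral_abs).trans ?_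
    unfold area
    rw [← integral_const_mul]
    refine integral_mono i1.abs (hi1.const_mul m) fun y => ?_
    exact dif_le hu1 hv1 hout1 (fun y => (hn y).1.trans (hu y)) (fun y => (hn y).2.trans (hv y)) hq y
  have h3 : |σ₂ * area u₂ v₂ - σ₁ * area u₁ v₁| ≤ m * (area u₂ v₂ - area u₁ v₁) := by
    rw [e1, e2, ← integral_sub i2 i1, ed, ← integral_const_mul]
    refine (abs_integral_le_integral_abs).trans ?_
    refine integral_mono (i2.sub i1).abs ((hi2.sub hi1).const_mul m) fun y => ?_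
    simp only
    by_cases hy : y ∈ Ioo (-B₂) Y₂
    · have a1 := hq y hy (-v₁ y) (-v₂ y)
        (by rw [abs_neg, abs_of_nonneg (hv1 y)]; exact (hn y).2.trans (hv y))
        (by rw [abs_neg, abs_of_nonneg (hv2 y)]; exact hv y)
      have a2 := hq y hy (u₂ y) (u₁ y) (by rw [abs_of_nonneg (hu2 y)]; exact hu y)
        (by rw [abs_of_nonneg (hu1 y)]; exact (hn y).1.trans (hu y))
      have b1 : |(-v₁ y) - (-v₂ y)| = v₂ y - v₁ y := by
        rw [show (-v₁ y) - (-v₂ y) = v₂ y - v₁ y by ring, abs_of_nonneg (by linarith [(hn y).2])]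
      have b2 : |u₂ y - u₁ y| = u₂ y - u₁ y := abs_of_nonneg (by linarith [(hn y).1])
      rw [b1] at a1
      rw [b2] at a2
      have e : (Ψ (u₂ y) y - Ψ (-v₂ y) y) - (Ψ (u₁ y) y - Ψ (-v₁ y) y) =
          (Ψ (u₂ y) y - Ψ (u₁ y) y) + (Ψ (-v₁ y) y - Ψ (-v₂ y) y) := by ring
      rw [e]
      refine (abs_add_le _ _).trans ?_
      linarith
    · obtain ⟨c1, c2⟩ := hout2 y hy
      obtain ⟨c3, c4⟩ := hout1 y hy
      rw [c1, c2, c3, c4]
      simp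
  refine ⟨hs1, ?_⟩
  have h5 : (σ₂ - σ₁) * area u₂ v₂ = (σ₂ * area u₂ v₂ - σ₁ * area u₁ v₁) -
      σ₁ * (area u₂ v₂ - area u₁ v₁) := by ring
  have h6 : |σ₂ - σ₁| * area u₂ v₂ = |(σ₂ - σ₁) * area u₂ v₂| := by
    rw [abs_mul, abs_of_pos hA2]
  rw [h6, h5]
  refine (abs_sub _ _).trans ?_
  rw [abs_mul σ₁, abs_of_nonneg hd0]
  have h7 := mul_le_mul_of_nonneg_right hs1 hd0
  linarith

/-- comparable with the identity -/
structure Cmp (φ : ℝ → ℝ) (κ H : ℝ) : Prop where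
  l : ∀ y, |y| ≤ H → y ^ 2 ≤ κ * (y * φ y)
  u : ∀ y, |y| ≤ H → y * φ y ≤ κ * y ^ 2

lemma Cmp.mir {φ : ℝ → ℝ} {κ H : ℝ} (h : Cmp φ κ H) : Cmp (fun y => -φ (-y)) κ H where
  l := fun y hy => by
    have := h.l (-y) (by rwa [abs_neg])
    have e : y * -φ (-y) = -y * φ (-y) := by ring
    rw [e]
    rwa [neg_sq] at this
  u := fun y hy => by
    have := h.u (-y) (by rwa [abs_neg])
    have e : y * -φ (-y) = -y * φ (-y) := by ring
    rw [e]
    rwa [neg_sq] at this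

lemma Cmp.low {φ : ℝ → ℝ} {κ H : ℝ} (h : Cmp φ κ H) (hκ : 0 < κ) {y : ℝ} (hy : |y| ≤ H) :
    |y| ≤ κ * |φ y| := by
  rcases eq_or_ne y 0 with rfl | hy0
  · simpa using mul_nonneg hκ.le (abs_nonneg (φ 0))
  · have h1 := h.l y hy
    have h2 : y * φ y ≤ |y| * |φ y| := by
      rw [← abs_mul]
      exact le_abs_self _
    have h3 := mul_le_mul_of_nonneg_left h2 hκ.le
    have h4 : 0 < |y| := abs_pos.2 hy0
    have h5 : |y| * |y| = y ^ 2 := by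
      rw [← sq, sq_abs]
    refine le_of_mul_le_mul_left ?_ h4
    rw [h5]
    calc y ^ 2 ≤ κ * (|y| * |φ y|) := h1.trans h3
      _ = |y| * (κ * |φ y|) := by ring

lemma Cmp.low' {φ : ℝ → ℝ} {κ H : ℝ} (h : Cmp φ κ H) {y : ℝ} (hy : 0 < y) (hyH : y ≤ H) :
    y ≤ κ * φ y := by
  refine le_of_mul_le_mul_left ?_ hy
  calc y * y = y ^ 2 := by ring
    _ ≤ κ * (y * φ y) := h.l y (by rwa [abs_of_pos hy])
    _ = y * (κ * φ y) := by ring

lemma Cmp.upp {φ : ℝ → ℝ} {κ H : ℝ} (h : Cmp φ κ H) (hκ : 0 < κ) (h0 : φ 0 = 0) {y : ℝ}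
    (hy : |y| ≤ H) : |φ y| ≤ κ * |y| := by
  rcases eq_or_ne y 0 with rfl | hy0
  · simp [h0]
  · have h1 := h.u y hy
    have h6 : 0 ≤ y * φ y := by
      have h7 := h.l y hy
      have h8 : 0 ≤ κ * (y * φ y) := (sq_nonneg y).trans h7
      exact nonneg_of_mul_nonneg_right h8 hκ
    have h4 : 0 < |y| := abs_pos.2 hy0
    have h5 : |y| * |y| = y ^ 2 := by
      rw [← sq, sq_abs]
    refine le_of_mul_le_mul_left ?_ h4
    calc |y| * |φ y| = y * φ y := by rw [← abs_mul, abs_of_nonneg h6]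
      _ ≤ κ * y ^ 2 := h1
      _ = |y| * (κ * |y|) := by
          rw [← h5]
          ring

lemma Cmp.pos {g : ℝ → ℝ} {κ R : ℝ} (h : Cmp g κ R) (hκ : 0 < κ) {x : ℝ} (hx : 0 < x)
    (hxR : x ≤ R) : 0 < g x ∧ x ≤ κ * g x ∧ g x ≤ κ * x := by
  have ha : |x| ≤ R := by rwa [abs_of_pos hx]
  have h1 : x ≤ κ * g x := h.low' hx hxR
  refine ⟨?_, h1, ?_⟩
  · have h2 : 0 < κ * g x := hx.trans_le h1
    exact (pos_iff_pos_of_mul_pos h2).1 hκ
  · refine le_of_mul_le_mul_left ?_ hx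
    calc x * g x ≤ κ * x ^ 2 := h.u x ha
      _ = x * (κ * x) := by ring

lemma Sys.zz (hS : Sys Φ g) : Φ 0 0 = 0 := by
  have hc : Continuous fun y => Φ 0 y := by
    have := hS.smΦ.continuous
    exact this.comp (continuous_const.prodMk continuous_id)
  apply le_antisymm
  · have h1 : Tendsto (fun y => Φ 0 y) (nhdsWithin 0 (Iio 0)) (nhds (Φ 0 0)) :=
      hc.continuousAt.continuousWithinAt
    refine le_of_tendsto h1 ?_
    filter_upwards [self_mem_nhdsWithin] with y hy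
    have h2 := hS.posΦ y (ne_of_lt hy)
    have h3 : y < 0 := hy
    by_contra hcon
    push Not at hcon
    have := mul_nonpos_of_nonpos_of_nonneg h3.le hcon.le
    linarith
  · have h1 : Tendsto (fun y => Φ 0 y) (nhdsWithin 0 (Ioi 0)) (nhds (Φ 0 0)) :=
      hc.continuousAt.continuousWithinAt
    refine ge_of_tendsto h1 ?_
    filter_upwards [self_mem_nhdsWithin] with y hy
    have h2 := hS.posΦ y (ne_of_gt hy)
    have h3 : 0 < y := hy
    by_contra hcon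
    push Not at hcon
    have := mul_nonpos_of_nonneg_of_nonpos h3.le hcon.le
    linarith

/-- the width and the height of an arc in a box -/
theorem arc_box (hS : Sys Φ g) {s B Y M K κ R H : ℝ} {u : ℝ → ℝ} (h : Arc Φ g s B Y u)
    (hκ : 1 ≤ κ) (hs : |s| ≤ M) (hKM : K = 2 * M) (hu : ∀ y, u y ≤ R) (hB : B ≤ H) (hY : Y ≤ H)
    (hφ : Cmp (fun y => Φ 0 y) κ H) (hg : Cmp g κ R)
    (hlip : ∀ x y, |x| ≤ R → |y| ≤ H → |Φ x y - Φ 0 y| ≤ M * |x|) :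
    (∀ y, u y ^ 2 ≤ 8 * κ ^ 3 * (1 + K) * ∫ t, u t) ∧
      ∀ r, (∀ y, u y ≤ r) → Y ≤ 2 * κ * (1 + K) * r := by
  classical
  have hκ0 : 0 < κ := by linarith
  have hM0 : 0 ≤ M := (abs_nonneg s).trans hs
  have hK0 : 0 ≤ K := by
    rw [hKM]
    positivity
  have hu0 := h.nonneg
  set φ' : ℝ → ℝ := fun y => if |y| ≤ H then Φ 0 y else y with hφ'
  set F' : ℝ → ℝ := fun y => if |y| ≤ H then Φ 0 y - Φ (u y) y else 0 with hF'
  have hin : ∀ y ∈ Ioo (-B) Y, |y| ≤ H := fun y hy =>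
    abs_le.2 ⟨by linarith [hy.1], by linarith [hy.2]⟩
  have hArc : ArcF φ' F' g s B Y u := by
    refine ⟨h.hB, h.hY, h.cont, h.out, h.pos, fun y hy => ?_⟩
    refine (h.der y hy).congr_deriv ?_
    simp only [hφ', hF', if_pos (hin y hy)]
    congr 1
    ring
  have hF : ∀ y, |F' y + s * u y| ≤ K * u y := by
    intro y
    by_cases hy : |y| ≤ H
    · simp only [hF', if_pos hy]
      have h1 := hlip (u y) y (by rw [abs_of_nonneg (hu0 y)]; exact hu y) hy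
      rw [abs_of_nonneg (hu0 y), abs_sub_comm] at h1
      have h2 : |s * u y| ≤ M * u y := by
        rw [abs_mul, abs_of_nonneg (hu0 y)]
        exact mul_le_mul_of_nonneg_right hs (hu0 y)
      refine (abs_add_le _ _).trans ?_
      rw [hKM]
      linarith
    · simp only [hF', if_neg hy]
      have h1 : u y = 0 := h.out y fun h' => hy (hin y h')
      rw [h1]
      simp
  have hφl : ∀ y, |y| ≤ κ * |φ' y| := by
    intro y
    by_cases hy : |y| ≤ H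
    · simp only [hφ', if_pos hy]
      exact hφ.low hκ0 hy
    · simp only [hφ', if_neg hy]
      exact le_mul_of_one_le_left (abs_nonneg y) hκ
  have hφu : ∀ y ∈ Ioo (-B) Y, |φ' y| ≤ κ * |y| := by
    intro y hy
    simp only [hφ', if_pos (hin y hy)]
    exact hφ.upp hκ0 hS.zz (hin y hy)
  have hφl' : ∀ y, 0 < y → y ≤ κ * φ' y := by
    intro y hy0
    by_cases hy : |y| ≤ H
    · simp only [hφ', if_pos hy]
      exact hφ.low' hy0 ((le_abs_self y).trans hy)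
    · simp only [hφ', if_neg hy]
      exact le_mul_of_one_le_left hy0.le hκ
  have hgg := fun y (hy : y ∈ Ioo (-B) Y) => hg.pos hκ0 (h.pos y hy) (hu y)
  refine ⟨fun y => g1F hArc hK0 hκ hF hφl hφu (fun y hy => ⟨(hgg y hy).1, (hgg y hy).2.1⟩) y,
    fun r hr => g2F hArc hK0 hκ hF hr hφl' (fun y hy => ⟨(hgg y hy).1, (hgg y hy).2.2⟩)⟩

end Pool.Agent.J4H16.LI
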