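import Pool.Agent.J4H16.LI.Top14

/-! Project LI, seventh part: the main theorem for systems `x' = P(x, y) - s x`, `y' = - g(x)`. -/

open Set MeasureTheory Filter Topology
open scoped ENNReal

namespace Pool.Agent.J4H16.LI

open TH525.AG (ev)

/-- the polynomial as a function of two variables -/
noncomputable def pf (P : MvPolynomial (Fin 2) ℝ) : ℝ → ℝ → ℝ := fun x y => ev P (x, y)

lemma sys_pf {P : MvPolynomial (Fin 2) ℝ} {g : ℝ → ℝ} (hgs : ContDiff ℝ 1 g)
    (hg0 : ∀ x : ℝ, x ≠ 0 → 0 < x * g x) (hP0 : ∀ y : ℝ, y ≠ 0 → 0 < y * ev P (0, y)) :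
    Sys (pf P) g where
  smΦ := TH525.PU.evalH_contDiff P contDiff_fst contDiff_snd
  smg := hgs
  posΦ := hP0
  posg := hg0

/-- **the main theorem** -/
theorem main8 (hCY : S_CYC) (hC : S_CMP) (hE : S_EQ) (hI : S_IDN) (hT : S_TV) (hBX : DV.S_BX)
    (hDX : DV.S_DX) {P : MvPolynomial (Fin 2) ℝ} {g : ℝ → ℝ} (hgs : ContDiff ℝ 1 g)
    (hg0 : ∀ x : ℝ, x ≠ 0 → 0 < x * g x) (hP0 : ∀ y : ℝ, y ≠ 0 → 0 < y * ev P (0, y))
    {n : ℕ} (hn : 1 ≤ n) (hPd : (MvPolynomial.pderiv 0 P).totalDegree ≤ n - 1)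
    {M R H κ : ℝ} (hM : 0 < M) (hR : 0 < R) (hH : 0 < H) (hκ : 1 ≤ κ)
    (hφ : Cmp (fun y => pf P 0 y) κ H) (hg : Cmp g κ R)
    (hdx : ∀ x y : ℝ, |x| ≤ R → |y| ≤ H → |ev (MvPolynomial.pderiv 0 P) (x, y)| ≤ M) :
    (∀ s C, ClosedOrbit (fld (pf P) g s) C → C ⊆ box R H → |s| ≤ M) ∧
    ∃ G : ℝ → ℝ≥0∞, Measurable G ∧
      (∀ s, (({C | ClosedOrbit (fld (pf P) g s) C ∧ C ⊆ box R H}.encard : ℕ∞) : ℝ≥0∞) ≤ G s) ∧
      ∫⁻ s, G s ≤ ENNReal.ofReal
        (16 * M * Real.log (1 + 32 * κ ^ 4 * (1 + 2 * M) ^ 2 * (1 + R / H) * n)) := by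
  have hκ0 : 0 < κ := by linarith
  set Φ : ℝ → ℝ → ℝ := pf P with hΦ
  set DP : MvPolynomial (Fin 2) ℝ := MvPolynomial.pderiv 0 P with hDP
  set c : ℝ := ev DP 0 with hc
  set Ψ : ℝ → ℝ → ℝ := fun x y => Φ x y - c * x with hΨ
  have hS : Sys Φ g := sys_pf hgs hg0 hP0
  have hSΨ : Sys Ψ g := by
    refine ⟨?_, hgs, fun y hy => ?_, hg0⟩
    · exact hS.smΦ.sub (contDiff_const.mul contDiff_fst)
    · simp only [hΨ, mul_zero, sub_zero]
      exact hS.posΦ y hy
  have hconv : ∀ s x y, Φ x y - s * x = Ψ x y - (s - c) * x := by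
    intro s x y
    simp only [hΨ]
    ring
  -- the Lipschitz bound
  have hlip2 : ∀ y, |y| ≤ H → ∀ a b, |a| ≤ R → |b| ≤ R → |Φ a y - Φ b y| ≤ M * |a - b| := by
    intro y hy a b ha hb
    have := (convex_Icc (-R) R).norm_image_sub_le_of_norm_hasDerivWithin_le
      (f := fun t => Φ t y) (f' := fun t => ev DP (t, y)) (C := M)
      (fun t _ => (hDX P t y).hasDerivWithinAt)
      (fun t ht => by rw [Real.norm_eq_abs]; exact hdx t y (abs_le.2 ht) hy)
      (abs_le.1 hb) (abs_le.1 ha)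
    simpa [Real.norm_eq_abs] using this
  have hlip : ∀ x y, |x| ≤ R → |y| ≤ H → |Φ x y - Φ 0 y| ≤ M * |x| := by
    intro x y hx hy
    have := hlip2 y hy x 0 hx (by simpa using hR.le)
    rwa [sub_zero] at this
  set L : ℝ := 8 * κ ^ 3 * (1 + 2 * M) with hL
  have hL0 : 0 < L := by positivity
  set h₀ : ℝ := 2 * κ * (1 + 2 * M) with hh₀
  have hh₀0 : 0 < h₀ := by positivity
  -- the data of a closed orbit in the box
  have hdata : ∀ s C, ClosedOrbit (fld Φ g s) C → C ⊆ box R H →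
      ∃ (B Y : ℝ) (u v : ℝ → ℝ), Cyc Φ g s B Y u v ∧ C = crv B Y u v ∧ |s| ≤ M ∧
        (∀ y, u y ≤ R) ∧ (∀ y, v y ≤ R) ∧ B ≤ H ∧ Y ≤ H ∧
        (∀ y, u y ^ 2 ≤ L * area u v) ∧ (∀ y, v y ^ 2 ≤ L * area u v) ∧
        (∀ r, (∀ y, u y ≤ r) → Y ≤ h₀ * r) ∧ (∀ r, (∀ y, v y ≤ r) → B ≤ h₀ * r) := by
    intro s C hO hCs
    obtain ⟨B, Y, u, v, h, rfl⟩ := hCY Φ g hS s C hO
    obtain ⟨hu, hv, hB, hY⟩ := h.in_box hR.le hCs
    have hu0 := h.right.nonneg
    have hv0 := h.v_nonneg
    have hs : |s| ≤ M := (pair_x hI hS h h (fun y => ⟨le_rfl, le_rfl⟩) hu hv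
      (fun y hy a b ha hb => hlip2 y
        (abs_le.2 ⟨by linarith [hy.1], by linarith [hy.2]⟩) a b ha hb)).1
    have a1 := arc_box hS h.right hκ hs rfl hu hB hY hφ hg hlip
    have a2 := arc_box hS.mir h.left hκ hs rfl (fun y => hv _) hY hB
      (by
        have := hφ.mir
        refine ⟨fun y hy => ?_, fun y hy => ?_⟩
        · have h1 := this.l y hy
          simp only [mΦ, neg_zero]
          exact h1
        · have h1 := this.u y hy
          simp only [mΦ, neg_zero]
          exact h1)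
      hg.mir
      (fun x y hx hy => by
        have h1 := hlip (-x) (-y) (by rwa [abs_neg]) (by rwa [abs_neg])
        simp only [mΦ, neg_zero]
        rw [abs_neg] at h1
        rw [← abs_neg]
        refine le_trans (le_of_eq ?_) h1
        congr 1
        ring)
    have hi : area u v = (∫ y, u y) + ∫ y, v y := integral_add h.int_u h.int_v
    have hiu : 0 ≤ ∫ y, u y := integral_nonneg hu0
    have hiv : 0 ≤ ∫ y, v y := integral_nonneg hv0
    obtain ⟨b1, b2⟩ := a1
    obtain ⟨b3, b4⟩ := a2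
    rw [integral_neg_eq_self v volume] at b3
    refine ⟨B, Y, u, v, h, rfl, hs, hu, hv, hB, hY, fun y => ?_, fun y => ?_, b2,
      fun r hr => b4 r fun y => hr _⟩
    · refine (b1 y).trans ?_
      rw [hi]
      exact mul_le_mul_of_nonneg_left (by linarith) hL0.le
    · have := b3 (-y)
      simp only [neg_neg] at this
      refine this.trans ?_
      rw [hi]
      exact mul_le_mul_of_nonneg_left (by linarith) hL0.le
  refine ⟨fun s C hO hCs => ?_, ?_⟩
  · obtain ⟨B, Y, u, v, -, -, h, -⟩ := hdata s C hO hCs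
    exact h
  let ι : Type := {q : ℝ × Set (ℝ × ℝ) // ClosedOrbit (fld Φ g q.1) q.2 ∧ q.2 ⊆ box R H}
  have hex := fun i : ι => hdata i.1.1 i.1.2 i.2.1 i.2.2
  choose B Y u v hcyc hcrv hs hu hv hBH hYH huA hvA hYr hBr using hex
  have hA0 : ∀ i, 0 < area (u i) (v i) := fun i => (hcyc i).area_pos
  have hcycΨ : ∀ i, Cyc Ψ g (i.1.1 - c) (B i) (Y i) (u i) (v i) := fun i =>
    (hcyc i).congr (hconv _)
  have hn1 : (1:ℝ) ≤ n := by exact_mod_cast hn
  have hn0 : (0:ℝ) < n := by linarith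
  set W : ℝ := max (1 / R) (h₀ / H) with hW
  have hW0 : 0 < W := lt_of_lt_of_le (by positivity) (le_max_left _ _)
  set β : ℝ := 2 * n * W * √L with hβ
  have hβ0 : 0 < β := by positivity
  set qq : ι → ℝ := fun i => β * √(area (u i) (v i)) with hqq
  have hq0 : ∀ i, 0 < qq i := fun i => by
    have := hA0 i
    positivity
  have hin : ∀ i j : ι, ((∀ y, u i y ≤ u j y ∧ v i y ≤ v j y) ∧ ∃ y, u i y < u j y) →
      |j.1.1 - i.1.1| < 16 * M * Real.log (1 + qq j) - 16 * M * Real.log (1 + qq i) := by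
    rintro i j ⟨hn', hx⟩
    have hlt := area_lt (hcyc i) (hcyc j) hn' hx
    have haj := hA0 j
    have hai := hA0 i
    set ρ₀ : ℝ := √(L * area (u j) (v j)) with hρ₀
    have hρ₀0 : 0 < ρ₀ := by positivity
    have huρ₀ : ∀ y, u j y ≤ ρ₀ := fun y => Real.le_sqrt_of_sq_le (huA j y)
    have hvρ₀ : ∀ y, v j y ≤ ρ₀ := fun y => Real.le_sqrt_of_sq_le (hvA j y)
    set ρ : ℝ := min R ρ₀ with hρ
    have huρ : ∀ y, u j y ≤ ρ := fun y => le_min (hu j y) (huρ₀ y)
    have hvρ : ∀ y, v j y ≤ ρ := fun y => le_min (hv j y) (hvρ₀ y)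
    have hρR : ρ ≤ R := min_le_left _ _
    set w : ℝ := ρ₀ * W with hw
    have hw0 : 0 ≤ w := by positivity
    have hwR : ρ₀ ≤ w * R := by
      have h1 : 1 ≤ W * R := by
        have := mul_le_mul_of_nonneg_right (le_max_left (1 / R) (h₀ / H)) hR.le
        rwa [one_div_mul_cancel hR.ne'] at this
      calc ρ₀ = ρ₀ * 1 := (mul_one _).symm
        _ ≤ ρ₀ * (W * R) := mul_le_mul_of_nonneg_left h1 hρ₀0.le
        _ = w * R := by rw [hw]; ring
    have hwH : h₀ * ρ₀ ≤ w * H := by
      have h1 : h₀ ≤ W * H := by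
        have := mul_le_mul_of_nonneg_right (le_max_right (1 / R) (h₀ / H)) hH.le
        rwa [div_mul_cancel₀ _ hH.ne'] at this
      calc h₀ * ρ₀ ≤ W * H * ρ₀ := mul_le_mul_of_nonneg_right h1 hρ₀0.le
        _ = w * H := by rw [hw]; ring
    have hwq : 2 * n * w = qq j := by
      simp only [hqq, hβ, hw, hρ₀]
      rw [Real.sqrt_mul hL0.le]
      ring
    set m : ℝ := 2 * M * min 1 (qq j) with hm
    -- the slope
    have hsl : ∀ y ∈ Ioo (-B j) (Y j), ∀ x, |x| ≤ ρ → |ev DP (x, y) - c| ≤ m := by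
      intro y hy x hx
      have hyH : |y| ≤ H := abs_le.2 ⟨by linarith [hy.1, hBH j], by linarith [hy.2, hYH j]⟩
      have hyw : |y| ≤ w * H := by
        refine le_trans ?_ hwH
        have h1 := hYr j ρ₀ huρ₀
        have h2 := hBr j ρ₀ hvρ₀
        exact abs_le.2 ⟨by linarith [hy.1], by linarith [hy.2]⟩
      have hb := hBX DP (n - 1) M R H hPd hR hH hM.le hdx w hw0 x y (hx.trans hρR) hyH
        (hx.trans ((min_le_right _ _).trans hwR)) hyw
      have e2 : (((n - 1 : ℕ) : ℝ) + 1) = n := by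
        rw [Nat.cast_sub hn]
        ring
      rw [e2, hwq] at hb
      exact hb
    have hql : ∀ y ∈ Ioo (-B j) (Y j), ∀ a b, |a| ≤ ρ → |b| ≤ ρ →
        |Ψ a y - Ψ b y| ≤ m * |a - b| := by
      intro y hy a b ha hb
      have := (convex_Icc (-ρ) ρ).norm_image_sub_le_of_norm_hasDerivWithin_le
        (f := fun t => Ψ t y) (f' := fun t => ev DP (t, y) - c) (C := m)
        (fun t _ => by
          have h3 := (hDX P t y).sub ((hasDerivAt_id t).const_mul c)
          simp only [mul_one] at h3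
          exact h3.hasDerivWithinAt)
        (fun t ht => by rw [Real.norm_eq_abs]; exact hsl y hy t (abs_le.2 ht))
        (abs_le.1 hb) (abs_le.1 ha)
      simpa [Real.norm_eq_abs] using this
    have hp := (pair_x hI hSΨ (hcycΨ i) (hcycΨ j) hn' huρ hvρ hql).2
    have e : j.1.1 - c - (i.1.1 - c) = j.1.1 - i.1.1 := by ring
    rw [e] at hp
    have h1 : |j.1.1 - i.1.1| ≤ 4 * M * (min 1 (qq j) * ((area (u j) (v j) - area (u i) (v i)) /
        area (u j) (v j))) := by
      rw [← mul_assoc, mul_div_assoc', le_div_iff₀ haj]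
      refine hp.trans (le_of_eq ?_)
      ring
    have hsq : ∀ k, qq k ^ 2 = β ^ 2 * area (u k) (v k) := by
      intro k
      simp only [hqq]
      rw [mul_pow, Real.sq_sqrt (hA0 k).le]
    have h2 : (area (u j) (v j) - area (u i) (v i)) / area (u j) (v j) =
        (qq j ^ 2 - qq i ^ 2) / qq j ^ 2 := by
      rw [hsq, hsq, ← mul_sub, mul_div_mul_left _ _ (by positivity)]
    have h3 : qq i < qq j := by
      have h4 : qq i ^ 2 < qq j ^ 2 := by
        rw [hsq, hsq]
        exact mul_lt_mul_of_pos_left hlt (by positivity)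
      exact lt_of_pow_lt_pow_left₀ 2 (hq0 j).le h4
    rw [h2] at h1
    have h5 := DV.potential (hq0 i).le h3
    have h6 := mul_lt_mul_of_pos_left h5 (by positivity : 0 < 4 * M)
    linarith
  set h : ι → ℝ := fun i => 16 * M * Real.log (1 + qq i) with hh
  have hdich : ∀ i j : ι, i ≠ j → |j.1.1 - i.1.1| < |h j - h i| := by
    have aux : ∀ i j : ι, i ≠ j → i.1.1 ≤ j.1.1 → |j.1.1 - i.1.1| < |h j - h i| := by
      intro i j hij hle
      have hne : i.1.1 < j.1.1 ∨ Y i ≠ Y j := by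
        by_contra hcon
        push Not at hcon
        obtain ⟨h1, h2⟩ := hcon
        have h3 : i.1.1 = j.1.1 := le_antisymm hle h1
        apply hij
        have hci := hcyc i
        have hcj := hcyc j
        rw [← h3, ← h2] at hcj
        obtain ⟨e1, e2⟩ := hE Φ g hS _ _ _ _ _ _ hci.right hcj.right
        have hcl := hcj.left
        rw [← e1] at hcl
        obtain ⟨-, e3⟩ := hE (mΦ Φ) (mg g) hS.mir _ _ _ _ _ _ hci.left hcl
        have e4 : v i = v j := by
          funext y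
          have := congrFun e3 (-y)
          simpa using this
        apply Subtype.ext
        apply Prod.ext h3
        rw [hcrv i, hcrv j, e1, h2, e2, e4]
      rcases nested hC hS (hcyc i) (hcyc j) hle hne with h1 | h1
      · have h2 := hin j i h1
        rw [abs_sub_comm (j.1.1)]
        rw [abs_sub_comm (h j)]
        exact h2.trans_le (le_abs_self _)
      · exact (hin i j h1).trans_le (le_abs_self _)
    intro i j hij
    rcases le_total i.1.1 j.1.1 with hle | hle
    · exact aux i j hij hle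
    · have := aux j i hij.symm hle
      rwa [abs_sub_comm (i.1.1), abs_sub_comm (h i)] at this
  have hinj : Function.Injective h := by
    intro i j hij
    by_contra hne
    have := hdich i j hne
    rw [hij, sub_self, abs_zero] at this
    exact absurd (abs_nonneg _) (not_le.2 this)
  set top : ℝ := 16 * M * Real.log (1 + 32 * κ ^ 4 * (1 + 2 * M) ^ 2 * (1 + R / H) * n) with htop
  have eL : 32 * κ ^ 4 * (1 + 2 * M) ^ 2 * (1 + R / H) * n = 2 * n * L * (h₀ * (1 + R / H)) := by
    rw [hL, hh₀]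
    ring
  have hlog0 : 0 ≤ Real.log (1 + 32 * κ ^ 4 * (1 + 2 * M) ^ 2 * (1 + R / H) * n) := by
    apply Real.log_nonneg
    have : 0 < 32 * κ ^ 4 * (1 + 2 * M) ^ 2 * (1 + R / H) * n := by positivity
    linarith
  have hab : (0:ℝ) ≤ top := by positivity
  have hrange : ∀ i, h i ∈ Icc 0 top := by
    intro i
    constructor
    · simp only [hh]
      exact mul_nonneg (by positivity) (Real.log_nonneg (by linarith [hq0 i]))
    · simp only [hh, htop]
      refine mul_le_mul_of_nonneg_left ?_ (by positivity)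
      apply Real.log_le_log (by linarith [hq0 i])
      have hAle : area (u i) (v i) ≤ L * R ^ 2 := by
        have hsub2 : crv (B i) (Y i) (u i) (v i) ⊆ box R (h₀ * R) := by
          rintro z hz
          have h1 := hYr i R (hu i)
          have h2 := hBr i R (hv i)
          have h3 : z ∈ box R H := by
            have := i.2.2
            rw [hcrv i] at this
            exact this hz
          exact ⟨h3.1, abs_le.2 ⟨by linarith [hz.1.1], by linarith [hz.1.2]⟩⟩
        refine ((hcyc i).area_le hR.le hsub2).trans ?_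
        have q1 : κ ≤ κ ^ 3 := by
          calc κ = κ ^ 1 := (pow_one κ).symm
            _ ≤ κ ^ 3 := pow_le_pow_right₀ hκ (by norm_num)
        have q2 : 0 ≤ 8 * (1 + 2 * M) * R ^ 2 := by positivity
        have q3 := mul_le_mul_of_nonneg_left q1 q2
        rw [hL, hh₀]
        linarith
      have h9 : √(area (u i) (v i)) ≤ √L * R := by
        apply Real.sqrt_le_iff.2
        refine ⟨by positivity, ?_⟩
        rw [mul_pow, Real.sq_sqrt hL0.le]
        exact hAle
      have h10 : qq i ≤ β * (√L * R) := mul_le_mul_of_nonneg_left h9 hβ0.le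
      have h11 : β * (√L * R) = 2 * n * L * (W * R) := by
        have : β * (√L * R) = 2 * n * (√L * √L) * (W * R) := by
          rw [hβ]
          ring
        rw [this, Real.mul_self_sqrt hL0.le]
      have h12 : W * R ≤ h₀ * (1 + R / H) := by
        have k1 : 1 ≤ h₀ := by
          rw [hh₀]
          nlinarith
        have k2 : 0 ≤ R / H := by positivity
        rw [hW, max_mul_of_nonneg _ _ hR.le, one_div_mul_cancel hR.ne']
        refine max_le ?_ ?_
        · nlinarith
        · have : h₀ / H * R = h₀ * (R / H) := by ring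
          rw [this]
          nlinarith
      have h13 := mul_le_mul_of_nonneg_left h12 (by positivity : 0 ≤ 2 * n * L)
      rw [eL]
      linarith
  have hlip' : ∀ i j : ι, |i.1.1 - j.1.1| ≤ |h i - h j| := by
    intro i j
    rcases eq_or_ne i j with rfl | hij
    · simp
    · have := hdich i j hij
      rw [abs_sub_comm (i.1.1), abs_sub_comm (h i)]
      exact this.le
  obtain ⟨G, hG, hGN, hGI⟩ := hT ι (fun i => i.1.1) h 0 top hab hinj hrange hlip'
  refine ⟨G, hG, fun s => ?_, hGI.trans (ENNReal.ofReal_le_ofReal (by rw [sub_zero]))⟩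
  refine le_trans ?_ (hGN s)
  have hsub : {C | ClosedOrbit (fld Φ g s) C ∧ C ⊆ box R H} ⊆
      (fun i : ι => i.1.2) '' {i : ι | i.1.1 = s} := by
    rintro C hCm
    exact ⟨⟨(s, C), hCm⟩, rfl, rfl⟩
  exact_mod_cast (encard_le_encard hsub).trans (encard_image_le _ _)

end Pool.Agent.J4H16.LI
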