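import Pool.Agent.J4H16.LI.Top
import Pool.Agent.J4H16.LI.Stm2

/-! Project LI, second part: all closed orbits of a classical Lienard system in a strip. -/

open Set MeasureTheory Filter Topology
open scoped ENNReal

namespace Pool.Agent.J4H16.LI

variable {Φ Ψ : ℝ → ℝ → ℝ} {g : ℝ → ℝ}

lemma Arc.congr {s s' B Y : ℝ} {u : ℝ → ℝ} (h : Arc Φ g s B Y u)
    (he : ∀ x y, Φ x y - s * x = Ψ x y - s' * x) : Arc Ψ g s' B Y u where
  hB := h.hB
  hY := h.hY
  cont := h.cont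
  out := h.out
  pos := h.pos
  der := fun y hy => by
    have := h.der y hy
    rwa [he] at this

lemma Cyc.congr {s s' B Y : ℝ} {u v : ℝ → ℝ} (h : Cyc Φ g s B Y u v)
    (he : ∀ x y, Φ x y - s * x = Ψ x y - s' * x) : Cyc Ψ g s' B Y u v where
  right := h.right.congr he
  left := h.left.congr fun x y => by
    have := he (-x) (-y)
    unfold mΦ
    linarith

/-- the classical Lienard systems satisfy the standing assumptions -/
lemma sys_lie (F : ℝ → ℝ) (hF : ContDiff ℝ 1 F) (h0 : F 0 = 0) :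
    Sys (fun x y => y - F x) (fun x => x) where
  smΦ := by
    have : (fun z : ℝ × ℝ => z.2 - F z.1) = fun z => z.2 - (F ∘ Prod.fst) z := rfl
    rw [this]
    exact contDiff_snd.sub (hF.comp contDiff_fst)
  smg := contDiff_id
  posΦ := fun y hy => by
    rw [h0, sub_zero]
    exact mul_self_pos.2 hy
  posg := fun x hx => mul_self_pos.2 hx

/-- the additive form of the majorant -/
lemma maj_add (hS : Sys Φ g) {s B Y : ℝ} {u v : ℝ → ℝ} (h : Cyc Φ g s B Y u v) (M : ℝ) :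
    maj Φ M u v = maj Φ 0 u v + M * area u v := by
  have hi2 : Integrable fun y => u y + v y := h.int_u.add h.int_v
  unfold maj area
  rw [← integral_const_mul, ← integral_add (h.int_sl hS 0) (hi2.const_mul _)]
  refine integral_congr_ae (Eventually.of_forall fun y => ?_)
  have hDc : Continuous fun t => Dx Φ t y :=
    (continuous_Dx hS).comp (continuous_id.prodMk continuous_const)
  simp only [sl, den, add_zero]
  rw [intervalIntegral.integral_add (hDc.abs.intervalIntegrable _ _) (by simp)]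
  simp only [intervalIntegral.integral_const, smul_eq_mul]
  ring

/-- the potential of the second part -/
lemma potential2 {n : ℕ} {M β A₁ A₂ m₁ m₂ : ℝ} (hM : 0 < M) (hβ : 0 < β) (hA : 0 < A₁)
    (hlt : A₁ < A₂)
    (hm : m₁ + 2 * M * min 1 (β * √A₁) * A₁ ≤ (2 * n + 1) * (2 * M * min 1 (β * √A₁)) * A₁) :
    ((m₂ - m₁) + 2 * M * min 1 (β * √A₁) * (A₂ - A₁)) / A₂ <
      (m₂ / A₂ + 4 * ((2 * n + 1) * (2 * M)) * Real.log (1 + β * √A₂)) -
      (m₁ / A₁ + 4 * ((2 * n + 1) * (2 * M)) * Real.log (1 + β * √A₁)) := by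
  have hA2 : 0 < A₂ := hA.trans hlt
  set K : ℝ := (2 * n + 1) * (2 * M) with hK
  have hK0 : 0 < K := by positivity
  set b₁ : ℝ := β * √A₁ with hb1
  set b₂ : ℝ := β * √A₂ with hb2
  set Ω : ℝ := 2 * M * min 1 b₁ with hΩ
  have hb10 : 0 < b₁ := by positivity
  have hb12 : b₁ < b₂ := mul_lt_mul_of_pos_left (Real.sqrt_lt_sqrt hA.le hlt) hβ
  have hb20 : 0 < b₂ := hb10.trans hb12
  have hq : A₁ / A₂ = b₁ ^ 2 / b₂ ^ 2 := by
    rw [hb1, hb2, mul_pow, mul_pow, Real.sq_sqrt hA.le, Real.sq_sqrt hA2.le]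
    field_simp
  have h1 : (b₂ - b₁) / (1 + b₂) < Real.log (1 + b₂) - Real.log (1 + b₁) := by
    have h2 : Real.log ((1 + b₁) / (1 + b₂)) < (1 + b₁) / (1 + b₂) - 1 := by
      apply Real.log_lt_sub_one_of_pos (by positivity)
      intro h
      rw [div_eq_one_iff_eq (by positivity)] at h
      linarith
    rw [Real.log_div (by positivity) (by positivity)] at h2
    have h3 : (1 + b₁) / (1 + b₂) - 1 = -((b₂ - b₁) / (1 + b₂)) := by
      field_simp
      ring
    rw [h3] at h2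
    linarith
  have h4 : m₁ / A₁ + Ω ≤ K * (2 * b₁ / (1 + b₁)) := by
    have h5 : m₁ / A₁ + Ω ≤ (2 * n + 1) * Ω := by
      have : m₁ / A₁ + Ω = (m₁ + Ω * A₁) / A₁ := by field_simp
      rw [this, div_le_iff₀ hA]
      exact hm
    have h6 : min 1 b₁ ≤ 2 * b₁ / (1 + b₁) := by
      rw [le_div_iff₀ (by positivity)]
      rcases le_total 1 b₁ with h | h
      · rw [min_eq_left h]
        linarith
      · rw [min_eq_right h]
        nlinarith
    calc m₁ / A₁ + Ω ≤ (2 * n + 1) * Ω := h5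
      _ = K * min 1 b₁ := by rw [hΩ, hK]; ring
      _ ≤ K * (2 * b₁ / (1 + b₁)) := mul_le_mul_of_nonneg_left h6 hK0.le
  have h7 : (m₁ / A₁ + Ω) * (1 - A₁ / A₂) ≤ 4 * K * ((b₂ - b₁) / (1 + b₂)) := by
    have h8 : 0 ≤ 1 - A₁ / A₂ := by
      rw [sub_nonneg, div_le_one hA2]
      exact hlt.le
    refine (mul_le_mul_of_nonneg_right h4 h8).trans ?_
    rw [hq]
    have h9 : 2 * b₁ / (1 + b₁) * (1 - b₁ ^ 2 / b₂ ^ 2) ≤ 4 * ((b₂ - b₁) / (1 + b₂)) := by
      have e1 : 2 * b₁ / (1 + b₁) * (1 - b₁ ^ 2 / b₂ ^ 2) =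
          (2 * b₁ * (b₂ ^ 2 - b₁ ^ 2)) / ((1 + b₁) * b₂ ^ 2) := by
        field_simp
      have e2 : 4 * ((b₂ - b₁) / (1 + b₂)) = (4 * (b₂ - b₁)) / (1 + b₂) := by ring
      rw [e1, e2, div_le_div_iff₀ (by positivity) (by positivity)]
      have hd : 0 ≤ b₂ - b₁ := by linarith
      have key : 2 * b₁ * (b₂ + b₁) * (1 + b₂) ≤ 4 * ((1 + b₁) * b₂ ^ 2) := by
        nlinarith [mul_pos hb10 hb20, mul_nonneg hd hb10.le, mul_nonneg hd hb20.le,
          mul_nonneg (mul_nonneg hd hb10.le) hb20.le]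
      have := mul_le_mul_of_nonneg_left key hd
      nlinarith
    have := mul_le_mul_of_nonneg_left h9 hK0.le
    calc K * (2 * b₁ / (1 + b₁)) * (1 - b₁ ^ 2 / b₂ ^ 2)
        = K * (2 * b₁ / (1 + b₁) * (1 - b₁ ^ 2 / b₂ ^ 2)) := by ring
      _ ≤ K * (4 * ((b₂ - b₁) / (1 + b₂))) := this
      _ = 4 * K * ((b₂ - b₁) / (1 + b₂)) := by ring
  have h10 := mul_lt_mul_of_pos_left h1 (by positivity : (0:ℝ) < 4 * K)
  have e3 : ((m₂ - m₁) + Ω * (A₂ - A₁)) / A₂ =
      m₂ / A₂ - m₁ / A₁ + (m₁ / A₁ + Ω) * (1 - A₁ / A₂) := by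
    field_simp
    ring
  rw [e3]
  linarith

end Pool.Agent.J4H16.LI
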