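import Pool.Agent.J4H16.LI.Top2

/-! Project LI, second part: the main theorem. -/

open Set MeasureTheory Filter Topology
open scoped ENNReal

namespace Pool.Agent.J4H16.LI

/-- the strip -/
def strip (R : ℝ) : Set (ℝ × ℝ) := {z | |z.1| ≤ R}

lemma mir_lie (F : ℝ → ℝ) : mΦ (fun x y => y - F x) = fun x y => y - (-F (-x)) := by
  funext x y
  simp only [mΦ]
  ring

lemma mg_lie : mg (fun x => x) = fun x => x := by
  funext x
  simp [mg]

/-- **the main theorem of the second part** -/
theorem main2 (hCY : S_CYC) (hC : S_CMP) (hE : S_EQ) (hI : S_IDN) (hP : S_POL) (hT : S_TV)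
    (hMK : S_MK) (hG1 : S_G1) (hG2 : S_G2) {n : ℕ} (hn : 1 ≤ n) {p : Polynomial ℝ}
    (hp : p.natDegree ≤ n) (hp0 : p.eval 0 = 0) {M R : ℝ} (hM : 0 < M) (hR : 0 < R)
    (hlip : ∀ x, |x| ≤ R → |p.eval x| ≤ M * |x|) :
    (∀ s C, ClosedOrbit (fld (fun x y => y - p.eval x) (fun x => x) s) C → C ⊆ strip R →
      |s| ≤ M) ∧
    ∃ G : ℝ → ℝ≥0∞, Measurable G ∧
      (∀ s, (({C | ClosedOrbit (fld (fun x y => y - p.eval x) (fun x => x) s) C ∧
        C ⊆ strip R}.encard : ℕ∞) : ℝ≥0∞) ≤ G s) ∧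
      ∫⁻ s, G s ≤ ENNReal.ofReal
        (4 * M * (n + (4 * n + 2) * Real.log (1 + 8 * n ^ 2 * (1 + 2 * M)))) := by
  set Φ : ℝ → ℝ → ℝ := fun x y => y - p.eval x with hΦ
  set g : ℝ → ℝ := fun x => x with hg
  set c : ℝ := p.derivative.eval 0 with hc
  set Ψ : ℝ → ℝ → ℝ := fun x y => y - (p.eval x - c * x) with hΨ
  have hpc : ContDiff ℝ 1 fun x => p.eval x := by
    simpa [Polynomial.aeval_def, Polynomial.eval₂_eq_eval_map] using p.contDiff_aeval (𝕜 := ℝ) 1
  have hS : Sys Φ g := sys_lie _ hpc hp0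
  have hSΨ : Sys Ψ g := by
    refine sys_lie _ (hpc.sub (contDiff_const.mul contDiff_id)) ?_
    simp [hp0]
  have hconv : ∀ s x y, Φ x y - s * x = Ψ x y - (s + c) * x := by
    intro s x y
    simp only [hΦ, hΨ]
    ring
  obtain ⟨hc1, hmk⟩ := hMK n p hp hp0 M R hR hM.le hlip
  -- the data of a closed orbit in the strip
  have hdata : ∀ s C, ClosedOrbit (fld Φ g s) C → C ⊆ strip R →
      ∃ (B Y : ℝ) (u v : ℝ → ℝ), Cyc Φ g s B Y u v ∧ C = crv B Y u v ∧ |s| ≤ M ∧
        (∀ y, u y ≤ R) ∧ (∀ y, v y ≤ R) ∧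
        (∀ y, u y ^ 2 ≤ 8 * (1 + 2 * M) * area u v) ∧
        (∀ y, v y ^ 2 ≤ 8 * (1 + 2 * M) * area u v) ∧
        area u v ≤ 8 * (1 + 2 * M) * R ^ 2 := by
    intro s C hO hCs
    obtain ⟨B, Y, u, v, h, rfl⟩ := hCY Φ g hS s C hO
    have hsub : crv B Y u v ⊆ box R (max B Y) := by
      rintro z hz
      refine ⟨hCs hz, abs_le.2 ⟨?_, ?_⟩⟩
      · linarith [hz.1.1, le_max_left B Y]
      · linarith [hz.1.2, le_max_right B Y]
    have hbx : Box Φ n M R (max B Y) := by
      refine ⟨fun y _ => ⟨Polynomial.C y - p, ?_, fun x => by simp [hΦ]⟩, fun x y hx _ => ?_⟩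
      · refine (Polynomial.natDegree_sub_le _ _).trans (max_le ?_ hp)
        simp
      · simp only [hΦ]
        rw [hp0, show y - p.eval x - (y - 0) = -p.eval x by ring, abs_neg]
        exact hlip x hx
    have hs := h.abs_le hI hS hR.le hbx hsub
    obtain ⟨hu, hv, hBm, hYm⟩ := h.in_box hR.le hsub
    have hu0 := h.right.nonneg
    have hv0 := h.v_nonneg
    have hi : area u v = (∫ y, u y) + ∫ y, v y := integral_add h.int_u h.int_v
    have hiu : 0 ≤ ∫ y, u y := integral_nonneg hu0
    have hiv : 0 ≤ ∫ y, v y := integral_nonneg hv0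
    have hK : (0:ℝ) ≤ 2 * M := by positivity
    have hbu : ∀ y, |p.eval (u y) + s * u y| ≤ 2 * M * u y := by
      intro y
      have h1 := hlip (u y) (by rw [abs_of_nonneg (hu0 y)]; exact hu y)
      rw [abs_of_nonneg (hu0 y)] at h1
      have h2 : |s * u y| ≤ M * u y := by
        rw [abs_mul, abs_of_nonneg (hu0 y)]
        exact mul_le_mul_of_nonneg_right hs (hu0 y)
      exact (abs_add_le _ _).trans (by linarith)
    have hl := h.left
    rw [hΦ, hg, mir_lie, mg_lie] at hl
    have hbv : ∀ y, |(fun x => -p.eval (-x)) (v (-y)) + s * v (-y)| ≤ 2 * M * v (-y) := by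
      intro y
      have h1 := hlip (-(v (-y))) (by rw [abs_neg, abs_of_nonneg (hv0 _)]; exact hv _)
      rw [abs_neg, abs_of_nonneg (hv0 _)] at h1
      have h2 : |s * v (-y)| ≤ M * v (-y) := by
        rw [abs_mul, abs_of_nonneg (hv0 _)]
        exact mul_le_mul_of_nonneg_right hs (hv0 _)
      refine (abs_add_le _ _).trans ?_
      simp only [abs_neg]
      linarith
    have a1 := hG1 (fun x => p.eval x) s B Y (2 * M) u h.right hK hbu
    have a2 := hG1 (fun x => -p.eval (-x)) s Y B (2 * M) (fun y => v (-y)) hl hK hbv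
    have a3 := hG2 (fun x => p.eval x) s B Y (2 * M) R u h.right hK hbu hu
    have a4 := hG2 (fun x => -p.eval (-x)) s Y B (2 * M) R (fun y => v (-y)) hl hK hbv
      (fun y => hv _)
    rw [integral_neg_eq_self v volume] at a2
    refine ⟨B, Y, u, v, h, rfl, hs, hu, hv, fun y => ?_, fun y => ?_, ?_⟩
    · refine (a1 y).trans ?_
      rw [hi]
      nlinarith
    · have := a2 (-y)
      simp only [neg_neg] at this
      refine this.trans ?_
      rw [hi]
      nlinarith
    · have hsub2 : crv B Y u v ⊆ box R (2 * (1 + 2 * M) * R) := by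
        rintro z hz
        refine ⟨hCs hz, abs_le.2 ⟨?_, ?_⟩⟩
        · linarith [hz.1.1]
        · linarith [hz.1.2]
      refine (h.area_le hR.le hsub2).trans (le_of_eq ?_)
      ring
  refine ⟨fun s C hO hCs => ?_, ?_⟩
  · obtain ⟨B, Y, u, v, -, -, h, -⟩ := hdata s C hO hCs
    exact h
  let ι : Type := {q : ℝ × Set (ℝ × ℝ) // ClosedOrbit (fld Φ g q.1) q.2 ∧ q.2 ⊆ strip R}
  have hex := fun i : ι => hdata i.1.1 i.1.2 i.2.1 i.2.2
  choose B Y u v hcyc hcrv hs hu hv huA hvA hAle using hex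
  have hA0 : ∀ i, 0 < area (u i) (v i) := fun i => (hcyc i).area_pos
  have hcycΨ : ∀ i, Cyc Ψ g (i.1.1 + c) (B i) (Y i) (u i) (v i) := fun i =>
    (hcyc i).congr (hconv _)
  set L : ℝ := 8 * (1 + 2 * M) with hL
  have hL0 : 0 < L := by positivity
  set β : ℝ := n ^ 2 * √L / R with hβ
  have hn1 : (1:ℝ) ≤ n := by exact_mod_cast hn
  have hβ0 : 0 < β := by positivity
  set Ω : ι → ℝ := fun i => 2 * M * min 1 (β * √(area (u i) (v i))) with hΩ
  have hΩ0 : ∀ i, 0 ≤ Ω i := fun i => by
    have := hA0 i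
    simp only [hΩ]
    positivity
  set ρ : ι → ℝ := fun i => min R √(L * area (u i) (v i)) with hρ
  have hρ0 : ∀ i, 0 ≤ ρ i := fun i => le_min hR.le (Real.sqrt_nonneg _)
  have huρ : ∀ i y, u i y ≤ ρ i := fun i y => le_min (hu i y)
    (Real.le_sqrt_of_sq_le (huA i y))
  have hvρ : ∀ i y, v i y ≤ ρ i := fun i y => le_min (hv i y)
    (Real.le_sqrt_of_sq_le (hvA i y))
  have hbx : ∀ i, Box Ψ n (Ω i) (ρ i) (max (B i) (Y i)) := by
    intro i
    refine ⟨fun y _ => ⟨Polynomial.C y - (p - Polynomial.C c * Polynomial.X), ?_,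
      fun x => by simp [hΨ]⟩, fun x y hx _ => ?_⟩
    · refine (Polynomial.natDegree_sub_le _ _).trans (max_le (by simp) ?_)
      refine (Polynomial.natDegree_sub_le _ _).trans (max_le hp ?_)
      refine (Polynomial.natDegree_C_mul_le _ _).trans ?_
      rw [Polynomial.natDegree_X]
      exact hn
    · simp only [hΨ]
      rw [hp0, show y - (p.eval x - c * x) - (y - (0 - c * 0)) = -(p.eval x - c * x) by ring,
        abs_neg]
      have hxR : |x| ≤ R := hx.trans (min_le_left _ _)
      have hxL : |x| ≤ √(L * area (u i) (v i)) := hx.trans (min_le_right _ _)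
      have hax := abs_nonneg x
      have b1 : |p.eval x - c * x| ≤ 2 * M * |x| := by
        have h1 := hlip x hxR
        have h2 : |c * x| ≤ M * |x| := by
          rw [abs_mul]
          exact mul_le_mul_of_nonneg_right hc1 hax
        exact (abs_sub _ _).trans (by linarith)
      have b2 := hmk x hxR
      have b3 : (n:ℝ) ^ 2 * |x| / R ≤ β * √(area (u i) (v i)) := by
        have e : β * √(area (u i) (v i)) = n ^ 2 * √(L * area (u i) (v i)) / R := by
          rw [Real.sqrt_mul hL0.le, hβ]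
          ring
        rw [e]
        gcongr
      simp only [hΩ]
      rcases le_total 1 (β * √(area (u i) (v i))) with h | h
      · rw [min_eq_left h, mul_one]
        exact b1
      · rw [min_eq_right h]
        refine b2.trans ?_
        gcongr
  have hsubρ : ∀ i, crv (B i) (Y i) (u i) (v i) ⊆ box (ρ i) (max (B i) (Y i)) := by
    rintro i z hz
    refine ⟨?_, abs_le.2 ⟨?_, ?_⟩⟩
    · rcases hz.2 with h | h
      · rw [h, abs_of_nonneg ((hcyc i).right.nonneg _)]
        exact huρ i _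
      · rw [h, abs_neg, abs_of_nonneg ((hcyc i).v_nonneg _)]
        exact hvρ i _
    · linarith [hz.1.1, le_max_left (B i) (Y i)]
    · linarith [hz.1.2, le_max_right (B i) (Y i)]
  have hsΩ : ∀ i : ι, |i.1.1 + c| ≤ Ω i := fun i =>
    (hcycΨ i).abs_le hI hSΨ (hρ0 i) (hbx i) (hsubρ i)
  have hmj : ∀ i, maj Ψ 0 (u i) (v i) + Ω i * area (u i) (v i) ≤
      (2 * n + 1) * Ω i * area (u i) (v i) := by
    intro i
    rw [← maj_add hSΨ (hcycΨ i)]
    exact (hcycΨ i).maj_le hP hSΨ (hρ0 i) (hΩ0 i) (hbx i) (hsubρ i)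
  set K : ℝ := (2 * n + 1) * (2 * M) with hK
  have hK0 : 0 < K := by positivity
  set h : ι → ℝ := fun i => maj Ψ 0 (u i) (v i) / area (u i) (v i) +
    4 * K * Real.log (1 + β * √(area (u i) (v i))) with hh
  have hin : ∀ i j : ι, ((∀ y, u i y ≤ u j y ∧ v i y ≤ v j y) ∧ ∃ y, u i y < u j y) →
      |j.1.1 - i.1.1| < h j - h i := by
    rintro i j ⟨hn', hx⟩
    have hlt := area_lt (hcyc i) (hcyc j) hn' hx
    have hpp := pair hI hSΨ (hcycΨ i) (hcycΨ j) hn' (hsΩ i)
    rw [maj_add hSΨ (hcycΨ i), maj_add hSΨ (hcycΨ j)] at hpp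
    have hpo := potential2 hM hβ0 (hA0 i) hlt (n := n) (hmj i) (m₂ := maj Ψ 0 (u j) (v j))
    have h1 : |j.1.1 - i.1.1| ≤ ((maj Ψ 0 (u j) (v j) - maj Ψ 0 (u i) (v i)) +
        Ω i * (area (u j) (v j) - area (u i) (v i))) / area (u j) (v j) := by
      rw [le_div_iff₀ (hA0 j)]
      have e : j.1.1 - i.1.1 = j.1.1 + c - (i.1.1 + c) := by ring
      rw [e]
      refine hpp.trans (le_of_eq ?_)
      ring
    exact h1.trans_lt hpo
  have hdich : ∀ i j : ι, i ≠ j → |j.1.1 - i.1.1| < |h j - h i| := by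
    have aux : ∀ i j : ι, i ≠ j → i.1.1 ≤ j.1.1 → |j.1.1 - i.1.1| < |h j - h i| := by
      intro i j hij hle
      have hne : i.1.1 < j.1.1 ∨ Y i ≠ Y j := by
        by_contra hcon
        push Not at hcon
        obtain ⟨h1, h2⟩ := hcon
        have h3 : i.1.1 = j.1.1 := le_antisymm hle h1
        apply hij
        have hci := hcyc i
        have hcj := hcyc j
        rw [← h3, ← h2] at hcj
        obtain ⟨e1, e2⟩ := hE Φ g hS _ _ _ _ _ _ hci.right hcj.right
        have hcl := hcj.left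
        rw [← e1] at hcl
        obtain ⟨-, e3⟩ := hE (mΦ Φ) (mg g) hS.mir _ _ _ _ _ _ hci.left hcl
        have e4 : v i = v j := by
          funext y
          have := congrFun e3 (-y)
          simpa using this
        apply Subtype.ext
        apply Prod.ext h3
        rw [hcrv i, hcrv j, e1, h2, e2, e4]
      rcases nested hC hS (hcyc i) (hcyc j) hle hne with h1 | h1
      · have h2 := hin j i h1
        rw [abs_sub_comm (j.1.1)]
        rw [abs_sub_comm (h j)]
        exact h2.trans_le (le_abs_self _)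
      · exact (hin i j h1).trans_le (le_abs_self _)
    intro i j hij
    rcases le_total i.1.1 j.1.1 with hle | hle
    · exact aux i j hij hle
    · have := aux j i hij.symm hle
      rwa [abs_sub_comm (i.1.1), abs_sub_comm (h i)] at this
  have hinj : Function.Injective h := by
    intro i j hij
    by_contra hne
    have := hdich i j hne
    rw [hij, sub_self, abs_zero] at this
    exact absurd (abs_nonneg _) (not_le.2 this)
  set top : ℝ := 4 * n * M + 4 * K * Real.log (1 + 8 * n ^ 2 * (1 + 2 * M)) with htop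
  have hlog0 : 0 ≤ Real.log (1 + 8 * (n:ℝ) ^ 2 * (1 + 2 * M)) := by
    apply Real.log_nonneg
    have : 0 ≤ 8 * (n:ℝ) ^ 2 * (1 + 2 * M) := by positivity
    linarith
  have hab : (0:ℝ) ≤ top := by positivity
  have hrange : ∀ i, h i ∈ Icc 0 top := by
    intro i
    have hAi := hA0 i
    have h5 : 0 ≤ maj Ψ 0 (u i) (v i) / area (u i) (v i) :=
      div_nonneg (maj_nonneg (hcycΨ i) le_rfl) hAi.le
    have h6 : maj Ψ 0 (u i) (v i) / area (u i) (v i) ≤ 4 * n * M := by
      rw [div_le_iff₀ hAi]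
      have h1 := hmj i
      have h2 : Ω i ≤ 2 * M := by
        simp only [hΩ]
        have := min_le_left 1 (β * √(area (u i) (v i)))
        nlinarith
      have h3 : (2 * n : ℝ) * Ω i * area (u i) (v i) ≤ (2 * n) * (2 * M) * area (u i) (v i) := by
        gcongr
      nlinarith
    have h7 : 0 ≤ Real.log (1 + β * √(area (u i) (v i))) := by
      apply Real.log_nonneg
      have : 0 ≤ β * √(area (u i) (v i)) := by positivity
      linarith
    have h8 : Real.log (1 + β * √(area (u i) (v i))) ≤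
        Real.log (1 + 8 * n ^ 2 * (1 + 2 * M)) := by
      apply Real.log_le_log (by positivity)
      have h9 : √(area (u i) (v i)) ≤ √L * R := by
        apply Real.sqrt_le_iff.2
        refine ⟨by positivity, ?_⟩
        rw [mul_pow, Real.sq_sqrt hL0.le]
        exact hAle i
      have h10 : β * √(area (u i) (v i)) ≤ β * (√L * R) :=
        mul_le_mul_of_nonneg_left h9 hβ0.le
      have h11 : β * (√L * R) = 8 * n ^ 2 * (1 + 2 * M) := by
        have : β * (√L * R) = n ^ 2 * (√L * √L) := by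
          rw [hβ]
          field_simp
        rw [this, Real.mul_self_sqrt hL0.le, hL]
        ring
      linarith
    have h12 := mul_le_mul_of_nonneg_left h8 (by positivity : (0:ℝ) ≤ 4 * K)
    constructor
    · simp only [hh]
      positivity
    · simp only [hh, htop]
      linarith
  have hlip' : ∀ i j : ι, |i.1.1 - j.1.1| ≤ |h i - h j| := by
    intro i j
    rcases eq_or_ne i j with rfl | hij
    · simp
    · have := hdich i j hij
      rw [abs_sub_comm (i.1.1), abs_sub_comm (h i)]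
      exact this.le
  obtain ⟨G, hG, hGN, hGI⟩ := hT ι (fun i => i.1.1) h 0 top hab hinj hrange hlip'
  refine ⟨G, hG, fun s => ?_, hGI.trans (ENNReal.ofReal_le_ofReal (le_of_eq ?_))⟩
  · refine le_trans ?_ (hGN s)
    have hsub : {C | ClosedOrbit (fld Φ g s) C ∧ C ⊆ strip R} ⊆
        (fun i : ι => i.1.2) '' {i : ι | i.1.1 = s} := by
      rintro C hCm
      exact ⟨⟨(s, C), hCm⟩, rfl, rfl⟩
    exact_mod_cast (encard_le_encard hsub).trans (encard_image_le _ _)
  · rw [htop, hK]
    ring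

end Pool.Agent.J4H16.LI
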