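import Pool.Agent.J4H16.LI.Top3
import Pool.Agent.J4H16.LI.G12

/-! Project LI, second part: generalized Lienard systems with nondegenerate `φ` and `g`. -/

open Set MeasureTheory Filter Topology
open scoped ENNReal

namespace Pool.Agent.J4H16.LI

/-- `φ` and `g` are comparable with the identity -/
structure Nd (φ g : ℝ → ℝ) (κ R H : ℝ) : Prop where
  z : φ 0 = 0
  a : ∀ y, y ^ 2 ≤ κ * (y * φ y)
  b : ∀ y, |y| ≤ H → y * φ y ≤ κ * y ^ 2
  c : ∀ x, |x| ≤ R → x ^ 2 ≤ κ * (x * g x)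
  d : ∀ x, |x| ≤ R → x * g x ≤ κ * x ^ 2

lemma Nd.mir {φ g : ℝ → ℝ} {κ R H : ℝ} (h : Nd φ g κ R H) :
    Nd (fun y => -φ (-y)) (fun x => -g (-x)) κ R H where
  z := by simp [h.z]
  a := fun y => by
    have := h.a (-y)
    have e : y * -φ (-y) = -y * φ (-y) := by ring
    rw [e]
    rwa [neg_sq] at this
  b := fun y hy => by
    have := h.b (-y) (by rwa [abs_neg])
    have e : y * -φ (-y) = -y * φ (-y) := by ring
    rw [e]
    rwa [neg_sq] at this
  c := fun x hx => by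
    have := h.c (-x) (by rwa [abs_neg])
    have e : x * -g (-x) = -x * g (-x) := by ring
    rw [e]
    rwa [neg_sq] at this
  d := fun x hx => by
    have := h.d (-x) (by rwa [abs_neg])
    have e : x * -g (-x) = -x * g (-x) := by ring
    rw [e]
    rwa [neg_sq] at this

lemma Nd.low {φ g : ℝ → ℝ} {κ R H : ℝ} (h : Nd φ g κ R H) (hκ : 0 < κ) (y : ℝ) :
    |y| ≤ κ * |φ y| := by
  rcases eq_or_ne y 0 with rfl | hy
  · simpa using mul_nonneg hκ.le (abs_nonneg (φ 0))
  · have h1 := h.a y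
    have h2 : y * φ y ≤ |y| * |φ y| := by
      rw [← abs_mul]
      exact le_abs_self _
    have h3 := mul_le_mul_of_nonneg_left h2 hκ.le
    have h4 : 0 < |y| := abs_pos.2 hy
    have h5 : |y| * |y| = y ^ 2 := by
      rw [← sq, sq_abs]
    refine le_of_mul_le_mul_left ?_ h4
    rw [h5]
    calc y ^ 2 ≤ κ * (|y| * |φ y|) := h1.trans h3
      _ = |y| * (κ * |φ y|) := by ring

lemma Nd.low' {φ g : ℝ → ℝ} {κ R H : ℝ} (h : Nd φ g κ R H) {y : ℝ} (hy : 0 < y) :
    y ≤ κ * φ y := by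
  refine le_of_mul_le_mul_left ?_ hy
  calc y * y = y ^ 2 := by ring
    _ ≤ κ * (y * φ y) := h.a y
    _ = y * (κ * φ y) := by ring

lemma Nd.upp {φ g : ℝ → ℝ} {κ R H : ℝ} (h : Nd φ g κ R H) (hκ : 0 < κ) {y : ℝ} (hy : |y| ≤ H) :
    |φ y| ≤ κ * |y| := by
  rcases eq_or_ne y 0 with rfl | hy0
  · simp [h.z]
  · have h1 := h.b y hy
    have h6 : 0 ≤ y * φ y := by
      have h7 := h.a y
      have h8 : 0 ≤ κ * (y * φ y) := (sq_nonneg y).trans h7
      exact nonneg_of_mul_nonneg_right h8 hκ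
    have h4 : 0 < |y| := abs_pos.2 hy0
    have h5 : |y| * |y| = y ^ 2 := by
      rw [← sq, sq_abs]
    refine le_of_mul_le_mul_left ?_ h4
    calc |y| * |φ y| = y * φ y := by rw [← abs_mul, abs_of_nonneg h6]
      _ ≤ κ * y ^ 2 := h1
      _ = |y| * (κ * |y|) := by
          rw [← h5]
          ring

lemma Nd.g {φ g : ℝ → ℝ} {κ R H : ℝ} (h : Nd φ g κ R H) (hκ : 0 < κ) {x : ℝ} (hx : 0 < x)
    (hxR : x ≤ R) : 0 < g x ∧ x ≤ κ * g x ∧ g x ≤ κ * x := by
  have ha : |x| ≤ R := by rwa [abs_of_pos hx]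
  have h1 : x ≤ κ * g x := by
    refine le_of_mul_le_mul_left ?_ hx
    calc x * x = x ^ 2 := by ring
      _ ≤ κ * (x * g x) := h.c x ha
      _ = x * (κ * g x) := by ring
  refine ⟨?_, h1, ?_⟩
  · have h2 : 0 < κ * g x := hx.trans_le h1
    exact (pos_iff_pos_of_mul_pos h2).1 hκ
  · refine le_of_mul_le_mul_left ?_ hx
    calc x * g x ≤ κ * x ^ 2 := h.d x ha
      _ = x * (κ * x) := by ring

/-- the generalized Lienard systems satisfy the standing assumptions -/
lemma sys_gen {φ g : ℝ → ℝ} (F : ℝ → ℝ) (hF : ContDiff ℝ 1 F) (h0 : F 0 = 0)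
    (hφ : ContDiff ℝ 1 φ) (hg : ContDiff ℝ 1 g) {κ R H : ℝ} (h : Nd φ g κ R H) (hκ : 0 < κ)
    (hg0 : ∀ x : ℝ, x ≠ 0 → 0 < x * g x) :
    Sys (fun x y => φ y - F x) g where
  smΦ := by
    have : (fun z : ℝ × ℝ => φ z.2 - F z.1) = fun z => (φ ∘ Prod.snd) z - (F ∘ Prod.fst) z := rfl
    rw [this]
    exact (hφ.comp contDiff_snd).sub (hF.comp contDiff_fst)
  smg := hg
  posΦ := fun y hy => by
    rw [h0, sub_zero]
    have h1 := h.a y
    have h2 : 0 < y ^ 2 := by positivity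
    exact (pos_iff_pos_of_mul_pos (h2.trans_le h1)).1 hκ
  posg := hg0

lemma mir_gen (φ F : ℝ → ℝ) : mΦ (fun x y => φ y - F x) = fun x y => (-φ (-y)) - (-F (-x)) := by
  funext x y
  simp only [mΦ]
  ring

lemma mg_gen (g : ℝ → ℝ) : mg g = fun x => -g (-x) := rfl

/-- **the main theorem of the second part, for generalized Lienard systems** -/
theorem main3 (hCY : S_CYC) (hC : S_CMP) (hE : S_EQ) (hI : S_IDN) (hP : S_POL) (hT : S_TV)
    (hMK : S_MK) {φ g : ℝ → ℝ} (hφ : ContDiff ℝ 1 φ) (hgs : ContDiff ℝ 1 g)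
    (hg0 : ∀ x : ℝ, x ≠ 0 → 0 < x * g x)
    {n : ℕ} (hn : 1 ≤ n) {p : Polynomial ℝ}
    (hp : p.natDegree ≤ n) (hp0 : p.eval 0 = 0) {M R κ : ℝ} (hM : 0 < M) (hR : 0 < R)
    (hκ : 1 ≤ κ) (hnd : Nd φ g κ R (2 * κ * (1 + 2 * M) * R))
    (hlip : ∀ x, |x| ≤ R → |p.eval x| ≤ M * |x|) :
    (∀ s C, ClosedOrbit (fld (fun x y => φ y - p.eval x) g s) C → C ⊆ strip R →
      |s| ≤ M) ∧
    ∃ G : ℝ → ℝ≥0∞, Measurable G ∧
      (∀ s, (({C | ClosedOrbit (fld (fun x y => φ y - p.eval x) g s) C ∧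
        C ⊆ strip R}.encard : ℕ∞) : ℝ≥0∞) ≤ G s) ∧
      ∫⁻ s, G s ≤ ENNReal.ofReal
        (4 * M * (n + (4 * n + 2) * Real.log (1 + 8 * κ ^ 3 * n ^ 2 * (1 + 2 * M)))) := by
  have hκ0 : 0 < κ := by linarith
  set Φ : ℝ → ℝ → ℝ := fun x y => φ y - p.eval x with hΦ
  set c : ℝ := p.derivative.eval 0 with hc
  set Ψ : ℝ → ℝ → ℝ := fun x y => φ y - (p.eval x - c * x) with hΨ
  have hpc : ContDiff ℝ 1 fun x => p.eval x := by
    simpa [Polynomial.aeval_def, Polynomial.eval₂_eq_eval_map] using p.contDiff_aeval (𝕜 := ℝ) 1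
  have hS : Sys Φ g := sys_gen _ hpc hp0 hφ hgs hnd hκ0 hg0
  have hSΨ : Sys Ψ g := by
    refine sys_gen _ (hpc.sub (contDiff_const.mul contDiff_id)) ?_ hφ hgs hnd hκ0 hg0
    simp [hp0]
  have hconv : ∀ s x y, Φ x y - s * x = Ψ x y - (s + c) * x := by
    intro s x y
    simp only [hΦ, hΨ]
    ring
  obtain ⟨hc1, hmk⟩ := hMK n p hp hp0 M R hR hM.le hlip
  -- the data of a closed orbit in the strip
  have hdata : ∀ s C, ClosedOrbit (fld Φ g s) C → C ⊆ strip R →
      ∃ (B Y : ℝ) (u v : ℝ → ℝ), Cyc Φ g s B Y u v ∧ C = crv B Y u v ∧ |s| ≤ M ∧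
        (∀ y, u y ≤ R) ∧ (∀ y, v y ≤ R) ∧
        (∀ y, u y ^ 2 ≤ 8 * κ ^ 3 * (1 + 2 * M) * area u v) ∧
        (∀ y, v y ^ 2 ≤ 8 * κ ^ 3 * (1 + 2 * M) * area u v) ∧
        area u v ≤ 8 * κ ^ 3 * (1 + 2 * M) * R ^ 2 := by
    intro s C hO hCs
    obtain ⟨B, Y, u, v, h, rfl⟩ := hCY Φ g hS s C hO
    have hsub : crv B Y u v ⊆ box R (max B Y) := by
      rintro z hz
      refine ⟨hCs hz, abs_le.2 ⟨?_, ?_⟩⟩
      · linarith [hz.1.1, le_max_left B Y]
      · linarith [hz.1.2, le_max_right B Y]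
    have hbx : Box Φ n M R (max B Y) := by
      refine ⟨fun y _ => ⟨Polynomial.C (φ y) - p, ?_, fun x => by simp [hΦ]⟩, fun x y hx _ => ?_⟩
      · refine (Polynomial.natDegree_sub_le _ _).trans (max_le ?_ hp)
        simp
      · simp only [hΦ]
        rw [hp0, show φ y - p.eval x - (φ y - 0) = -p.eval x by ring, abs_neg]
        exact hlip x hx
    have hs := h.abs_le hI hS hR.le hbx hsub
    obtain ⟨hu, hv, hBm, hYm⟩ := h.in_box hR.le hsub
    have hu0 := h.right.nonneg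
    have hv0 := h.v_nonneg
    have hi : area u v = (∫ y, u y) + ∫ y, v y := integral_add h.int_u h.int_v
    have hiu : 0 ≤ ∫ y, u y := integral_nonneg hu0
    have hiv : 0 ≤ ∫ y, v y := integral_nonneg hv0
    have hK : (0:ℝ) ≤ 2 * M := by positivity
    have hbu : ∀ y, |p.eval (u y) + s * u y| ≤ 2 * M * u y := by
      intro y
      have h1 := hlip (u y) (by rw [abs_of_nonneg (hu0 y)]; exact hu y)
      rw [abs_of_nonneg (hu0 y)] at h1
      have h2 : |s * u y| ≤ M * u y := by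
        rw [abs_mul, abs_of_nonneg (hu0 y)]
        exact mul_le_mul_of_nonneg_right hs (hu0 y)
      exact (abs_add_le _ _).trans (by linarith)
    have hl := h.left
    rw [hΦ, mir_gen, mg_gen] at hl
    have hbv : ∀ y, |(fun x => -p.eval (-x)) (v (-y)) + s * v (-y)| ≤ 2 * M * v (-y) := by
      intro y
      have h1 := hlip (-(v (-y))) (by rw [abs_neg, abs_of_nonneg (hv0 _)]; exact hv _)
      rw [abs_neg, abs_of_nonneg (hv0 _)] at h1
      have h2 : |s * v (-y)| ≤ M * v (-y) := by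
        rw [abs_mul, abs_of_nonneg (hv0 _)]
        exact mul_le_mul_of_nonneg_right hs (hv0 _)
      refine (abs_add_le _ _).trans ?_
      simp only [abs_neg]
      linarith
    have hgu : ∀ y ∈ Ioo (-B) Y, 0 < g (u y) ∧ u y ≤ κ * g (u y) ∧ g (u y) ≤ κ * u y :=
      fun y hy => hnd.g hκ0 (h.right.pos y hy) (hu y)
    have hgv : ∀ y ∈ Ioo (-Y) B, 0 < -g (-v (-y)) ∧ v (-y) ≤ κ * (-g (-v (-y))) ∧
        -g (-v (-y)) ≤ κ * v (-y) :=
      fun y hy => hnd.mir.g hκ0 (h.left.pos y hy) (hv (-y))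
    have a3 : Y ≤ 2 * κ * (1 + 2 * M) * R := g2' h.right hK hκ hbu hu (fun y hy => hnd.low' hy)
      (fun y hy => ⟨(hgu y hy).1, (hgu y hy).2.2⟩)
    have a4 : B ≤ 2 * κ * (1 + 2 * M) * R := g2' hl hK hκ hbv (fun y => hv _)
      (fun y hy => hnd.mir.low' hy) (fun y hy => ⟨(hgv y hy).1, (hgv y hy).2.2⟩)
    have a1 := g1' h.right hK hκ hbu (hnd.low hκ0)
      (fun y hy => hnd.upp hκ0 (abs_le.2 ⟨by linarith [hy.1], by linarith [hy.2]⟩))
      (fun y hy => ⟨(hgu y hy).1, (hgu y hy).2.1⟩)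
    have a2 := g1' hl hK hκ hbv (hnd.mir.low hκ0)
      (fun y hy => hnd.mir.upp hκ0 (abs_le.2 ⟨by linarith [hy.1], by linarith [hy.2]⟩))
      (fun y hy => ⟨(hgv y hy).1, (hgv y hy).2.1⟩)
    rw [integral_neg_eq_self v volume] at a2
    have hcst : 0 ≤ 8 * κ ^ 3 * (1 + 2 * M) := by positivity
    refine ⟨B, Y, u, v, h, rfl, hs, hu, hv, fun y => ?_, fun y => ?_, ?_⟩
    · refine (a1 y).trans ?_
      rw [hi]
      exact mul_le_mul_of_nonneg_left (by linarith) hcst
    · have := a2 (-y)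
      simp only [neg_neg] at this
      refine this.trans ?_
      rw [hi]
      exact mul_le_mul_of_nonneg_left (by linarith) hcst
    · have hsub2 : crv B Y u v ⊆ box R (2 * κ * (1 + 2 * M) * R) := by
        rintro z hz
        refine ⟨hCs hz, abs_le.2 ⟨?_, ?_⟩⟩
        · linarith [hz.1.1]
        · linarith [hz.1.2]
      refine (h.area_le hR.le hsub2).trans ?_
      have q1 : κ ≤ κ ^ 3 := by
        calc κ = κ ^ 1 := (pow_one κ).symm
          _ ≤ κ ^ 3 := pow_le_pow_right₀ hκ (by norm_num)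
      have q2 : 0 ≤ 8 * (1 + 2 * M) * R ^ 2 := by positivity
      have q3 := mul_le_mul_of_nonneg_left q1 q2
      linarith
  refine ⟨fun s C hO hCs => ?_, ?_⟩
  · obtain ⟨B, Y, u, v, -, -, h, -⟩ := hdata s C hO hCs
    exact h
  let ι : Type := {q : ℝ × Set (ℝ × ℝ) // ClosedOrbit (fld Φ g q.1) q.2 ∧ q.2 ⊆ strip R}
  have hex := fun i : ι => hdata i.1.1 i.1.2 i.2.1 i.2.2
  choose B Y u v hcyc hcrv hs hu hv huA hvA hAle using hex
  have hA0 : ∀ i, 0 < area (u i) (v i) := fun i => (hcyc i).area_pos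
  have hcycΨ : ∀ i, Cyc Ψ g (i.1.1 + c) (B i) (Y i) (u i) (v i) := fun i =>
    (hcyc i).congr (hconv _)
  set L : ℝ := 8 * κ ^ 3 * (1 + 2 * M) with hL
  have hL0 : 0 < L := by positivity
  set β : ℝ := n ^ 2 * √L / R with hβ
  have hn1 : (1:ℝ) ≤ n := by exact_mod_cast hn
  have hβ0 : 0 < β := by positivity
  set Ω : ι → ℝ := fun i => 2 * M * min 1 (β * √(area (u i) (v i))) with hΩ
  have hΩ0 : ∀ i, 0 ≤ Ω i := fun i => by
    have := hA0 i
    simp only [hΩ]
    positivity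
  set ρ : ι → ℝ := fun i => min R √(L * area (u i) (v i)) with hρ
  have hρ0 : ∀ i, 0 ≤ ρ i := fun i => le_min hR.le (Real.sqrt_nonneg _)
  have huρ : ∀ i y, u i y ≤ ρ i := fun i y => le_min (hu i y)
    (Real.le_sqrt_of_sq_le (huA i y))
  have hvρ : ∀ i y, v i y ≤ ρ i := fun i y => le_min (hv i y)
    (Real.le_sqrt_of_sq_le (hvA i y))
  have hbx : ∀ i, Box Ψ n (Ω i) (ρ i) (max (B i) (Y i)) := by
    intro i
    refine ⟨fun y _ => ⟨Polynomial.C (φ y) - (p - Polynomial.C c * Polynomial.X), ?_,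
      fun x => by simp [hΨ]⟩, fun x y hx _ => ?_⟩
    · refine (Polynomial.natDegree_sub_le _ _).trans (max_le (by simp) ?_)
      refine (Polynomial.natDegree_sub_le _ _).trans (max_le hp ?_)
      refine (Polynomial.natDegree_C_mul_le _ _).trans ?_
      rw [Polynomial.natDegree_X]
      exact hn
    · simp only [hΨ]
      rw [hp0, show φ y - (p.eval x - c * x) - (φ y - (0 - c * 0)) = -(p.eval x - c * x) by ring,
        abs_neg]
      have hxR : |x| ≤ R := hx.trans (min_le_left _ _)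
      have hxL : |x| ≤ √(L * area (u i) (v i)) := hx.trans (min_le_right _ _)
      have hax := abs_nonneg x
      have b1 : |p.eval x - c * x| ≤ 2 * M * |x| := by
        have h1 := hlip x hxR
        have h2 : |c * x| ≤ M * |x| := by
          rw [abs_mul]
          exact mul_le_mul_of_nonneg_right hc1 hax
        exact (abs_sub _ _).trans (by linarith)
      have b2 := hmk x hxR
      have b3 : (n:ℝ) ^ 2 * |x| / R ≤ β * √(area (u i) (v i)) := by
        have e : β * √(area (u i) (v i)) = n ^ 2 * √(L * area (u i) (v i)) / R := by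
          rw [Real.sqrt_mul hL0.le, hβ]
          ring
        rw [e]
        gcongr
      simp only [hΩ]
      rcases le_total 1 (β * √(area (u i) (v i))) with h | h
      · rw [min_eq_left h, mul_one]
        exact b1
      · rw [min_eq_right h]
        refine b2.trans ?_
        gcongr
  have hsubρ : ∀ i, crv (B i) (Y i) (u i) (v i) ⊆ box (ρ i) (max (B i) (Y i)) := by
    rintro i z hz
    refine ⟨?_, abs_le.2 ⟨?_, ?_⟩⟩
    · rcases hz.2 with h | h
      · rw [h, abs_of_nonneg ((hcyc i).right.nonneg _)]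
        exact huρ i _
      · rw [h, abs_neg, abs_of_nonneg ((hcyc i).v_nonneg _)]
        exact hvρ i _
    · linarith [hz.1.1, le_max_left (B i) (Y i)]
    · linarith [hz.1.2, le_max_right (B i) (Y i)]
  have hsΩ : ∀ i : ι, |i.1.1 + c| ≤ Ω i := fun i =>
    (hcycΨ i).abs_le hI hSΨ (hρ0 i) (hbx i) (hsubρ i)
  have hmj : ∀ i, maj Ψ 0 (u i) (v i) + Ω i * area (u i) (v i) ≤
      (2 * n + 1) * Ω i * area (u i) (v i) := by
    intro i
    rw [← maj_add hSΨ (hcycΨ i)]
    exact (hcycΨ i).maj_le hP hSΨ (hρ0 i) (hΩ0 i) (hbx i) (hsubρ i)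
  set K : ℝ := (2 * n + 1) * (2 * M) with hK
  have hK0 : 0 < K := by positivity
  set h : ι → ℝ := fun i => maj Ψ 0 (u i) (v i) / area (u i) (v i) +
    4 * K * Real.log (1 + β * √(area (u i) (v i))) with hh
  have hin : ∀ i j : ι, ((∀ y, u i y ≤ u j y ∧ v i y ≤ v j y) ∧ ∃ y, u i y < u j y) →
      |j.1.1 - i.1.1| < h j - h i := by
    rintro i j ⟨hn', hx⟩
    have hlt := area_lt (hcyc i) (hcyc j) hn' hx
    have hpp := pair hI hSΨ (hcycΨ i) (hcycΨ j) hn' (hsΩ i)
    rw [maj_add hSΨ (hcycΨ i), maj_add hSΨ (hcycΨ j)] at hpp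
    have hpo := potential2 hM hβ0 (hA0 i) hlt (n := n) (hmj i) (m₂ := maj Ψ 0 (u j) (v j))
    have h1 : |j.1.1 - i.1.1| ≤ ((maj Ψ 0 (u j) (v j) - maj Ψ 0 (u i) (v i)) +
        Ω i * (area (u j) (v j) - area (u i) (v i))) / area (u j) (v j) := by
      rw [le_div_iff₀ (hA0 j)]
      have e : j.1.1 - i.1.1 = j.1.1 + c - (i.1.1 + c) := by ring
      rw [e]
      refine hpp.trans (le_of_eq ?_)
      ring
    exact h1.trans_lt hpo
  have hdich : ∀ i j : ι, i ≠ j → |j.1.1 - i.1.1| < |h j - h i| := by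
    have aux : ∀ i j : ι, i ≠ j → i.1.1 ≤ j.1.1 → |j.1.1 - i.1.1| < |h j - h i| := by
      intro i j hij hle
      have hne : i.1.1 < j.1.1 ∨ Y i ≠ Y j := by
        by_contra hcon
        push Not at hcon
        obtain ⟨h1, h2⟩ := hcon
        have h3 : i.1.1 = j.1.1 := le_antisymm hle h1
        apply hij
        have hci := hcyc i
        have hcj := hcyc j
        rw [← h3, ← h2] at hcj
        obtain ⟨e1, e2⟩ := hE Φ g hS _ _ _ _ _ _ hci.right hcj.right
        have hcl := hcj.left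
        rw [← e1] at hcl
        obtain ⟨-, e3⟩ := hE (mΦ Φ) (mg g) hS.mir _ _ _ _ _ _ hci.left hcl
        have e4 : v i = v j := by
          funext y
          have := congrFun e3 (-y)
          simpa using this
        apply Subtype.ext
        apply Prod.ext h3
        rw [hcrv i, hcrv j, e1, h2, e2, e4]
      rcases nested hC hS (hcyc i) (hcyc j) hle hne with h1 | h1
      · have h2 := hin j i h1
        rw [abs_sub_comm (j.1.1)]
        rw [abs_sub_comm (h j)]
        exact h2.trans_le (le_abs_self _)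
      · exact (hin i j h1).trans_le (le_abs_self _)
    intro i j hij
    rcases le_total i.1.1 j.1.1 with hle | hle
    · exact aux i j hij hle
    · have := aux j i hij.symm hle
      rwa [abs_sub_comm (i.1.1), abs_sub_comm (h i)] at this
  have hinj : Function.Injective h := by
    intro i j hij
    by_contra hne
    have := hdich i j hne
    rw [hij, sub_self, abs_zero] at this
    exact absurd (abs_nonneg _) (not_le.2 this)
  set top : ℝ := 4 * n * M + 4 * K * Real.log (1 + 8 * κ ^ 3 * n ^ 2 * (1 + 2 * M)) with htop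
  have hlog0 : 0 ≤ Real.log (1 + 8 * κ ^ 3 * (n:ℝ) ^ 2 * (1 + 2 * M)) := by
    apply Real.log_nonneg
    have : 0 ≤ 8 * κ ^ 3 * (n:ℝ) ^ 2 * (1 + 2 * M) := by positivity
    linarith
  have hab : (0:ℝ) ≤ top := by positivity
  have hrange : ∀ i, h i ∈ Icc 0 top := by
    intro i
    have hAi := hA0 i
    have h5 : 0 ≤ maj Ψ 0 (u i) (v i) / area (u i) (v i) :=
      div_nonneg (maj_nonneg (hcycΨ i) le_rfl) hAi.le
    have h6 : maj Ψ 0 (u i) (v i) / area (u i) (v i) ≤ 4 * n * M := by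
      rw [div_le_iff₀ hAi]
      have h1 := hmj i
      have h2 : Ω i ≤ 2 * M := by
        simp only [hΩ]
        have := min_le_left 1 (β * √(area (u i) (v i)))
        nlinarith
      have h3 : (2 * n : ℝ) * Ω i * area (u i) (v i) ≤ (2 * n) * (2 * M) * area (u i) (v i) := by
        gcongr
      nlinarith
    have h7 : 0 ≤ Real.log (1 + β * √(area (u i) (v i))) := by
      apply Real.log_nonneg
      have : 0 ≤ β * √(area (u i) (v i)) := by positivity
      linarith
    have h8 : Real.log (1 + β * √(area (u i) (v i))) ≤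
        Real.log (1 + 8 * κ ^ 3 * n ^ 2 * (1 + 2 * M)) := by
      apply Real.log_le_log (by positivity)
      have h9 : √(area (u i) (v i)) ≤ √L * R := by
        apply Real.sqrt_le_iff.2
        refine ⟨by positivity, ?_⟩
        rw [mul_pow, Real.sq_sqrt hL0.le]
        exact hAle i
      have h10 : β * √(area (u i) (v i)) ≤ β * (√L * R) :=
        mul_le_mul_of_nonneg_left h9 hβ0.le
      have h11 : β * (√L * R) = 8 * κ ^ 3 * n ^ 2 * (1 + 2 * M) := by
        have : β * (√L * R) = n ^ 2 * (√L * √L) := by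
          rw [hβ]
          field_simp
        rw [this, Real.mul_self_sqrt hL0.le, hL]
        ring
      linarith
    have h12 := mul_le_mul_of_nonneg_left h8 (by positivity : (0:ℝ) ≤ 4 * K)
    constructor
    · simp only [hh]
      positivity
    · simp only [hh, htop]
      linarith
  have hlip' : ∀ i j : ι, |i.1.1 - j.1.1| ≤ |h i - h j| := by
    intro i j
    rcases eq_or_ne i j with rfl | hij
    · simp
    · have := hdich i j hij
      rw [abs_sub_comm (i.1.1), abs_sub_comm (h i)]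
      exact this.le
  obtain ⟨G, hG, hGN, hGI⟩ := hT ι (fun i => i.1.1) h 0 top hab hinj hrange hlip'
  refine ⟨G, hG, fun s => ?_, hGI.trans (ENNReal.ofReal_le_ofReal (le_of_eq ?_))⟩
  · refine le_trans ?_ (hGN s)
    have hsub : {C | ClosedOrbit (fld Φ g s) C ∧ C ⊆ strip R} ⊆
        (fun i : ι => i.1.2) '' {i : ι | i.1.1 = s} := by
      rintro C hCm
      exact ⟨⟨(s, C), hCm⟩, rfl, rfl⟩
    exact_mod_cast (encard_le_encard hsub).trans (encard_image_le _ _)
  · rw [htop, hK]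
    ring

end Pool.Agent.J4H16.LI
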