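import Pool.Agent.J4H16.LI.Top4
import Pool.Agent.J4H16.LI.Stm4

/-! Project LI: with Bernstein's inequality the bound is linear in the degree. -/

open Set MeasureTheory Filter Topology
open scoped ENNReal

namespace Pool.Agent.J4H16.LI

lemma abs_der_zero {p : Polynomial ℝ} (hp0 : p.eval 0 = 0) {M R : ℝ} (hM : 0 ≤ M) (hR : 0 < R)
    (hlip : ∀ x, |x| ≤ R → |p.eval x| ≤ M * |x|) : |p.derivative.eval 0| ≤ M := by
  have h1 := (p.hasDerivAt 0)
  have h2 : ‖p.derivative.eval 0‖ ≤ M := by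
    refine h1.le_of_lip' hM ?_
    filter_upwards [Metric.ball_mem_nhds (0:ℝ) hR] with x hx
    rw [hp0, sub_zero, sub_zero]
    have hx' : |x| < R := by simpa using hx
    exact hlip x hx'.le
  exact h2

/-- the potential, in general -/
lemma potential3 {K β A₁ A₂ m₁ m₂ Ω : ℝ} (hK0 : 0 < K) (hβ : 0 < β) (hA : 0 < A₁)
    (hlt : A₁ < A₂) (hm : m₁ + Ω * A₁ ≤ K * min 1 (β * √A₁) * A₁) :
    ((m₂ - m₁) + Ω * (A₂ - A₁)) / A₂ <
      (m₂ / A₂ + 4 * K * Real.log (1 + β * √A₂)) -
      (m₁ / A₁ + 4 * K * Real.log (1 + β * √A₁)) := by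
  have hA2 : 0 < A₂ := hA.trans hlt
  set b₁ : ℝ := β * √A₁ with hb1
  set b₂ : ℝ := β * √A₂ with hb2
  have hb10 : 0 < b₁ := by positivity
  have hb12 : b₁ < b₂ := mul_lt_mul_of_pos_left (Real.sqrt_lt_sqrt hA.le hlt) hβ
  have hb20 : 0 < b₂ := hb10.trans hb12
  have hq : A₁ / A₂ = b₁ ^ 2 / b₂ ^ 2 := by
    rw [hb1, hb2, mul_pow, mul_pow, Real.sq_sqrt hA.le, Real.sq_sqrt hA2.le]
    field_simp
  have h1 : (b₂ - b₁) / (1 + b₂) < Real.log (1 + b₂) - Real.log (1 + b₁) := by
    have h2 : Real.log ((1 + b₁) / (1 + b₂)) < (1 + b₁) / (1 + b₂) - 1 := by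
      apply Real.log_lt_sub_one_of_pos (by positivity)
      intro h
      rw [div_eq_one_iff_eq (by positivity)] at h
      linarith
    rw [Real.log_div (by positivity) (by positivity)] at h2
    have h3 : (1 + b₁) / (1 + b₂) - 1 = -((b₂ - b₁) / (1 + b₂)) := by
      field_simp
      ring
    rw [h3] at h2
    linarith
  have h4 : m₁ / A₁ + Ω ≤ K * (2 * b₁ / (1 + b₁)) := by
    have h5 : m₁ / A₁ + Ω ≤ K * min 1 b₁ := by
      have : m₁ / A₁ + Ω = (m₁ + Ω * A₁) / A₁ := by field_simp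
      rw [this, div_le_iff₀ hA]
      exact hm
    have h6 : min 1 b₁ ≤ 2 * b₁ / (1 + b₁) := by
      rw [le_div_iff₀ (by positivity)]
      rcases le_total 1 b₁ with h | h
      · rw [min_eq_left h]
        linarith
      · rw [min_eq_right h]
        nlinarith
    exact h5.trans (mul_le_mul_of_nonneg_left h6 hK0.le)
  have h7 : (m₁ / A₁ + Ω) * (1 - A₁ / A₂) ≤ 4 * K * ((b₂ - b₁) / (1 + b₂)) := by
    have h8 : 0 ≤ 1 - A₁ / A₂ := by
      rw [sub_nonneg, div_le_one hA2]
      exact hlt.le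
    refine (mul_le_mul_of_nonneg_right h4 h8).trans ?_
    rw [hq]
    have h9 : 2 * b₁ / (1 + b₁) * (1 - b₁ ^ 2 / b₂ ^ 2) ≤ 4 * ((b₂ - b₁) / (1 + b₂)) := by
      have e1 : 2 * b₁ / (1 + b₁) * (1 - b₁ ^ 2 / b₂ ^ 2) =
          (2 * b₁ * (b₂ ^ 2 - b₁ ^ 2)) / ((1 + b₁) * b₂ ^ 2) := by
        field_simp
      have e2 : 4 * ((b₂ - b₁) / (1 + b₂)) = (4 * (b₂ - b₁)) / (1 + b₂) := by ring
      rw [e1, e2, div_le_div_iff₀ (by positivity) (by positivity)]
      have hd : 0 ≤ b₂ - b₁ := by linarith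
      have key : 2 * b₁ * (b₂ + b₁) * (1 + b₂) ≤ 4 * ((1 + b₁) * b₂ ^ 2) := by
        nlinarith [mul_pos hb10 hb20, mul_nonneg hd hb10.le, mul_nonneg hd hb20.le,
          mul_nonneg (mul_nonneg hd hb10.le) hb20.le]
      have := mul_le_mul_of_nonneg_left key hd
      nlinarith
    have := mul_le_mul_of_nonneg_left h9 hK0.le
    calc K * (2 * b₁ / (1 + b₁)) * (1 - b₁ ^ 2 / b₂ ^ 2)
        = K * (2 * b₁ / (1 + b₁) * (1 - b₁ ^ 2 / b₂ ^ 2)) := by ring
      _ ≤ K * (4 * ((b₂ - b₁) / (1 + b₂))) := this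
      _ = 4 * K * ((b₂ - b₁) / (1 + b₂)) := by ring
  have h10 := mul_lt_mul_of_pos_left h1 (by positivity : (0:ℝ) < 4 * K)
  have e3 : ((m₂ - m₁) + Ω * (A₂ - A₁)) / A₂ =
      m₂ / A₂ - m₁ / A₁ + (m₁ / A₁ + Ω) * (1 - A₁ / A₂) := by
    field_simp
    ring
  rw [e3]
  linarith

/-- **the main theorem, linear in the degree** -/
theorem main4 (hCY : S_CYC) (hC : S_CMP) (hE : S_EQ) (hI : S_IDN) (hP : S_POL) (hT : S_TV)
    (hBE : S_BE) {φ g : ℝ → ℝ} (hφ : ContDiff ℝ 1 φ) (hgs : ContDiff ℝ 1 g)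
    (hg0 : ∀ x : ℝ, x ≠ 0 → 0 < x * g x)
    {n : ℕ} (hn : 1 ≤ n) {p : Polynomial ℝ}
    (hp : p.natDegree ≤ n) (hp0 : p.eval 0 = 0) {M R κ : ℝ} (hM : 0 < M) (hR : 0 < R)
    (hκ : 1 ≤ κ) (hnd : Nd φ g κ R (2 * κ * (1 + 2 * M) * R))
    (hlip : ∀ x, |x| ≤ R → |p.eval x| ≤ M * |x|) :
    (∀ s C, ClosedOrbit (fld (fun x y => φ y - p.eval x) g s) C → C ⊆ strip R →
      |s| ≤ M) ∧
    ∃ G : ℝ → ℝ≥0∞, Measurable G ∧
      (∀ s, (({C | ClosedOrbit (fld (fun x y => φ y - p.eval x) g s) C ∧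
        C ⊆ strip R}.encard : ℕ∞) : ℝ≥0∞) ≤ G s) ∧
      ∫⁻ s, G s ≤ ENNReal.ofReal
        (8 * n * M * (1 + 8 * Real.log (1 + 8 * κ ^ 3 * (1 + 2 * M)))) := by
  have hκ0 : 0 < κ := by linarith
  set Φ : ℝ → ℝ → ℝ := fun x y => φ y - p.eval x with hΦ
  set c : ℝ := p.derivative.eval 0 with hc
  set Ψ : ℝ → ℝ → ℝ := fun x y => φ y - (p.eval x - c * x) with hΨ
  have hpc : ContDiff ℝ 1 fun x => p.eval x := by
    simpa [Polynomial.aeval_def, Polynomial.eval₂_eq_eval_map] using p.contDiff_aeval (𝕜 := ℝ) 1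
  have hS : Sys Φ g := sys_gen _ hpc hp0 hφ hgs hnd hκ0 hg0
  have hSΨ : Sys Ψ g := by
    refine sys_gen _ (hpc.sub (contDiff_const.mul contDiff_id)) ?_ hφ hgs hnd hκ0 hg0
    simp [hp0]
  have hconv : ∀ s x y, Φ x y - s * x = Ψ x y - (s + c) * x := by
    intro s x y
    simp only [hΦ, hΨ]
    ring
  have hbe := hBE n p hp hp0 M R hR hM.le hlip
  -- the data of a closed orbit in the strip
  have hdata : ∀ s C, ClosedOrbit (fld Φ g s) C → C ⊆ strip R →
      ∃ (B Y : ℝ) (u v : ℝ → ℝ), Cyc Φ g s B Y u v ∧ C = crv B Y u v ∧ |s| ≤ M ∧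
        (∀ y, u y ≤ R) ∧ (∀ y, v y ≤ R) ∧
        (∀ y, u y ^ 2 ≤ 8 * κ ^ 3 * (1 + 2 * M) * area u v) ∧
        (∀ y, v y ^ 2 ≤ 8 * κ ^ 3 * (1 + 2 * M) * area u v) ∧
        area u v ≤ 8 * κ ^ 3 * (1 + 2 * M) * R ^ 2 := by
    intro s C hO hCs
    obtain ⟨B, Y, u, v, h, rfl⟩ := hCY Φ g hS s C hO
    have hsub : crv B Y u v ⊆ box R (max B Y) := by
      rintro z hz
      refine ⟨hCs hz, abs_le.2 ⟨?_, ?_⟩⟩
      · linarith [hz.1.1, le_max_left B Y]
      · linarith [hz.1.2, le_max_right B Y]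
    have hbx : Box Φ n M R (max B Y) := by
      refine ⟨fun y _ => ⟨Polynomial.C (φ y) - p, ?_, fun x => by simp [hΦ]⟩, fun x y hx _ => ?_⟩
      · refine (Polynomial.natDegree_sub_le _ _).trans (max_le ?_ hp)
        simp
      · simp only [hΦ]
        rw [hp0, show φ y - p.eval x - (φ y - 0) = -p.eval x by ring, abs_neg]
        exact hlip x hx
    have hs := h.abs_le hI hS hR.le hbx hsub
    obtain ⟨hu, hv, hBm, hYm⟩ := h.in_box hR.le hsub
    have hu0 := h.right.nonneg
    have hv0 := h.v_nonneg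
    have hi : area u v = (∫ y, u y) + ∫ y, v y := integral_add h.int_u h.int_v
    have hiu : 0 ≤ ∫ y, u y := integral_nonneg hu0
    have hiv : 0 ≤ ∫ y, v y := integral_nonneg hv0
    have hK : (0:ℝ) ≤ 2 * M := by positivity
    have hbu : ∀ y, |p.eval (u y) + s * u y| ≤ 2 * M * u y := by
      intro y
      have h1 := hlip (u y) (by rw [abs_of_nonneg (hu0 y)]; exact hu y)
      rw [abs_of_nonneg (hu0 y)] at h1
      have h2 : |s * u y| ≤ M * u y := by
        rw [abs_mul, abs_of_nonneg (hu0 y)]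
        exact mul_le_mul_of_nonneg_right hs (hu0 y)
      exact (abs_add_le _ _).trans (by linarith)
    have hl := h.left
    rw [hΦ, mir_gen, mg_gen] at hl
    have hbv : ∀ y, |(fun x => -p.eval (-x)) (v (-y)) + s * v (-y)| ≤ 2 * M * v (-y) := by
      intro y
      have h1 := hlip (-(v (-y))) (by rw [abs_neg, abs_of_nonneg (hv0 _)]; exact hv _)
      rw [abs_neg, abs_of_nonneg (hv0 _)] at h1
      have h2 : |s * v (-y)| ≤ M * v (-y) := by
        rw [abs_mul, abs_of_nonneg (hv0 _)]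
        exact mul_le_mul_of_nonneg_right hs (hv0 _)
      refine (abs_add_le _ _).trans ?_
      simp only [abs_neg]
      linarith
    have hgu : ∀ y ∈ Ioo (-B) Y, 0 < g (u y) ∧ u y ≤ κ * g (u y) ∧ g (u y) ≤ κ * u y :=
      fun y hy => hnd.g hκ0 (h.right.pos y hy) (hu y)
    have hgv : ∀ y ∈ Ioo (-Y) B, 0 < -g (-v (-y)) ∧ v (-y) ≤ κ * (-g (-v (-y))) ∧
        -g (-v (-y)) ≤ κ * v (-y) :=
      fun y hy => hnd.mir.g hκ0 (h.left.pos y hy) (hv (-y))
    have a3 : Y ≤ 2 * κ * (1 + 2 * M) * R := g2' h.right hK hκ hbu hu (fun y hy => hnd.low' hy)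
      (fun y hy => ⟨(hgu y hy).1, (hgu y hy).2.2⟩)
    have a4 : B ≤ 2 * κ * (1 + 2 * M) * R := g2' hl hK hκ hbv (fun y => hv _)
      (fun y hy => hnd.mir.low' hy) (fun y hy => ⟨(hgv y hy).1, (hgv y hy).2.2⟩)
    have a1 := g1' h.right hK hκ hbu (hnd.low hκ0)
      (fun y hy => hnd.upp hκ0 (abs_le.2 ⟨by linarith [hy.1], by linarith [hy.2]⟩))
      (fun y hy => ⟨(hgu y hy).1, (hgu y hy).2.1⟩)
    have a2 := g1' hl hK hκ hbv (hnd.mir.low hκ0)
      (fun y hy => hnd.mir.upp hκ0 (abs_le.2 ⟨by linarith [hy.1], by linarith [hy.2]⟩))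
      (fun y hy => ⟨(hgv y hy).1, (hgv y hy).2.1⟩)
    rw [integral_neg_eq_self v volume] at a2
    have hcst : 0 ≤ 8 * κ ^ 3 * (1 + 2 * M) := by positivity
    refine ⟨B, Y, u, v, h, rfl, hs, hu, hv, fun y => ?_, fun y => ?_, ?_⟩
    · refine (a1 y).trans ?_
      rw [hi]
      exact mul_le_mul_of_nonneg_left (by linarith) hcst
    · have := a2 (-y)
      simp only [neg_neg] at this
      refine this.trans ?_
      rw [hi]
      exact mul_le_mul_of_nonneg_left (by linarith) hcst
    · have hsub2 : crv B Y u v ⊆ box R (2 * κ * (1 + 2 * M) * R) := by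
        rintro z hz
        refine ⟨hCs hz, abs_le.2 ⟨?_, ?_⟩⟩
        · linarith [hz.1.1]
        · linarith [hz.1.2]
      refine (h.area_le hR.le hsub2).trans ?_
      have q1 : κ ≤ κ ^ 3 := by
        calc κ = κ ^ 1 := (pow_one κ).symm
          _ ≤ κ ^ 3 := pow_le_pow_right₀ hκ (by norm_num)
      have q2 : 0 ≤ 8 * (1 + 2 * M) * R ^ 2 := by positivity
      have q3 := mul_le_mul_of_nonneg_left q1 q2
      linarith
  refine ⟨fun s C hO hCs => ?_, ?_⟩
  · obtain ⟨B, Y, u, v, -, -, h, -⟩ := hdata s C hO hCs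
    exact h
  let ι : Type := {q : ℝ × Set (ℝ × ℝ) // ClosedOrbit (fld Φ g q.1) q.2 ∧ q.2 ⊆ strip R}
  have hex := fun i : ι => hdata i.1.1 i.1.2 i.2.1 i.2.2
  choose B Y u v hcyc hcrv hs hu hv huA hvA hAle using hex
  have hA0 : ∀ i, 0 < area (u i) (v i) := fun i => (hcyc i).area_pos
  have hcycΨ : ∀ i, Cyc Ψ g (i.1.1 + c) (B i) (Y i) (u i) (v i) := fun i =>
    (hcyc i).congr (hconv _)
  set L : ℝ := 8 * κ ^ 3 * (1 + 2 * M) with hL
  have hL0 : 0 < L := by positivity
  set β : ℝ := √L / R with hβ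
  have hn1 : (1:ℝ) ≤ n := by exact_mod_cast hn
  have hβ0 : 0 < β := by positivity
  have hb0 : ∀ i, 0 < β * √(area (u i) (v i)) := fun i => by
    have := hA0 i
    positivity
  set Ω : ι → ℝ := fun i => 8 * n * M * min 1 (β * √(area (u i) (v i))) with hΩ
  have hc1 : |c| ≤ M := abs_der_zero hp0 hM.le hR hlip
  have hDx : ∀ x y, Dx Ψ x y = -(p.derivative.eval x - c) := by
    intro x y
    have h1 := hasDerivAt_Dx hSΨ x y
    have h2 : HasDerivAt (fun t => Ψ t y) (-(p.derivative.eval x - c)) x := by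
      have h3 := (((p.hasDerivAt x).sub ((hasDerivAt_id x).const_mul c)).const_sub (φ y))
      simp only [mul_one] at h3
      exact h3
    exact h1.unique h2
  have hbx : ∀ i, Box Ψ n (2 * M) R (max (B i) (Y i)) := by
    intro i
    refine ⟨fun y _ => ⟨Polynomial.C (φ y) - (p - Polynomial.C c * Polynomial.X), ?_,
      fun x => by simp [hΨ]⟩, fun x y hx _ => ?_⟩
    · refine (Polynomial.natDegree_sub_le _ _).trans (max_le (by simp) ?_)
      refine (Polynomial.natDegree_sub_le _ _).trans (max_le hp ?_)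
      refine (Polynomial.natDegree_C_mul_le _ _).trans ?_
      rw [Polynomial.natDegree_X]
      exact hn
    · simp only [hΨ]
      rw [hp0, show φ y - (p.eval x - c * x) - (φ y - (0 - c * 0)) = -(p.eval x - c * x) by ring,
        abs_neg]
      have hax := abs_nonneg x
      have h1 := hlip x hx
      have h2 : |c * x| ≤ M * |x| := by
        rw [abs_mul]
        exact mul_le_mul_of_nonneg_right hc1 hax
      exact (abs_sub _ _).trans (by linarith)
  have hsubR : ∀ i, crv (B i) (Y i) (u i) (v i) ⊆ box R (max (B i) (Y i)) := by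
    rintro i z hz
    refine ⟨?_, abs_le.2 ⟨?_, ?_⟩⟩
    · rcases hz.2 with h | h
      · rw [h, abs_of_nonneg ((hcyc i).right.nonneg _)]
        exact hu i _
      · rw [h, abs_neg, abs_of_nonneg ((hcyc i).v_nonneg _)]
        exact hv i _
    · linarith [hz.1.1, le_max_left (B i) (Y i)]
    · linarith [hz.1.2, le_max_right (B i) (Y i)]
  have hmj : ∀ i, maj Ψ 0 (u i) (v i) ≤ Ω i * area (u i) (v i) := by
    intro i
    have hAi := hA0 i
    rcases le_or_gt (R / 2) √(L * area (u i) (v i)) with hbig | hsm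
    · have h1 := (hcycΨ i).maj_le hP hSΨ hR.le (by positivity : (0:ℝ) ≤ 2 * M) (hbx i) (hsubR i)
      rw [maj_add hSΨ (hcycΨ i)] at h1
      have h2 : 1 / 2 ≤ min 1 (β * √(area (u i) (v i))) := by
        refine le_min (by norm_num) ?_
        have e : β * √(area (u i) (v i)) = √(L * area (u i) (v i)) / R := by
          rw [Real.sqrt_mul hL0.le, hβ]
          ring
        rw [e, le_div_iff₀ hR]
        linarith
      have h3 : 8 * n * M * (1 / 2) ≤ Ω i :=
        mul_le_mul_of_nonneg_left h2 (by positivity)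
      have h4 := mul_le_mul_of_nonneg_right h3 hAi.le
      nlinarith
    · set ρ : ℝ := √(L * area (u i) (v i)) with hρ
      have hρ0 : 0 < ρ := by positivity
      have hbρ : β * √(area (u i) (v i)) = ρ / R := by
        rw [hρ, Real.sqrt_mul hL0.le, hβ]
        ring
      have huρ : ∀ y, u i y ≤ ρ := fun y => Real.le_sqrt_of_sq_le (huA i y)
      have hvρ : ∀ y, v i y ≤ ρ := fun y => Real.le_sqrt_of_sq_le (hvA i y)
      have hmin : min 1 (β * √(area (u i) (v i))) = ρ / R := by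
        rw [hbρ]
        apply min_eq_right
        rw [div_le_one hR]
        linarith
      have hi2 : Integrable fun y => u i y + v i y := (hcyc i).int_u.add (hcyc i).int_v
      have h5 : maj Ψ 0 (u i) (v i) ≤ ∫ y, (4 * n * M / R * ρ) * (u i y + v i y) := by
        unfold maj
        refine integral_mono ((hcycΨ i).int_sl hSΨ 0) (hi2.const_mul _) fun y => ?_
        have hu0 := (hcyc i).right.nonneg y
        have hv0 := (hcyc i).v_nonneg y
        have h6 : sl Ψ 0 (-v i y) (u i y) y ≤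
            ∫ _ in (-v i y)..(u i y), (4 * n * M / R * ρ) := by
          unfold sl
          refine intervalIntegral.integral_mono_on (by linarith) (den_int hSΨ 0 _ _ _)
            intervalIntegrable_const fun t ht => ?_
          have ht1 : |t| ≤ ρ := _root_.abs_le.2
            ⟨by linarith [ht.1, hvρ y], by linarith [ht.2, huρ y]⟩
          unfold den
          rw [hDx, abs_neg, add_zero]
          refine (hbe t (by linarith)).trans ?_
          exact mul_le_mul_of_nonneg_left ht1 (by positivity)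
        rw [intervalIntegral.integral_const, smul_eq_mul] at h6
        simp only
        linarith
      rw [integral_const_mul] at h5
      have h7 : Ω i = 8 * n * M * (ρ / R) := by
        simp only [hΩ]
        rw [hmin]
      rw [h7]
      have h8 : (4 * n * M / R * ρ) * area (u i) (v i) ≤ 8 * n * M * (ρ / R) *
          area (u i) (v i) := by
        have h9 : 0 ≤ n * M * (ρ / R) * area (u i) (v i) := by positivity
        have e1 : (4 * n * M / R * ρ) * area (u i) (v i) =
            4 * (n * M * (ρ / R) * area (u i) (v i)) := by ring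
        have e2 : 8 * n * M * (ρ / R) * area (u i) (v i) =
            8 * (n * M * (ρ / R) * area (u i) (v i)) := by ring
        rw [e1, e2]
        linarith
      exact h5.trans h8
  have hsΩ : ∀ i : ι, |i.1.1 + c| ≤ Ω i := by
    intro i
    have hAi := hA0 i
    refine le_of_mul_le_mul_right ?_ hAi
    refine le_trans ?_ (hmj i)
    have e := (hcycΨ i).ident hI hSΨ
    rw [← abs_of_pos hAi, ← abs_mul, e]
    refine (abs_integral_le_integral_abs).trans ?_
    unfold maj
    refine integral_mono ((hcycΨ i).int_diff hSΨ).abs ((hcycΨ i).int_sl hSΨ 0) fun y => ?_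
    have h1 := sub_le_sl hSΨ (s := 0) (M := 0) (a := -v i y) (b := u i y)
      (by linarith [(hcyc i).right.nonneg y, (hcyc i).v_nonneg y]) (by simp) y
    simp only [zero_mul, sub_zero] at h1
    exact h1
  set K : ℝ := 16 * n * M with hK
  have hK0 : 0 < K := by positivity
  have hpm : ∀ i, maj Ψ 0 (u i) (v i) + Ω i * area (u i) (v i) ≤
      K * min 1 (β * √(area (u i) (v i))) * area (u i) (v i) := by
    intro i
    have h1 := hmj i
    have e : K * min 1 (β * √(area (u i) (v i))) * area (u i) (v i) =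
        2 * (Ω i * area (u i) (v i)) := by
      simp only [hΩ, hK]
      ring
    rw [e]
    linarith
  set h : ι → ℝ := fun i => maj Ψ 0 (u i) (v i) / area (u i) (v i) +
    4 * K * Real.log (1 + β * √(area (u i) (v i))) with hh
  have hin : ∀ i j : ι, ((∀ y, u i y ≤ u j y ∧ v i y ≤ v j y) ∧ ∃ y, u i y < u j y) →
      |j.1.1 - i.1.1| < h j - h i := by
    rintro i j ⟨hn', hx⟩
    have hlt := area_lt (hcyc i) (hcyc j) hn' hx
    have hpp := pair hI hSΨ (hcycΨ i) (hcycΨ j) hn' (hsΩ i)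
    rw [maj_add hSΨ (hcycΨ i), maj_add hSΨ (hcycΨ j)] at hpp
    have hpo := potential3 hK0 hβ0 (hA0 i) hlt (hpm i) (m₂ := maj Ψ 0 (u j) (v j))
    have h1 : |j.1.1 - i.1.1| ≤ ((maj Ψ 0 (u j) (v j) - maj Ψ 0 (u i) (v i)) +
        Ω i * (area (u j) (v j) - area (u i) (v i))) / area (u j) (v j) := by
      rw [le_div_iff₀ (hA0 j)]
      have e : j.1.1 - i.1.1 = j.1.1 + c - (i.1.1 + c) := by ring
      rw [e]
      refine hpp.trans (le_of_eq ?_)
      ring
    exact h1.trans_lt hpo
  have hdich : ∀ i j : ι, i ≠ j → |j.1.1 - i.1.1| < |h j - h i| := by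
    have aux : ∀ i j : ι, i ≠ j → i.1.1 ≤ j.1.1 → |j.1.1 - i.1.1| < |h j - h i| := by
      intro i j hij hle
      have hne : i.1.1 < j.1.1 ∨ Y i ≠ Y j := by
        by_contra hcon
        push Not at hcon
        obtain ⟨h1, h2⟩ := hcon
        have h3 : i.1.1 = j.1.1 := le_antisymm hle h1
        apply hij
        have hci := hcyc i
        have hcj := hcyc j
        rw [← h3, ← h2] at hcj
        obtain ⟨e1, e2⟩ := hE Φ g hS _ _ _ _ _ _ hci.right hcj.right
        have hcl := hcj.left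
        rw [← e1] at hcl
        obtain ⟨-, e3⟩ := hE (mΦ Φ) (mg g) hS.mir _ _ _ _ _ _ hci.left hcl
        have e4 : v i = v j := by
          funext y
          have := congrFun e3 (-y)
          simpa using this
        apply Subtype.ext
        apply Prod.ext h3
        rw [hcrv i, hcrv j, e1, h2, e2, e4]
      rcases nested hC hS (hcyc i) (hcyc j) hle hne with h1 | h1
      · have h2 := hin j i h1
        rw [abs_sub_comm (j.1.1)]
        rw [abs_sub_comm (h j)]
        exact h2.trans_le (le_abs_self _)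
      · exact (hin i j h1).trans_le (le_abs_self _)
    intro i j hij
    rcases le_total i.1.1 j.1.1 with hle | hle
    · exact aux i j hij hle
    · have := aux j i hij.symm hle
      rwa [abs_sub_comm (i.1.1), abs_sub_comm (h i)] at this
  have hinj : Function.Injective h := by
    intro i j hij
    by_contra hne
    have := hdich i j hne
    rw [hij, sub_self, abs_zero] at this
    exact absurd (abs_nonneg _) (not_le.2 this)
  set top : ℝ := 8 * n * M + 4 * K * Real.log (1 + L) with htop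
  have hlog0 : 0 ≤ Real.log (1 + L) := Real.log_nonneg (by linarith)
  have hab : (0:ℝ) ≤ top := by positivity
  have hrange : ∀ i, h i ∈ Icc 0 top := by
    intro i
    have hAi := hA0 i
    have h5 : 0 ≤ maj Ψ 0 (u i) (v i) / area (u i) (v i) :=
      div_nonneg (maj_nonneg (hcycΨ i) le_rfl) hAi.le
    have h6 : maj Ψ 0 (u i) (v i) / area (u i) (v i) ≤ 8 * n * M := by
      rw [div_le_iff₀ hAi]
      refine (hmj i).trans (mul_le_mul_of_nonneg_right ?_ hAi.le)
      simp only [hΩ]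
      exact mul_le_of_le_one_right (by positivity) (min_le_left _ _)
    have h7 : 0 ≤ Real.log (1 + β * √(area (u i) (v i))) :=
      Real.log_nonneg (by linarith [hb0 i])
    have h8 : Real.log (1 + β * √(area (u i) (v i))) ≤ Real.log (1 + L) := by
      apply Real.log_le_log (by linarith [hb0 i])
      have h9 : √(area (u i) (v i)) ≤ √L * R := by
        apply Real.sqrt_le_iff.2
        refine ⟨by positivity, ?_⟩
        rw [mul_pow, Real.sq_sqrt hL0.le]
        exact hAle i
      have h10 : β * √(area (u i) (v i)) ≤ β * (√L * R) :=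
        mul_le_mul_of_nonneg_left h9 hβ0.le
      have h11 : β * (√L * R) = L := by
        have : β * (√L * R) = √L * √L := by
          rw [hβ]
          field_simp
        rw [this, Real.mul_self_sqrt hL0.le]
      linarith
    have h12 := mul_le_mul_of_nonneg_left h8 (by positivity : (0:ℝ) ≤ 4 * K)
    constructor
    · simp only [hh]
      positivity
    · simp only [hh, htop]
      linarith
  have hlip' : ∀ i j : ι, |i.1.1 - j.1.1| ≤ |h i - h j| := by
    intro i j
    rcases eq_or_ne i j with rfl | hij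
    · simp
    · have := hdich i j hij
      rw [abs_sub_comm (i.1.1), abs_sub_comm (h i)]
      exact this.le
  obtain ⟨G, hG, hGN, hGI⟩ := hT ι (fun i => i.1.1) h 0 top hab hinj hrange hlip'
  refine ⟨G, hG, fun s => ?_, hGI.trans (ENNReal.ofReal_le_ofReal (le_of_eq ?_))⟩
  · refine le_trans ?_ (hGN s)
    have hsub : {C | ClosedOrbit (fld Φ g s) C ∧ C ⊆ strip R} ⊆
        (fun i : ι => i.1.2) '' {i : ι | i.1.1 = s} := by
      rintro C hCm
      exact ⟨⟨(s, C), hCm⟩, rfl, rfl⟩
    exact_mod_cast (encard_le_encard hsub).trans (encard_image_le _ _)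
  · rw [htop, hK]
    ring

end Pool.Agent.J4H16.LI
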