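import Pool.Agent.J4H16.LI.Top7

/-! Project LI, fifth part: the small closed orbits, and the main theorem. -/

open Set MeasureTheory Filter Topology
open scoped ENNReal

namespace Pool.Agent.J4H16.LI

lemma small_lip (hBE : S_BE) {n : ℕ} {p : Polynomial ℝ} (hp : p.natDegree ≤ n)
    (hp0 : p.eval 0 = 0) {M R r : ℝ} (hM : 0 < M) (hR : 0 < R) (hrR : r ≤ R / 2)
    (hlip : ∀ x, |x| ≤ R → |p.eval x| ≤ M * |x|) (x : ℝ) (hx : |x| ≤ r) :
    |p.eval x - p.derivative.eval 0 * x| ≤ 4 * n * M * r / R * |x| := by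
  have hbe := hBE n p hp hp0 M R hR hM.le hlip
  have hd : ∀ t ∈ uIcc (0:ℝ) x, HasDerivWithinAt
      (fun t => p.eval t - p.derivative.eval 0 * t) (p.derivative.eval t - p.derivative.eval 0)
      (uIcc (0:ℝ) x) t := by
    intro t _
    have := ((p.hasDerivAt t).sub ((hasDerivAt_id t).const_mul (p.derivative.eval 0)))
    simp only [mul_one] at this
    exact this.hasDerivWithinAt
  have hb : ∀ t ∈ uIcc (0:ℝ) x, ‖p.derivative.eval t - p.derivative.eval 0‖ ≤
      4 * n * M * r / R := by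
    intro t ht
    have h1 : |t| ≤ |x| := by
      have := abs_sub_left_of_mem_uIcc ht
      simpa using this
    have h2 : |t| ≤ r := h1.trans hx
    have h3 := hbe t (h2.trans hrR)
    rw [Real.norm_eq_abs]
    refine h3.trans ?_
    have e : 4 * n * M * r / R = 4 * n * M / R * r := by ring
    rw [e]
    exact mul_le_mul_of_nonneg_left h2 (by positivity)
  have := (convex_uIcc (0:ℝ) x).norm_image_sub_le_of_norm_hasDerivWithin_le hd hb
    left_mem_uIcc right_mem_uIcc
  simpa [hp0] using this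

/-- **the small closed orbits** -/
theorem small (hCY : S_CYC) (hC : S_CMP) (hE : S_EQ) (hI : S_IDN) (hP : S_POL) (hT : S_TV)
    (hBE : S_BE) {n : ℕ} (hn : 1 ≤ n) {p : Polynomial ℝ} (hp : p.natDegree ≤ n)
    (hp0 : p.eval 0 = 0) {M R : ℝ} (hM : 0 < M) (hR : 0 < R)
    (hlip : ∀ x, |x| ≤ R → |p.eval x| ≤ M * |x|) :
    ∃ G : ℝ → ℝ≥0∞, Measurable G ∧
      (∀ s, (({C | ClosedOrbit (fld (lie fun x => p.eval x) (fun x => x) s) C ∧
        C ⊆ strip (R / (2 * n ^ 2))}.encard : ℕ∞) : ℝ≥0∞) ≤ G s) ∧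
      ∫⁻ s, G s ≤ ENNReal.ofReal (16 * M * (1 + 8 * Real.log (9 + 32 * M))) := by
  have hn1 : (1:ℝ) ≤ n := by exact_mod_cast hn
  have hn0 : (0:ℝ) < n := by linarith
  set r : ℝ := R / (2 * n ^ 2) with hr
  have hr0 : 0 < r := by positivity
  have hn2 : (1:ℝ) ≤ (n:ℝ) ^ 2 := one_le_pow₀ hn1
  have hrR : r ≤ R / 2 := by
    rw [hr]
    apply div_le_div_of_nonneg_left hR.le (by norm_num)
    linarith
  set c : ℝ := p.derivative.eval 0 with hc
  set q : Polynomial ℝ := p - Polynomial.C c * Polynomial.X with hq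
  have hqd : q.natDegree ≤ n := by
    refine (Polynomial.natDegree_sub_le _ _).trans (max_le hp ?_)
    refine (Polynomial.natDegree_C_mul_le _ _).trans ?_
    rw [Polynomial.natDegree_X]
    exact hn
  have hqe : ∀ x, q.eval x = p.eval x - c * x := fun x => by simp [hq]
  have hq0 : q.eval 0 = 0 := by rw [hqe, hp0]; ring
  set m : ℝ := 2 * M / n with hm
  have hm0 : 0 < m := by positivity
  have hql : ∀ x, |x| ≤ r → |q.eval x| ≤ m * |x| := by
    intro x hx
    rw [hqe]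
    have h1 := small_lip hBE hp hp0 hM hR hrR hlip x hx
    have e : 4 * n * M * r / R = m := by
      rw [hr, hm]
      field_simp
      ring
    rw [e] at h1
    exact h1
  have hnd : Nd (fun y => y) (fun x => x) 1 r (2 * 1 * (1 + 2 * m) * r) := by
    refine ⟨rfl, fun y => ?_, fun y _ => ?_, fun y _ => ?_, fun y _ => ?_⟩
    all_goals nlinarith
  obtain ⟨-, G, hG, hGN, hGI⟩ := main4 hCY hC hE hI hP hT hBE (φ := fun y => y) (g := fun x => x)
    contDiff_id contDiff_id (fun x hx => mul_self_pos.2 hx) hn hqd hq0 hm0 hr0 le_rfl hnd hql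
  refine ⟨fun s => G (s + c), hG.comp (measurable_id.add_const c), fun s => ?_, ?_⟩
  · refine le_trans (le_of_eq ?_) (hGN (s + c))
    have e : fld (lie fun x => p.eval x) (fun x => x) s =
        fld (fun x y => y - q.eval x) (fun x => x) (s + c) := by
      funext z
      simp only [fld, lie, hqe]
      refine Prod.ext ?_ rfl
      simp only
      ring
    rw [e]
  · rw [lintegral_add_right_eq_self G c]
    refine hGI.trans (ENNReal.ofReal_le_ofReal ?_)
    have h1 : 8 * n * m = 16 * M := by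
      rw [hm]
      field_simp
      ring
    rw [h1]
    have h2 : Real.log (1 + 8 * 1 ^ 3 * (1 + 2 * m)) ≤ Real.log (9 + 32 * M) := by
      apply Real.log_le_log (by positivity)
      have h3 : m ≤ 2 * M := by
        rw [hm]
        exact div_le_self (by positivity) hn1
      linarith
    have h4 : (0:ℝ) ≤ 16 * M := by positivity
    exact mul_le_mul_of_nonneg_left (by linarith) h4

lemma log_bound {x : ℝ} (hx : 0 < x) : Real.log x ≤ x := by
  have := Real.log_le_sub_one_of_pos hx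
  linarith

/-- the constants -/
lemma consts {M L : ℝ} (hM : 0 < M) (hL : 0 ≤ L) {n R : ℝ} (hn : 1 ≤ n) (hR : 0 < R)
    (hLn : L = Real.log n) :
    16 * M * (1 + 8 * Real.log (9 + 32 * M)) +
      CK (2 * M) * Real.log (2 * (1 + 2 * M) * (1 + 4 * M) * (R / (R / (2 * n ^ 2)))) ≤
    200000 * (1 + M) ^ 4 * (1 + L) := by
  have h0 : (0:ℝ) < 1 + M := by linarith
  have hn0 : 0 < n := by linarith
  have l32 : Real.log 32 ≤ 4 := by
    have e : (32:ℝ) = 2 ^ 5 := by norm_num
    rw [e, Real.log_pow]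
    have := Real.log_two_lt_d9
    push_cast
    linarith
  have lM : Real.log (1 + M) ≤ M := by
    have := Real.log_le_sub_one_of_pos h0
    linarith
  have h1 : Real.log (9 + 32 * M) ≤ 4 + M := by
    have : Real.log (9 + 32 * M) ≤ Real.log (32 * (1 + M)) :=
      Real.log_le_log (by positivity) (by linarith)
    rw [Real.log_mul (by norm_num) h0.ne'] at this
    linarith
  have h2 : Real.log (2 * (1 + 2 * M) * (1 + 4 * M) * (R / (R / (2 * n ^ 2)))) ≤
      4 * (1 + M) + 2 * L := by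
    have e : R / (R / (2 * n ^ 2)) = 2 * n ^ 2 := by field_simp
    rw [e]
    have h3 : 2 * (1 + 2 * M) * (1 + 4 * M) * (2 * n ^ 2) ≤ 32 * (1 + M) ^ 2 * n ^ 2 := by
      have : 2 * (1 + 2 * M) * (1 + 4 * M) * 2 ≤ 32 * (1 + M) ^ 2 := by nlinarith
      nlinarith [sq_nonneg n]
    have h4 := Real.log_le_log (by positivity) h3
    have h5 : Real.log (32 * (1 + M) ^ 2 * n ^ 2) =
        Real.log 32 + 2 * Real.log (1 + M) + 2 * Real.log n := by
      rw [Real.log_mul (by positivity) (by positivity), Real.log_mul (by norm_num) (by positivity),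
        Real.log_pow, Real.log_pow]
      push_cast
      ring
    rw [h5, ← hLn] at h4
    linarith
  have hCK : CK (2 * M) ≤ 40960 * (1 + M) ^ 3 := by
    unfold CK
    have : (1 + 2 * M) ^ 3 ≤ (2 * (1 + M)) ^ 3 :=
      pow_le_pow_left₀ (by positivity) (by linarith) 3
    rw [mul_pow] at this
    linarith
  have hCK0 : 0 ≤ CK (2 * M) := by
    unfold CK
    positivity
  have h5 : CK (2 * M) * Real.log (2 * (1 + 2 * M) * (1 + 4 * M) * (R / (R / (2 * n ^ 2)))) ≤
      40960 * (1 + M) ^ 3 * (4 * (1 + M) + 2 * L) := by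
    refine (mul_le_mul_of_nonneg_left h2 hCK0).trans ?_
    exact mul_le_mul_of_nonneg_right hCK (by positivity)
  have h6 : 40960 * (1 + M) ^ 3 * (4 * (1 + M) + 2 * L) ≤ 163840 * (1 + M) ^ 4 * (1 + L) := by
    have h7 : (1 + M) ^ 3 * L ≤ (1 + M) ^ 4 * L := by
      refine mul_le_mul_of_nonneg_right ?_ hL
      exact pow_le_pow_right₀ (by linarith) (by norm_num)
    have h8 : 0 ≤ (1 + M) ^ 4 * L := by positivity
    have e : 40960 * (1 + M) ^ 3 * (4 * (1 + M) + 2 * L) =
        163840 * (1 + M) ^ 4 + 81920 * ((1 + M) ^ 3 * L) := by ring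
    have e' : 163840 * (1 + M) ^ 4 * (1 + L) =
        163840 * (1 + M) ^ 4 + 163840 * ((1 + M) ^ 4 * L) := by ring
    rw [e, e']
    linarith
  have h9 : 16 * M * (1 + 8 * Real.log (9 + 32 * M)) ≤ 36160 * (1 + M) ^ 4 * (1 + L) := by
    have h10 : 16 * M * (1 + 8 * Real.log (9 + 32 * M)) ≤ 16 * M * (1 + 8 * (4 + M)) :=
      mul_le_mul_of_nonneg_left (by linarith) (by positivity)
    have h11 : 16 * M * (1 + 8 * (4 + M)) ≤ 528 * (1 + M) ^ 2 := by nlinarith
    have h12 : (1 + M) ^ 2 ≤ (1 + M) ^ 4 := pow_le_pow_right₀ (by linarith) (by norm_num)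
    have h13 : (1 + M) ^ 4 * 1 ≤ (1 + M) ^ 4 * (1 + L) :=
      mul_le_mul_of_nonneg_left (by linarith) (by positivity)
    have h14 : 0 ≤ (1 + M) ^ 4 * (1 + L) := by positivity
    nlinarith
  have h15 : 163840 * (1 + M) ^ 4 * (1 + L) + 36160 * (1 + M) ^ 4 * (1 + L) =
      200000 * (1 + M) ^ 4 * (1 + L) := by ring
  linarith

/-- **the main theorem: the mean number of closed orbits is logarithmic in the degree** -/
theorem main5 (hCY : S_CYC) (hC : S_CMP) (hE : S_EQ) (hI : S_IDN) (hP : S_POL) (hT : S_TV)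
    (hBE : S_BE) (hG2 : S_G2) (hPT : S_PT) (hW : S_WID)
    {n : ℕ} (hn : 1 ≤ n) {p : Polynomial ℝ} (hp : p.natDegree ≤ n)
    (hp0 : p.eval 0 = 0) {M R : ℝ} (hM : 0 < M) (hR : 0 < R)
    (hlip : ∀ x, |x| ≤ R → |p.eval x| ≤ M * |x|) :
    (∀ s C, ClosedOrbit (fld (lie fun x => p.eval x) (fun x => x) s) C → C ⊆ strip R → |s| ≤ M) ∧
    ∃ G : ℝ → ℝ≥0∞, Measurable G ∧
      (∀ s, (({C | ClosedOrbit (fld (lie fun x => p.eval x) (fun x => x) s) C ∧
        C ⊆ strip R}.encard : ℕ∞) : ℝ≥0∞) ≤ G s) ∧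
      ∫⁻ s, G s ≤ ENNReal.ofReal (200000 * (1 + M) ^ 4 * (1 + Real.log n)) := by
  have hn1 : (1:ℝ) ≤ n := by exact_mod_cast hn
  have hn0 : (0:ℝ) < n := by linarith
  have hn2 : (1:ℝ) ≤ (n:ℝ) ^ 2 := one_le_pow₀ hn1
  have hr0 : 0 < R / (2 * (n:ℝ) ^ 2) := by positivity
  have hrR : R / (2 * (n:ℝ) ^ 2) ≤ R := div_le_self hR.le (by linarith)
  obtain ⟨h1, G₁, hG1m, hG1N, hG1I⟩ := large hCY hC hE hI hT hG2 hPT hW hp0 hM hr0 hrR hlip
  obtain ⟨G₂, hG2m, hG2N, hG2I⟩ := small hCY hC hE hI hP hT hBE hn hp hp0 hM hR hlip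
  refine ⟨h1, fun s => G₂ s + G₁ s, hG2m.add hG1m, fun s => ?_, ?_⟩
  · refine le_trans ?_ (add_le_add (hG2N s) (hG1N s))
    rw [← ENat.toENNReal_add]
    refine ENat.toENNReal_le.2 (le_trans (encard_le_encard ?_) (encard_union_le _ _))
    rintro C ⟨hC1, hC2⟩
    by_cases h : C ⊆ strip (R / (2 * (n:ℝ) ^ 2))
    · exact Or.inl ⟨hC1, h⟩
    · exact Or.inr ⟨hC1, hC2, h⟩
  · rw [lintegral_add_left hG2m]
    refine (add_le_add hG2I hG1I).trans ?_
    rw [← ENNReal.ofReal_add]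
    · exact ENNReal.ofReal_le_ofReal
        (consts hM (Real.log_nonneg hn1) hn1 hR rfl)
    · have : 0 ≤ Real.log (9 + 32 * M) := Real.log_nonneg (by linarith)
      positivity
    · refine mul_nonneg ?_ (Real.log_nonneg ?_)
      · unfold CK
        positivity
      · have h3 : 1 ≤ R / (R / (2 * (n:ℝ) ^ 2)) := (one_le_div hr0).2 hrR
        have h4 : 1 ≤ 2 * (1 + 2 * M) * (1 + 4 * M) := by nlinarith
        nlinarith

end Pool.Agent.J4H16.LI
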