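import Pool.Agent.J4H16.LI.Pt2
import Pool.Agent.J4H16.LI.Top8

/-! Project LI, sixth part: the logarithmic bound with a general restoring force. -/

open Set MeasureTheory Filter Topology
open scoped ENNReal

namespace Pool.Agent.J4H16.LI

/-- the constant -/
noncomputable def CQ (K κ : ℝ) : ℝ := 5120 * κ ^ 4 * (1 + K) ^ 3

lemma Gar.rfl' {g : ℝ → ℝ} {κ B Y : ℝ} {u : ℝ → ℝ} (h : Gar g κ B Y u) :
    Gar g κ Y B (fun y => u (-y)) := fun y hy => h (-y) ⟨by linarith [hy.2], by linarith [hy.1]⟩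

/-- the bound at the upper ends of two nested arcs -/
lemma ends2 {F g : ℝ → ℝ} {s₁ B₁ Y₁ s₂ B₂ Y₂ K κ : ℝ} {u₁ u₂ : ℝ → ℝ}
    (h1 : Arc (lie F) g s₁ B₁ Y₁ u₁) (h2 : Arc (lie F) g s₂ B₂ Y₂ u₂)
    (hK : 0 ≤ K) (hκ : 1 ≤ κ) (hG1 : Gar g κ B₁ Y₁ u₁) (hG2 : Gar g κ B₂ Y₂ u₂)
    (hb1 : ∀ y, |F (u₁ y) + s₁ * u₁ y| ≤ K * u₁ y)
    (hb2 : ∀ y, |F (u₂ y) + s₂ * u₂ y| ≤ K * u₂ y) (hn : ∀ y, u₁ y ≤ u₂ y) (hs : s₁ ≤ s₂)
    (hY : Y₁ ≤ Y₂) (hd : s₂ - s₁ ≤ K) : s₂ - s₁ ≤ CQ K κ * Real.log (Y₂ / Y₁) := by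
  have hY1 := h1.hY
  have hY2 := h2.hY
  have hκ4 : 1 ≤ κ ^ 4 := one_le_pow₀ hκ
  rcases le_or_gt Y₂ (2 * Y₁) with h | h
  · have h3 := pt2 h1 h2 hK hκ hb1 hb2 hG1 hG2 hn hs hY h
    have h4 : (Y₂ - Y₁) / Y₁ ≤ 2 * Real.log (Y₂ / Y₁) := by
      have h5 := Real.one_sub_inv_le_log_of_pos (div_pos hY2 hY1)
      rw [inv_div] at h5
      have h6 : (Y₂ - Y₁) / Y₁ ≤ 2 * (1 - Y₁ / Y₂) := by
        have e : 2 * (1 - Y₁ / Y₂) = 2 * (Y₂ - Y₁) / Y₂ := by field_simp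
        rw [e, div_le_div_iff₀ hY1 hY2]
        nlinarith
      linarith
    have h7 : s₂ - s₁ ≤ 2560 * κ ^ 4 * (1 + K) ^ 3 * ((Y₂ - Y₁) / Y₁) := by
      rw [mul_div_assoc', le_div_iff₀ hY1]
      exact h3
    refine h7.trans ?_
    unfold CQ
    have h8 := mul_le_mul_of_nonneg_left h4 (by positivity : 0 ≤ 2560 * κ ^ 4 * (1 + K) ^ 3)
    linarith
  · have h3 : Real.log 2 ≤ Real.log (Y₂ / Y₁) := by
      apply Real.log_le_log (by norm_num)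
      rw [le_div_iff₀ hY1]
      linarith
    have h4 : (1 / 2 : ℝ) ≤ Real.log 2 := by
      have := Real.log_two_gt_d9
      linarith
    have h5 : K ≤ (1 + K) ^ 3 := by nlinarith [sq_nonneg K, mul_nonneg hK (sq_nonneg K)]
    have h6 : 0 ≤ (1 + K) ^ 3 := by positivity
    have h7 : (1 + K) ^ 3 ≤ κ ^ 4 * (1 + K) ^ 3 := by
      have := mul_le_mul_of_nonneg_right hκ4 h6
      linarith
    have h8 : κ ^ 4 * (1 + K) ^ 3 * (1 / 2) ≤ κ ^ 4 * (1 + K) ^ 3 * Real.log (Y₂ / Y₁) :=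
      mul_le_mul_of_nonneg_left (h4.trans h3) (h6.trans h7)
    unfold CQ
    nlinarith

/-- the data of a closed orbit -/
structure Dat2 (F g : ℝ → ℝ) (K κ s B Y : ℝ) (u v : ℝ → ℝ) : Prop where
  cyc : Cyc (lie F) g s B Y u v
  gu : Gar g κ B Y u
  gv : Gar (mg g) κ Y B (fun y => v (-y))
  bu : ∀ y, |F (u y) + s * u y| ≤ K * u y
  bv : ∀ y, |-F (-v y) + s * v y| ≤ K * v y

lemma Dat2.pair {F g : ℝ → ℝ} {K κ s₁ B₁ Y₁ s₂ B₂ Y₂ : ℝ} {u₁ v₁ u₂ v₂ : ℝ → ℝ} (hκ : 1 ≤ κ)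
    (h1 : Dat2 F g K κ s₁ B₁ Y₁ u₁ v₁) (h2 : Dat2 F g K κ s₂ B₂ Y₂ u₂ v₂) (hK : 0 ≤ K)
    (hn : ∀ y, u₁ y ≤ u₂ y ∧ v₁ y ≤ v₂ y) (hd : |s₂ - s₁| ≤ K) :
    (Y₁ ≤ Y₂ ∧ B₁ ≤ B₂) ∧ |s₂ - s₁| ≤ CQ K κ * Real.log (Y₂ / Y₁) ∧
      |s₂ - s₁| ≤ CQ K κ * Real.log (B₂ / B₁) := by
  have l1 := h1.cyc.left
  have l2 := h2.cyc.left
  rw [mir_lie'] at l1 l2
  have hr1 := h1.cyc.right.rfl'
  have hr2 := h2.cyc.right.rfl'
  rw [rfl_lie] at hr1 hr2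
  have lr1 := l1.rfl'
  have lr2 := l2.rfl'
  rw [rfl_lie] at lr1 lr2
  have hY : Y₁ ≤ Y₂ := top_le h1.cyc.right h2.cyc.right fun y => (hn y).1
  have hB : B₁ ≤ B₂ := top_le l1 l2 fun y => (hn (-y)).2
  refine ⟨⟨hY, hB⟩, ?_⟩
  rcases le_total s₁ s₂ with hs | hs
  · rw [abs_of_nonneg (by linarith)] at hd ⊢
    refine ⟨ends2 h1.cyc.right h2.cyc.right hK hκ h1.gu h2.gu h1.bu h2.bu (fun y => (hn y).1) hs hY hd, ?_⟩
    exact ends2 l1 l2 hK hκ h1.gv h2.gv (fun y => by simpa using h1.bv (-y)) (fun y => by simpa using h2.bv (-y))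
      (fun y => (hn (-y)).2) hs hB hd
  · rw [abs_of_nonpos (by linarith)] at hd ⊢
    have e : -(s₂ - s₁) = -s₂ - -s₁ := by ring
    rw [e] at hd ⊢
    refine ⟨?_, ?_⟩
    · refine ends2 lr1 lr2 hK hκ h1.gv.rfl' h2.gv.rfl' (fun y => ?_) (fun y => ?_) (fun y => ?_) (by linarith) hY hd
      · have := h1.bv (- -y)
        rw [← abs_neg] at this
        simp only [neg_neg] at this ⊢
        convert this using 2
        ring
      · have := h2.bv (- -y)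
        rw [← abs_neg] at this
        simp only [neg_neg] at this ⊢
        convert this using 2
        ring
      · simpa using (hn y).2
    · refine ends2 hr1 hr2 hK hκ h1.gu.rfl' h2.gu.rfl' (fun y => ?_) (fun y => ?_) (fun y => (hn (-y)).1) (by linarith)
        hB hd
      · have := h1.bu (-y)
        rw [← abs_neg] at this
        convert this using 2
        ring
      · have := h2.bu (-y)
        rw [← abs_neg] at this
        convert this using 2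
        ring

/-- the same for the larger one of the two heights -/
lemma Dat2.pairT {F g : ℝ → ℝ} {K κ s₁ B₁ Y₁ s₂ B₂ Y₂ : ℝ} {u₁ v₁ u₂ v₂ : ℝ → ℝ} (hκ : 1 ≤ κ)
    (h1 : Dat2 F g K κ s₁ B₁ Y₁ u₁ v₁) (h2 : Dat2 F g K κ s₂ B₂ Y₂ u₂ v₂) (hK : 0 ≤ K)
    (hn : ∀ y, u₁ y ≤ u₂ y ∧ v₁ y ≤ v₂ y) (hd : |s₂ - s₁| ≤ K) :
    max B₁ Y₁ ≤ max B₂ Y₂ ∧
    |s₂ - s₁| ≤ CQ K κ * (Real.log (max B₂ Y₂) - Real.log (max B₁ Y₁)) ∧
      (max B₁ Y₁ = max B₂ Y₂ → Y₁ = Y₂ ∨ B₁ = B₂) := by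
  obtain ⟨⟨hY, hB⟩, p1, p2⟩ := h1.pair hκ h2 hK hn hd
  have hY1 := h1.cyc.right.hY
  have hB1 := h1.cyc.right.hB
  have hC : 0 ≤ CQ K κ := by
    unfold CQ
    positivity
  refine ⟨max_le_max hB hY, ?_, ?_⟩
  · rcases le_total B₁ Y₁ with h | h
    · rw [max_eq_right h]
      refine p1.trans (mul_le_mul_of_nonneg_left ?_ hC)
      rw [Real.log_div (by linarith) (by linarith)]
      have : Real.log Y₂ ≤ Real.log (max B₂ Y₂) := Real.log_le_log (by linarith) (le_max_right _ _)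
      linarith
    · rw [max_eq_left h]
      refine p2.trans (mul_le_mul_of_nonneg_left ?_ hC)
      rw [Real.log_div (by linarith) (by linarith)]
      have : Real.log B₂ ≤ Real.log (max B₂ Y₂) := Real.log_le_log (by linarith) (le_max_left _ _)
      linarith
  · intro he
    rcases le_total B₁ Y₁ with h | h
    · rw [max_eq_right h] at he
      left
      exact le_antisymm hY (by rw [he]; exact le_max_right _ _)
    · rw [max_eq_left h] at he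
      right
      exact le_antisymm hB (by rw [he]; exact le_max_left _ _)

end Pool.Agent.J4H16.LI
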