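import Pool.Agent.J4H16.LI.Wid

/-! Project LI, fifth part: (TOP) -/

open Set MeasureTheory

namespace Pool.Agent.J4H16.LI

theorem t_TOP : S_TOP := by
  intro F s B Y K x₀ u h hK hF hx0 hxY
  have hd := fun y (hy : y ∈ Ioo (-B) Y) => arc_sq' h hy
  obtain ⟨hB, hY, hc, hout, hpos, hder⟩ := h
  have hder' : ∀ y ∈ Ioo (-B) Y, HasDerivAt u (-(y - F (u y) - s * u y) / u y) y := hder
  have hnn : ∀ y, 0 ≤ u y := by
    intro y
    by_cases hy : y ∈ Ioo (-B) Y
    · exact (hpos y hy).le
    · rw [hout y hy]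
  have huY : u Y = 0 := hout Y (fun h => lt_irrefl _ h.2)
  have hK1 : 0 < 1 + K := by linarith
  have hxY' : 4 * x₀ ≤ Y := by nlinarith [mul_nonneg hK hx0.le]
  have hKx : K * x₀ ≤ Y / 4 - x₀ := by nlinarith
  -- the last point with `u = x₀`
  have hex : ∃ y ∈ Icc (Y / 2) Y, x₀ ≤ u y := by
    by_contra hcon
    push Not at hcon
    have hanti : AntitoneOn (fun y => u y ^ 2 / 2 + Y / 4 * y) (Icc (Y / 2) Y) := by
      have hd2 : ∀ y ∈ Ioo (Y / 2) Y, HasDerivAt (fun y => u y ^ 2 / 2 + Y / 4 * y)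
          ((-y + (F (u y) + s * u y)) + Y / 4) y := by
        intro y hy
        have a3 : HasDerivAt (fun y : ℝ => Y / 4 * y) (Y / 4) y := by
          simpa using (hasDerivAt_id y).const_mul (Y / 4)
        exact (hd y ⟨by linarith [hy.1], hy.2⟩).add a3
      apply antitoneOn_of_deriv_nonpos (convex_Icc _ _)
      · exact (by fun_prop : Continuous fun y => u y ^ 2 / 2 + Y / 4 * y).continuousOn
      · intro y hy
        rw [interior_Icc] at hy
        exact (hd2 y hy).differentiableAt.differentiableWithinAt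
      · intro y hy
        rw [interior_Icc] at hy
        rw [(hd2 y hy).deriv]
        have h1 := (abs_le.1 (hF y)).2
        have h2 : K * u y ≤ K * x₀ :=
          mul_le_mul_of_nonneg_left (hcon y ⟨hy.1.le, hy.2.le⟩).le hK
        linarith [hy.1]
    have h1 := hanti (left_mem_Icc.2 (by linarith)) (right_mem_Icc.2 (by linarith))
      (by linarith : Y / 2 ≤ Y)
    simp only at h1
    rw [huY] at h1
    have h2 := hcon (Y / 2) ⟨le_rfl, by linarith⟩
    have h3 : u (Y / 2) ^ 2 < x₀ ^ 2 := pow_lt_pow_left₀ h2 (hnn _) two_ne_zero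
    nlinarith
  set A : Set ℝ := {y | y ∈ Icc (Y / 2) Y ∧ x₀ ≤ u y} with hA
  have hAc : IsCompact A := by
    have : A = Icc (Y / 2) Y ∩ {y | x₀ ≤ u y} := rfl
    rw [this]
    exact isCompact_Icc.inter_right (isClosed_le continuous_const hc)
  obtain ⟨η, hηA, hηmax⟩ := hAc.exists_isMaxOn ⟨hex.choose, hex.choose_spec.1, hex.choose_spec.2⟩
    continuousOn_id
  have hη1 : Y / 2 ≤ η := hηA.1.1
  have hη2 : η < Y := by
    refine lt_of_le_of_ne hηA.1.2 fun he => ?_
    have := hηA.2
    rw [he, huY] at this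
    linarith
  have hafter : ∀ y, η < y → u y < x₀ := by
    intro y hy
    by_contra hcon
    push Not at hcon
    by_cases hyY : y ≤ Y
    · have := hηmax (show y ∈ A from ⟨⟨by linarith, hyY⟩, hcon⟩)
      have h' : y ≤ η := this
      linarith
    · rw [hout y (fun h => hyY h.2.le)] at hcon
      linarith
  have hηx : u η = x₀ := by
    refine le_antisymm ?_ hηA.2
    have h1 : Filter.Tendsto u (nhdsWithin η (Ioi η)) (nhds (u η)) :=
      hc.continuousAt.continuousWithinAt
    exact le_of_tendsto h1 (by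
      filter_upwards [self_mem_nhdsWithin] with y hy
      exact (hafter y hy).le)
  have hle : ∀ y, η ≤ y → u y ≤ x₀ := by
    intro y hy
    rcases hy.eq_or_lt with rfl | hy
    · exact hηx.le
    · exact (hafter y hy).le
  have hg : ∀ y ∈ Icc η Y, Y / 4 ≤ y - F (u y) - s * u y := by
    intro y hy
    have h1 := (abs_le.1 (hF y)).2
    have h2 : K * u y ≤ K * x₀ := mul_le_mul_of_nonneg_left (hle y hy.1) hK
    linarith [hy.1]
  -- the strict decrease
  have hdec : ∀ y ∈ Icc η Y, ∀ y' ∈ Icc η Y, y < y' → y' - y ≤ u y - u y' := by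
    intro y hy y' hy' hlt
    have hanti : AntitoneOn (fun y => u y + y) (Icc η Y) := by
      have hd2 : ∀ y ∈ Ioo η Y, HasDerivAt (fun y => u y + y)
          (-(y - F (u y) - s * u y) / u y + 1) y := fun y hy =>
        (hder' y ⟨by linarith [hy.1], hy.2⟩).add (hasDerivAt_id y)
      apply antitoneOn_of_deriv_nonpos (convex_Icc _ _)
      · exact (by fun_prop : Continuous fun y => u y + y).continuousOn
      · intro y hy
        rw [interior_Icc] at hy
        exact (hd2 y hy).differentiableAt.differentiableWithinAt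
      · intro y hy
        rw [interior_Icc] at hy
        rw [(hd2 y hy).deriv]
        have hu := hpos y ⟨by linarith [hy.1], hy.2⟩
        have h1 := hg y ⟨hy.1.le, hy.2.le⟩
        have h2 := hle y hy.1.le
        have h3 : 1 ≤ (y - F (u y) - s * u y) / u y := by
          rw [le_div_iff₀ hu]
          linarith
        have h4 : -(y - F (u y) - s * u y) / u y = -((y - F (u y) - s * u y) / u y) := by ring
        rw [h4]
        linarith
    have := hanti hy hy' hlt.le
    simp only at this
    linarith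
  -- the inverse function
  have hinv : ∀ x ∈ Icc 0 x₀, ∃ y ∈ Icc η Y, u y = x := by
    intro x hx
    have h1 : x ∈ Icc (u Y) (u η) := by
      rw [huY, hηx]
      exact hx
    have h2 := intermediate_value_Icc' hη2.le hc.continuousOn h1
    obtain ⟨y, hy, hy'⟩ := h2
    exact ⟨y, hy, hy'⟩
  set w : ℝ → ℝ := fun x => if hx : x ∈ Icc 0 x₀ then (hinv x hx).choose else 0 with hw
  have hw1 : ∀ x ∈ Icc 0 x₀, w x ∈ Icc η Y ∧ u (w x) = x := by
    intro x hx
    simp only [hw, dif_pos hx]
    exact (hinv x hx).choose_spec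
  have hinj : ∀ y ∈ Icc η Y, ∀ y' ∈ Icc η Y, u y = u y' → y = y' := by
    intro y hy y' hy' he
    rcases lt_trichotomy y y' with h | h | h
    · have := hdec y hy y' hy' h
      linarith
    · exact h
    · have := hdec y' hy' y hy h
      linarith
  have hlip : ∀ x ∈ Icc 0 x₀, ∀ x' ∈ Icc 0 x₀, |w x - w x'| ≤ |x - x'| := by
    have aux : ∀ x ∈ Icc 0 x₀, ∀ x' ∈ Icc 0 x₀, w x < w x' → w x' - w x ≤ x - x' := by
      intro x hx x' hx' hlt
      have := hdec _ (hw1 x hx).1 _ (hw1 x' hx').1 hlt
      rwa [(hw1 x hx).2, (hw1 x' hx').2] at this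
    intro x hx x' hx'
    rcases lt_trichotomy (w x) (w x') with h | h | h
    · rw [abs_sub_comm, abs_of_pos (by linarith)]
      exact (aux x hx x' hx' h).trans (le_abs_self _)
    · rw [h, sub_self, abs_zero]
      exact abs_nonneg _
    · rw [abs_of_pos (by linarith), abs_sub_comm]
      exact (aux x' hx' x hx h).trans (le_abs_self _)
  have hcont : ContinuousOn w (Icc 0 x₀) := by
    have : LipschitzOnWith 1 w (Icc 0 x₀) := by
      refine LipschitzOnWith.of_dist_le_mul fun x hx x' hx' => ?_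
      rw [Real.dist_eq, Real.dist_eq, NNReal.coe_one, one_mul]
      exact hlip x hx x' hx'
    exact this.continuousOn
  refine ⟨w, ?_, hcont, fun x hx => ⟨by linarith [(hw1 x hx).1.1], (hw1 x hx).1.2, (hw1 x hx).2⟩,
    fun x hx => ?_, fun x hx y hy => ?_⟩
  · have h1 := hw1 0 ⟨le_rfl, hx0.le⟩
    exact hinj _ h1.1 Y ⟨hη2.le, le_rfl⟩ (by rw [h1.2, huY])
  · have hxm : x ∈ Icc 0 x₀ := ⟨hx.1.le, hx.2.le⟩
    obtain ⟨hwm, hwx⟩ := hw1 x hxm
    have hwY : w x < Y := by
      refine lt_of_le_of_ne hwm.2 fun he => ?_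
      rw [he, huY] at hwx
      linarith [hx.1]
    have hD := hder' (w x) ⟨by linarith [hwm.1], hwY⟩
    rw [hwx] at hD
    have hgx := hg (w x) hwm
    rw [hwx] at hgx
    have hne : -(w x - F x - s * x) / x ≠ 0 := by
      refine div_ne_zero ?_ hx.1.ne'
      intro h0
      linarith
    have hcw : ContinuousAt w x := hcont.continuousAt (Icc_mem_nhds hx.1 hx.2)
    have hI := hD.of_local_left_inverse hcw hne (by
      filter_upwards [Icc_mem_nhds hx.1 hx.2] with t ht
      exact (hw1 t ht).2)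
    refine hI.congr_deriv ?_
    rw [inv_div]
    have h3 : w x - F x - s * x ≠ 0 := by
      intro h0
      linarith
    rw [neg_div, div_neg]
  · have hxm : x ∈ Icc 0 x₀ := ⟨hx.1.le, hx.2⟩
    obtain ⟨hwm, hwx⟩ := hw1 x hxm
    by_contra hcon
    push Not at hcon
    by_cases hyY : y < Y
    · have := hdec (w x) hwm y ⟨by linarith [hwm.1], hyY.le⟩ hcon
      rw [hwx] at this
      linarith
    · rw [hout y (fun h => hyY h.2)] at hy
      linarith [hx.1]

end Pool.Agent.J4H16.LI
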