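import Pool.Agent.J4H16.LI.Stm5
import Pool.Agent.J4H16.LI.G12

/-! Project LI, fifth part: (WID) -/

open Set MeasureTheory

namespace Pool.Agent.J4H16.LI

lemma arc_sq' {F : ℝ → ℝ} {s B Y : ℝ} {u : ℝ → ℝ}
    (h : Arc (fun x y => y - F x) (fun x => x) s B Y u) {y : ℝ} (hy : y ∈ Ioo (-B) Y) :
    HasDerivAt (fun y => u y ^ 2 / 2) (-y + (F (u y) + s * u y)) y := by
  have h1 := arc_sq (φ := fun y => y) (g := fun x => x) h hy
  have hu := h.pos y hy
  refine h1.congr_deriv ?_
  rw [div_self hu.ne', mul_one]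

lemma quad_le {ρ K Y : ℝ} (hK : 0 ≤ K) (hY : 0 ≤ Y) (h : ρ ^ 2 ≤ Y ^ 2 + 2 * K * ρ * Y) :
    ρ ≤ (1 + 2 * K) * Y := by
  by_contra hcon
  push Not at hcon
  have h1 : 0 ≤ K * Y := mul_nonneg hK hY
  have h2 : 0 < ρ := lt_of_le_of_lt (by positivity) hcon
  have h3 : Y + 2 * (K * Y) < ρ := by nlinarith
  have h4 : ρ * (Y + 2 * (K * Y)) < ρ * ρ := mul_lt_mul_of_pos_left h3 h2
  have h5 : Y * Y ≤ ρ * Y := mul_le_mul_of_nonneg_right (by linarith) hY
  nlinarith

theorem t_WID : S_WID := by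
  intro F s B Y K u h hK hF y
  have hd := fun y (hy : y ∈ Ioo (-B) Y) => arc_sq' h hy
  obtain ⟨hB, hY, hc, hout, hpos, hder⟩ := h
  have hnn : ∀ y, 0 ≤ u y := by
    intro y
    by_cases hy : y ∈ Ioo (-B) Y
    · exact (hpos y hy).le
    · rw [hout y hy]
  obtain ⟨y0, hy0m, hmax⟩ := (isCompact_Icc (a := -B) (b := Y)).exists_isMaxOn
    ⟨0, by constructor <;> linarith⟩ hc.continuousOn
  set ρ := u y0 with hρ
  have hle : ∀ y, u y ≤ ρ := by
    intro y
    by_cases hy : y ∈ Icc (-B) Y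
    · exact hmax hy
    · rw [hout y (fun h => hy ⟨h.1.le, h.2.le⟩)]
      exact hnn y0
  have hρ0 : 0 < ρ := (hpos 0 ⟨by linarith, by linarith⟩).trans_le (hle 0)
  have hFb : ∀ y, |F (u y) + s * u y| ≤ K * ρ := fun y =>
    (hF y).trans (mul_le_mul_of_nonneg_left (hle y) hK)
  have hK2 : 0 ≤ 1 + 2 * K := by linarith
  rcases le_total 0 y0 with h0 | h0
  · have hmono : MonotoneOn (fun y => u y ^ 2 / 2 + y ^ 2 / 2 + K * ρ * y) (Icc y0 Y) := by
      have hd2 : ∀ y ∈ Ioo y0 Y, HasDerivAt (fun y => u y ^ 2 / 2 + y ^ 2 / 2 + K * ρ * y)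
          ((-y + (F (u y) + s * u y)) + y + K * ρ) y := by
        intro y hy
        have a1 := hd y ⟨by linarith [hy.1], hy.2⟩
        have a2 : HasDerivAt (fun y : ℝ => y ^ 2 / 2) y y := by
          have := (hasDerivAt_pow 2 y).div_const 2
          refine this.congr_deriv ?_
          simp
        have a3 : HasDerivAt (fun y : ℝ => K * ρ * y) (K * ρ) y := by
          simpa using (hasDerivAt_id y).const_mul (K * ρ)
        exact (a1.add a2).add a3
      apply monotoneOn_of_deriv_nonneg (convex_Icc _ _)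
      · exact (by fun_prop : Continuous fun y => u y ^ 2 / 2 + y ^ 2 / 2 + K * ρ * y).continuousOn
      · intro y hy
        rw [interior_Icc] at hy
        exact (hd2 y hy).differentiableAt.differentiableWithinAt
      · intro y hy
        rw [interior_Icc] at hy
        rw [(hd2 y hy).deriv]
        have := (abs_le.1 (hFb y)).1
        linarith
    have h1 := hmono (left_mem_Icc.2 hy0m.2) (right_mem_Icc.2 hy0m.2) hy0m.2
    simp only at h1
    rw [hout Y (fun h => lt_irrefl _ h.2), ← hρ] at h1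
    have h2 : 0 ≤ K * ρ * y0 := by positivity
    have h3 : ρ ^ 2 ≤ Y ^ 2 + 2 * K * ρ * Y := by nlinarith [sq_nonneg y0]
    calc u y ≤ ρ := hle y
      _ ≤ (1 + 2 * K) * Y := quad_le hK hY.le h3
      _ ≤ (1 + 2 * K) * max B Y := mul_le_mul_of_nonneg_left (le_max_right _ _) hK2
  · have hanti : AntitoneOn (fun y => u y ^ 2 / 2 + y ^ 2 / 2 - K * ρ * y) (Icc (-B) y0) := by
      have hd2 : ∀ y ∈ Ioo (-B) y0, HasDerivAt (fun y => u y ^ 2 / 2 + y ^ 2 / 2 - K * ρ * y)
          ((-y + (F (u y) + s * u y)) + y - K * ρ) y := by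
        intro y hy
        have a1 := hd y ⟨hy.1, by linarith [hy.2]⟩
        have a2 : HasDerivAt (fun y : ℝ => y ^ 2 / 2) y y := by
          have := (hasDerivAt_pow 2 y).div_const 2
          refine this.congr_deriv ?_
          simp
        have a3 : HasDerivAt (fun y : ℝ => K * ρ * y) (K * ρ) y := by
          simpa using (hasDerivAt_id y).const_mul (K * ρ)
        exact (a1.add a2).sub a3
      apply antitoneOn_of_deriv_nonpos (convex_Icc _ _)
      · exact (by fun_prop : Continuous fun y => u y ^ 2 / 2 + y ^ 2 / 2 - K * ρ * y).continuousOn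
      · intro y hy
        rw [interior_Icc] at hy
        exact (hd2 y hy).differentiableAt.differentiableWithinAt
      · intro y hy
        rw [interior_Icc] at hy
        rw [(hd2 y hy).deriv]
        have := (abs_le.1 (hFb y)).2
        linarith
    have h1 := hanti (left_mem_Icc.2 hy0m.1) (right_mem_Icc.2 hy0m.1) hy0m.1
    simp only at h1
    rw [hout (-B) (fun h => lt_irrefl _ h.1), ← hρ] at h1
    have h2 : K * ρ * y0 ≤ 0 := mul_nonpos_of_nonneg_of_nonpos (by positivity) h0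
    have h3 : ρ ^ 2 ≤ B ^ 2 + 2 * K * ρ * B := by nlinarith [sq_nonneg y0]
    calc u y ≤ ρ := hle y
      _ ≤ (1 + 2 * K) * B := quad_le hK hB.le h3
      _ ≤ (1 + 2 * K) * max B Y := mul_le_mul_of_nonneg_left (le_max_left _ _) hK2

end Pool.Agent.J4H16.LI
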