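import Pool.Agent.J4H16.LI.Wid
import Pool.Agent.J4H16.LI.Tp
import Pool.Agent.J4H16.LI.Pt

/-! Project LI, sixth part: general restoring force. -/

open Set MeasureTheory

namespace Pool.Agent.J4H16.LI

/-- the restoring force along an arc -/
def Gar (g : ℝ → ℝ) (κ B Y : ℝ) (u : ℝ → ℝ) : Prop :=
  ∀ y ∈ Ioo (-B) Y, 0 < g (u y) ∧ u y ≤ κ * g (u y) ∧ g (u y) ≤ κ * u y

lemma quad_le' {ρ K Y κ : ℝ} (hK : 0 ≤ K) (hY : 0 ≤ Y) (hκ : 1 ≤ κ)
    (h : ρ ^ 2 ≤ κ * (Y ^ 2 + 2 * K * ρ * Y)) : ρ ≤ κ * (1 + 2 * K) * Y := by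
  by_contra hcon
  push Not at hcon
  have hκ0 : 0 < κ := by linarith
  have h1 : 0 ≤ K * Y := mul_nonneg hK hY
  have h2 : 0 < ρ := lt_of_le_of_lt (by positivity) hcon
  have h6 : Y ≤ ρ := by
    have h7 : 1 * Y ≤ κ * Y := mul_le_mul_of_nonneg_right hκ hY
    have h8 : 0 ≤ κ * (K * Y) := by positivity
    nlinarith
  have h4 : ρ * (κ * (1 + 2 * K) * Y) < ρ * ρ := mul_lt_mul_of_pos_left hcon h2
  have h5 : κ * (Y * Y) ≤ κ * (ρ * Y) :=
    mul_le_mul_of_nonneg_left (mul_le_mul_of_nonneg_right h6 hY) hκ0.le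
  nlinarith

theorem wid2 {F g : ℝ → ℝ} {s B Y K κ : ℝ} {u : ℝ → ℝ}
    (h : Arc (fun x y => y - F x) g s B Y u) (hK : 0 ≤ K) (hκ : 1 ≤ κ)
    (hF : ∀ y, |F (u y) + s * u y| ≤ K * u y) (hg : Gar g κ B Y u) (y : ℝ) :
    u y ≤ κ * (1 + 2 * K) * max B Y := by
  have hd := fun y (hy : y ∈ Ioo (-B) Y) => arc_sq (φ := fun y => y) h hy
  have hκ0 : 0 < κ := by linarith
  obtain ⟨hB, hY, hc, hout, hpos, hder⟩ := h
  have hnn : ∀ y, 0 ≤ u y := by
    intro y
    by_cases hy : y ∈ Ioo (-B) Y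
    · exact (hpos y hy).le
    · rw [hout y hy]
  obtain ⟨y0, hy0m, hmax⟩ := (isCompact_Icc (a := -B) (b := Y)).exists_isMaxOn
    ⟨0, by constructor <;> linarith⟩ hc.continuousOn
  set ρ := u y0 with hρ
  have hle : ∀ y, u y ≤ ρ := by
    intro y
    by_cases hy : y ∈ Icc (-B) Y
    · exact hmax hy
    · rw [hout y (fun h => hy ⟨h.1.le, h.2.le⟩)]
      exact hnn y0
  have hρ0 : 0 < ρ := (hpos 0 ⟨by linarith, by linarith⟩).trans_le (hle 0)
  have hFb : ∀ y, |F (u y) + s * u y| ≤ K * ρ := fun y =>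
    (hF y).trans (mul_le_mul_of_nonneg_left (hle y) hK)
  have hK2 : 0 ≤ κ * (1 + 2 * K) := by positivity
  have hq : ∀ y ∈ Ioo (-B) Y, 0 ≤ u y / g (u y) ∧ u y / g (u y) ≤ κ := by
    intro y hy
    obtain ⟨g1, g2, -⟩ := hg y hy
    exact ⟨div_nonneg (hnn y) g1.le, (div_le_iff₀ g1).2 g2⟩
  rcases le_total 0 y0 with h0 | h0
  · have hmono : MonotoneOn (fun y => u y ^ 2 / 2 + κ * (y ^ 2 / 2 + K * ρ * y)) (Icc y0 Y) := by
      have hd2 : ∀ y ∈ Ioo y0 Y, HasDerivAt (fun y => u y ^ 2 / 2 + κ * (y ^ 2 / 2 + K * ρ * y))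
          ((-y + (F (u y) + s * u y)) * (u y / g (u y)) + κ * (y + K * ρ)) y := by
        intro y hy
        have a1 := hd y ⟨by linarith [hy.1], hy.2⟩
        have a2 : HasDerivAt (fun y : ℝ => y ^ 2 / 2) y y := by
          have := (hasDerivAt_pow 2 y).div_const 2
          refine this.congr_deriv ?_
          simp
        have a3 : HasDerivAt (fun y : ℝ => K * ρ * y) (K * ρ) y := by
          simpa using (hasDerivAt_id y).const_mul (K * ρ)
        exact a1.add ((a2.add a3).const_mul κ)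
      apply monotoneOn_of_deriv_nonneg (convex_Icc _ _)
      · exact (by fun_prop : Continuous fun y => u y ^ 2 / 2 + κ * (y ^ 2 / 2 + K * ρ * y)).continuousOn
      · intro y hy
        rw [interior_Icc] at hy
        exact (hd2 y hy).differentiableAt.differentiableWithinAt
      · intro y hy
        rw [interior_Icc] at hy
        rw [(hd2 y hy).deriv]
        obtain ⟨q1, q2⟩ := hq y ⟨by linarith [hy.1], hy.2⟩
        have q3 := (abs_le.1 (hFb y)).1
        have q4 : -(y + K * ρ) ≤ -y + (F (u y) + s * u y) := by linarith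
        have q5 : 0 ≤ y + K * ρ := by
          have : 0 ≤ K * ρ := by positivity
          linarith [hy.1]
        have q6 := mul_le_mul_of_nonneg_right q4 q1
        have q7 := mul_le_mul_of_nonneg_left q2 q5
        nlinarith
    have h1 := hmono (left_mem_Icc.2 hy0m.2) (right_mem_Icc.2 hy0m.2) hy0m.2
    simp only at h1
    rw [hout Y (fun h => lt_irrefl _ h.2), ← hρ] at h1
    have h2 : 0 ≤ κ * (y0 ^ 2 / 2 + K * ρ * y0) := by positivity
    have h3 : ρ ^ 2 ≤ κ * (Y ^ 2 + 2 * K * ρ * Y) := by nlinarith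
    calc u y ≤ ρ := hle y
      _ ≤ κ * (1 + 2 * K) * Y := quad_le' hK hY.le hκ h3
      _ ≤ κ * (1 + 2 * K) * max B Y := mul_le_mul_of_nonneg_left (le_max_right _ _) hK2
  · have hanti : AntitoneOn (fun y => u y ^ 2 / 2 + κ * (y ^ 2 / 2 - K * ρ * y)) (Icc (-B) y0) := by
      have hd2 : ∀ y ∈ Ioo (-B) y0, HasDerivAt (fun y => u y ^ 2 / 2 + κ * (y ^ 2 / 2 - K * ρ * y))
          ((-y + (F (u y) + s * u y)) * (u y / g (u y)) + κ * (y - K * ρ)) y := by
        intro y hy
        have a1 := hd y ⟨hy.1, by linarith [hy.2]⟩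
        have a2 : HasDerivAt (fun y : ℝ => y ^ 2 / 2) y y := by
          have := (hasDerivAt_pow 2 y).div_const 2
          refine this.congr_deriv ?_
          simp
        have a3 : HasDerivAt (fun y : ℝ => K * ρ * y) (K * ρ) y := by
          simpa using (hasDerivAt_id y).const_mul (K * ρ)
        exact a1.add ((a2.sub a3).const_mul κ)
      apply antitoneOn_of_deriv_nonpos (convex_Icc _ _)
      · exact (by fun_prop : Continuous fun y => u y ^ 2 / 2 + κ * (y ^ 2 / 2 - K * ρ * y)).continuousOn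
      · intro y hy
        rw [interior_Icc] at hy
        exact (hd2 y hy).differentiableAt.differentiableWithinAt
      · intro y hy
        rw [interior_Icc] at hy
        rw [(hd2 y hy).deriv]
        obtain ⟨q1, q2⟩ := hq y ⟨hy.1, by linarith [hy.2]⟩
        have q3 := (abs_le.1 (hFb y)).2
        have q4 : -y + (F (u y) + s * u y) ≤ -y + K * ρ := by linarith
        have q5 : 0 ≤ -y + K * ρ := by
          have : 0 ≤ K * ρ := by positivity
          linarith [hy.2]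
        have q6 := mul_le_mul_of_nonneg_right q4 q1
        have q7 := mul_le_mul_of_nonneg_left q2 q5
        nlinarith
    have h1 := hanti (left_mem_Icc.2 hy0m.1) (right_mem_Icc.2 hy0m.1) hy0m.1
    simp only at h1
    rw [hout (-B) (fun h => lt_irrefl _ h.1), ← hρ] at h1
    have h2' : K * ρ * y0 ≤ 0 := mul_nonpos_of_nonneg_of_nonpos (by positivity) h0
    have h2 : 0 ≤ κ * (y0 ^ 2 / 2 - K * ρ * y0) := mul_nonneg hκ0.le (by
      have := sq_nonneg y0
      linarith)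
    have h3 : ρ ^ 2 ≤ κ * (B ^ 2 + 2 * K * ρ * B) := by nlinarith
    calc u y ≤ ρ := hle y
      _ ≤ κ * (1 + 2 * K) * B := quad_le' hK hB.le hκ h3
      _ ≤ κ * (1 + 2 * K) * max B Y := mul_le_mul_of_nonneg_left (le_max_left _ _) hK2

end Pool.Agent.J4H16.LI
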